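import Mathlib
import Pool.Agent.Lib.MP_3b7f8d_lc.Laws

/-! Densities on the line. -/

namespace Pool.Agent.Lib.MP_3b7f8d_lc.FP

open Finset MeasureTheory Filter Topology
open scoped ENNReal

/-- A density bounded by one with first moment at most `κ`. -/
structure Den (f : ℝ → ℝ) (κ : ℝ) : Prop where
  meas : Measurable f
  nonneg : ∀ x, 0 ≤ f x
  le_one : ∀ x, f x ≤ 1
  int : ∫ x, f x = 1
  mom : Integrable fun x => |x| * f x
  mom_le : ∫ x, |x| * f x ≤ κ

variable {f : ℝ → ℝ} {κ σ : ℝ}

theorem Den.lint (h : Den f κ) : ∫⁻ x, ENNReal.ofReal (f x) = 1 := by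
  rw [← ofReal_integral_eq_lintegral_ofReal (integrable_of_integral_eq_one h.int)
    (Eventually.of_forall h.nonneg), h.int, ENNReal.ofReal_one]

theorem Den.kappa (h : Den f κ) : 0 ≤ κ :=
  (integral_nonneg fun x => mul_nonneg (abs_nonneg x) (h.nonneg x)).trans h.mom_le

theorem Den.lint_add (h : Den f κ) {a : ℝ} (ha : 0 ≤ a) :
    ∫⁻ y, ENNReal.ofReal (f y) * ENNReal.ofReal (a + |y|) ≤ ENNReal.ofReal (a + κ) := by
  have hpos : ∀ x, 0 ≤ |x| * f x := fun x => mul_nonneg (abs_nonneg x) (h.nonneg x)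
  have := h.meas
  calc _ = ∫⁻ y, ENNReal.ofReal a * ENNReal.ofReal (f y) + ENNReal.ofReal (|y| * f y) := by
        refine lintegral_congr fun y => ?_
        rw [← ENNReal.ofReal_mul (h.nonneg y), ← ENNReal.ofReal_mul ha,
          ← ENNReal.ofReal_add (mul_nonneg ha (h.nonneg y)) (hpos y)]
        congr 1
        ring
    _ ≤ _ := by
        rw [lintegral_add_left (by fun_prop), lintegral_const_mul _ (by fun_prop), h.lint, mul_one,
          ← ofReal_integral_eq_lintegral_ofReal h.mom (Eventually.of_forall hpos),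
          ENNReal.ofReal_add ha h.kappa]
        gcongr
        exact h.mom_le

theorem Den.nice (h : Den f κ) (hσ : 0 < σ) (hσ1 : σ ≤ 1) {u R : ℝ} (hu : |u| ≤ R) :
    Nice (pert f σ u) (1 / σ) (R + κ) := by
  refine ⟨⟨?_⟩, fun s => ?_, ?_⟩
  · rw [← lintegral_one, lintegral_pert h.meas hσ u measurable_const]
    simpa using h.lint
  · rw [pert, withDensity_apply', ← setLIntegral_const]
    refine lintegral_mono fun x => ENNReal.ofReal_le_ofReal ?_
    gcongr
    exact h.le_one _
  · rw [lintegral_pert h.meas hσ u (by fun_prop)]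
    refine le_trans (lintegral_mono fun y => mul_le_mul_right (ENNReal.ofReal_le_ofReal ?_) _)
      (h.lint_add ((abs_nonneg u).trans hu))
    refine (abs_add_le _ _).trans ?_
    rw [abs_mul, abs_of_pos hσ]
    nlinarith [abs_nonneg y]

/-- A heavy-tailed reference density. -/
noncomputable def gd (x : ℝ) : ℝ := 1 / (1 + |x|) ^ 3

theorem gd_pos (x : ℝ) : 0 < gd x := by
  unfold gd
  positivity

theorem gd_shift (x s : ℝ) : gd x ≤ (1 + |s|) ^ 3 * gd (x + s) := by
  rw [gd, gd, mul_one_div, div_le_div_iff₀ (by positivity) (by positivity), one_mul, ← mul_pow]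
  gcongr
  nlinarith [abs_add_le x s, mul_nonneg (abs_nonneg x) (abs_nonneg s)]

theorem one_le_gd (x : ℝ) {s : ℝ} (hs : |s| ≤ 1) : 1 ≤ (2 + |x|) ^ 3 * gd (x + s) := by
  rw [gd, mul_one_div, one_le_div (by positivity)]
  refine pow_le_pow_left₀ (by positivity) ?_ _
  linarith [abs_add_le x s]

theorem den_gd : Den gd (∫ x, |x| * gd x) := by
  have hm : Measurable gd := by
    unfold gd
    fun_prop
  refine ⟨hm, fun x => (gd_pos x).le, fun x => ?_, ?_, ?_, le_rfl⟩
  · rw [gd, div_le_one (by positivity)]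
    exact one_le_pow₀ (by linarith [abs_nonneg x])
  · have h1 := integral_comp_abs (f := fun x => 1 / (1 + x) ^ 3)
    have h2 : ∫ x in Set.Ioi (0 : ℝ), 1 / (1 + x) ^ 3 = 0 - -(1 / 2) * ((1 + 0) ^ 2)⁻¹ := by
      have h3 : ∀ x : ℝ, 0 ≤ x → HasDerivAt (fun x : ℝ => -(1 / 2) * ((1 + x) ^ 2)⁻¹)
          (1 / (1 + x) ^ 3) x := fun x hx => by
        have h4 : 1 + x ≠ 0 := by positivity
        refine (((((hasDerivAt_id x).const_add 1).pow 2).inv (pow_ne_zero 2 h4)).const_mul
          (-(1 / 2))).congr_deriv ?_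
        simp only [id, Pi.pow_apply]
        field_simp
        ring
      refine integral_Ioi_of_hasDerivAt_of_nonneg (h3 0 le_rfl).continuousAt.continuousWithinAt
        (fun x hx => h3 x (le_of_lt hx)) (fun x hx => ?_) ?_
      · have : 0 < x := hx
        positivity
      · simpa using (tendsto_inv_atTop_zero.comp ((tendsto_pow_atTop two_ne_zero).comp
          (tendsto_atTop_add_const_left _ 1 tendsto_id))).const_mul (-(1 / 2) : ℝ)
    rw [h2] at h1
    exact h1.trans (by norm_num)
  · refine (integrable_one_add_norm (E := ℝ) (μ := volume) (r := 2) (by simp)).mono' (by fun_prop)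
      (Eventually.of_forall fun x => ?_)
    have := gd_pos x
    rw [Real.norm_of_nonneg (by positivity), Real.rpow_neg (by positivity), Real.rpow_two, gd,
      Real.norm_eq_abs, mul_one_div, inv_eq_one_div, div_le_div_iff₀ (by positivity)
      (by positivity)]
    nlinarith [sq_nonneg (1 + |x|)]

theorem Den.mix {g : ℝ → ℝ} {κ' β : ℝ} (h : Den f κ) (h' : Den g κ') (hβ : 0 ≤ β) :
    Den (fun x => (f x + β * g x) / (1 + β)) (κ + κ') := by
  have h1 := h.meas
  have h2 := h'.meas
  have e : (fun x => |x| * ((f x + β * g x) / (1 + β))) =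
      fun x => (|x| * f x + β * (|x| * g x)) / (1 + β) := funext fun x => by ring
  refine ⟨by fun_prop, fun x => ?_, fun x => ?_, ?_, ?_, ?_⟩
  · have := h.nonneg x
    have := h'.nonneg x
    positivity
  · rw [div_le_one (by positivity)]
    nlinarith [h.le_one x, h'.le_one x]
  · rw [integral_div, integral_add (integrable_of_integral_eq_one h.int)
      ((integrable_of_integral_eq_one h'.int).const_mul β), integral_const_mul, h.int, h'.int,
      mul_one, div_self (by positivity)]
  · rw [e]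
    exact (h.mom.add (h'.mom.const_mul β)).div_const _
  · rw [e, integral_div, integral_add h.mom (h'.mom.const_mul β), integral_const_mul,
      div_le_iff₀ (by positivity)]
    nlinarith [h.mom_le, h'.mom_le, h.kappa, h'.kappa]

theorem Den.minorant (h : Den f κ) (hc : ∀ᵐ x, ContinuousAt f x) {ω : ℝ} (hω : 0 < ω) :
    ∃ k : ℕ, ∃ t : ℝ → ℝ, Measurable t ∧ (∀ x, 0 ≤ t x ∧ t x ≤ f x) ∧
      (∀ x x', t x ≤ t x' + k * |x - x'|) ∧ (∀ x, (k : ℝ) < |x| → t x = 0) ∧
      ∫⁻ x, ENNReal.ofReal (f x - t x) ≤ ENNReal.ofReal ω := by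
  set F : ℕ → ℝ → ℝ → ℝ := fun k x y => (if |y| ≤ k then f y else 0) + k * |x - y| with hF
  set t : ℕ → ℝ → ℝ := fun k x => ⨅ y, F k x y with ht
  have h0 : ∀ k x y, 0 ≤ F k x y := fun k x y => by
    have := h.nonneg y
    simp only [hF]
    split_ifs <;> positivity
  have h1 : ∀ k x y, t k x ≤ F k x y := fun k x y => ciInf_le ⟨0, by
    rintro _ ⟨y, rfl⟩
    exact h0 k x y⟩ y
  have h2 : ∀ k x, 0 ≤ t k x := fun k x => le_ciInf (h0 k x)
  have h3 : ∀ k x, t k x ≤ if |x| ≤ k then f x else 0 := fun k x => by simpa [hF] using h1 k x x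
  have h4 : ∀ k x, t k x ≤ f x := fun k x => (h3 k x).trans (by
    split_ifs
    · exact le_rfl
    · exact h.nonneg x)
  have h5 : ∀ k x x', t k x ≤ t k x' + k * |x - x'| := fun k x x' => by
    rw [← sub_le_iff_le_add]
    refine le_ciInf fun y => ?_
    have h6 := h1 k x y
    have h7 : (k : ℝ) * |x - y| ≤ k * (|x - x'| + |x' - y|) := by
      gcongr
      exact abs_sub_le _ _ _
    simp only [hF] at h6 ⊢
    linarith
  have h6 : ∀ k, Measurable (t k) := fun k =>
    (LipschitzWith.of_le_add_mul' (k : ℝ) (h5 k)).continuous.measurable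
  have hm := h.meas
  have h7 := tendsto_lintegral_of_dominated_convergence (μ := volume)
    (F := fun k x => ENNReal.ofReal (f x - t k x)) (f := fun _ => 0)
    (fun x => ENNReal.ofReal (f x)) (fun k => by have := h6 k; fun_prop)
    (fun k => Eventually.of_forall fun x => ENNReal.ofReal_le_ofReal (by linarith [h2 k x]))
    (by rw [h.lint]; exact ENNReal.one_ne_top) (hc.mono fun x hx => ?_)
  · rw [lintegral_zero] at h7
    obtain ⟨k, hk⟩ := (h7.eventually (eventually_le_nhds (ENNReal.ofReal_pos.2 hω))).exists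
    exact ⟨k, t k, h6 k, fun x => ⟨h2 k x, h4 k x⟩, h5 k,
      fun x hx => le_antisymm (by simpa [not_le.2 hx] using h3 k x) (h2 k x), hk⟩
  · rw [← ENNReal.ofReal_zero]
    refine ENNReal.tendsto_ofReal (Metric.tendsto_atTop.2 fun ε hε => ?_)
    obtain ⟨δ, hδ, hδ'⟩ := Metric.continuousAt_iff.1 hx (ε / 2) (by positivity)
    obtain ⟨N, hN⟩ := exists_nat_ge (|x| + δ + 1 / δ)
    refine ⟨N, fun k hk => ?_⟩
    have h8 : |x| + δ + 1 / δ ≤ k := hN.trans (by exact_mod_cast hk)
    have h9 : 0 < 1 / δ := by positivity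
    have h10 : f x - ε / 2 ≤ t k x := le_ciInf fun y => by
      simp only [hF]
      by_cases hy : |y - x| < δ
      · have h11 := abs_lt.1 (hδ' hy)
        have h12 : |y| ≤ k := by linarith [abs_sub_abs_le_abs_sub y x]
        rw [if_pos h12]
        linarith [h11.1, mul_nonneg (Nat.cast_nonneg (α := ℝ) k) (abs_nonneg (x - y))]
      · rw [abs_sub_comm, not_lt] at hy
        have h11 : 1 / δ * δ ≤ k * |x - y| := by
          gcongr
          linarith [abs_nonneg x]
        rw [one_div_mul_cancel hδ.ne'] at h11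
        have h12 : 0 ≤ if |y| ≤ k then f y else 0 := by
          split_ifs
          · exact h.nonneg y
          · exact le_rfl
        linarith [h.le_one x]
    rw [Real.dist_eq, sub_zero, abs_of_nonneg (by linarith [h4 k x])]
    linarith

end Pool.Agent.Lib.MP_3b7f8d_lc.FP
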