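import Mathlib
import Pool.Agent.Lib.MP_3b7f8d_lc.Laws

/-! Anti-concentration of one random row. -/

namespace Pool.Agent.Lib.MP_3b7f8d_lc.FP

open Finset MeasureTheory
open scoped ENNReal

variable {n : ℕ}

/-- The properties of the law of one row that the analysis uses. -/
structure RowOK (ν : Measure (Row n)) (U : ℝ) : Prop where
  slab : ∀ (h : Fin n → ℝ) (h₀ ε : ℝ), h ≠ 0 → 0 ≤ ε →
    ν {ρ | |ρ.1 ⬝ᵥ h + ρ.2 * h₀| ≤ ε * ‖h‖} ≤ ENNReal.ofReal (U * ε)
  small : ∀ ε, 0 ≤ ε → ν {ρ | |ρ.2| ≤ ε} ≤ ENNReal.ofReal (U * ε)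
  dist : ∀ (k : ℕ) (V : Submodule ℝ (Fin n → ℝ)) (ε : ℝ), 0 ≤ ε → Module.finrank ℝ V + k ≤ n →
    ν {ρ | ∃ v ∈ V, ‖ρ.1 - v‖ ≤ ε} ≤ ENNReal.ofReal ((U * ε) ^ k)
  mom : ∫⁻ ρ, ENNReal.ofReal ‖ρ‖ ∂ν ≤ ENNReal.ofReal U

theorem update_eq_add (a : Fin n → ℝ) (j : Fin n) (x : ℝ) :
    Function.update a j x = a + Pi.single j (x - a j) := by
  ext i
  by_cases hi : i = j <;> simp [hi]

theorem sec_slab {μ : Measure ℝ} {φ κ : ℝ} (hμ : Nice μ φ κ) (hφ : 0 ≤ φ) (a : Fin n → ℝ)
    {v : Fin n → ℝ} {j : Fin n} (hv : v j ≠ 0) {g : ℝ} :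
    μ {x | |Function.update a j x ⬝ᵥ v| ≤ g * |v j|} ≤ ENNReal.ofReal (φ * (2 * g)) := by
  set C := a ⬝ᵥ v - a j * v j with hC
  have h2 : {x | |Function.update a j x ⬝ᵥ v| ≤ g * |v j|} =
      (v j * ·) ⁻¹' Set.Icc (-(g * |v j|) - C) (g * |v j| - C) := by
    ext x
    have h1 : Function.update a j x ⬝ᵥ v = v j * x + C := by
      rw [update_eq_add, add_dotProduct, single_dotProduct, hC]
      ring
    simp only [Set.mem_ofPred_eq, h1, Set.mem_preimage, Set.mem_Icc, sub_le_iff_le_add,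
      le_sub_iff_add_le, abs_le]
  rw [h2]
  refine (hμ.le _).trans ?_
  rw [Real.volume_preimage_mul_left hv, Real.volume_Icc, ← ENNReal.ofReal_mul (abs_nonneg _),
    ENNReal.ofReal_mul hφ]
  refine mul_le_mul_right (ENNReal.ofReal_le_ofReal ?_) _
  rw [abs_inv, inv_mul_le_iff₀ (abs_pos.2 hv)]
  nlinarith

theorem meas_dist (V : Submodule ℝ (Fin n → ℝ)) (ε : ℝ) :
    MeasurableSet {a : Fin n → ℝ | ∃ v ∈ V, ‖a - v‖ ≤ ε} :=
  measurableSet_exists (IsClosed.and (V.closed_of_finiteDimensional.preimage continuous_snd)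
    (isClosed_le (by fun_prop) (by fun_prop)))

theorem pi_dist {μ : Fin n → Measure ℝ} {φ κ : ℝ} (hμ : ∀ j, Nice (μ j) φ κ) (hφ : 0 ≤ φ) {ε : ℝ}
    (hε : 0 ≤ ε) (k : ℕ) : ∀ V : Submodule ℝ (Fin n → ℝ), Module.finrank ℝ V + k ≤ n →
    Measure.pi μ {a | ∃ v ∈ V, ‖a - v‖ ≤ ε} ≤ ENNReal.ofReal ((φ * (2 * (n * ε))) ^ k) := by
  have := fun j => (hμ j).prob
  induction k with
  | zero => intro V _; simpa using prob_le_one
  | succ k ih =>
    intro V hV
    obtain ⟨f, hf0, hf⟩ := V.exists_le_ker_of_lt_top (lt_top_iff_ne_top.2 fun h => by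
      rw [h, finrank_top, Module.finrank_fin_fun] at hV
      omega)
    set h : Fin n → ℝ := fun l => f (Pi.single l 1) with hh
    have hfa : ∀ a, f a = a ⬝ᵥ h := fun a => by
      rw [LinearMap.pi_apply_eq_sum_univ]
      refine sum_congr rfl fun l _ => ?_
      rw [smul_eq_mul, hh]
      congr 2
      ext i
      simp [Pi.single_apply, eq_comm]
    have hh0 : 0 < ‖h‖ := norm_pos_iff.2 fun h0 => hf0 (LinearMap.ext fun a => by simp [hfa, h0])
    obtain ⟨j, hj⟩ : ∃ j, ‖h‖ ≤ |h j| := by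
      by_contra h1
      push Not at h1
      exact lt_irrefl _ ((pi_norm_lt_iff hh0).2 h1)
    set V' := V ⊔ Submodule.span ℝ {Pi.single j 1} with hV'
    have hr : Module.finrank ℝ V' + k ≤ n := by
      have h1 := Submodule.finrank_add_le_finrank_add_finrank V
        (Submodule.span ℝ {(Pi.single j 1 : Fin n → ℝ)})
      have h2 : Module.finrank ℝ (Submodule.span ℝ {(Pi.single j 1 : Fin n → ℝ)}) = 1 :=
        finrank_span_singleton (by simp)
      rw [← hV'] at h1
      omega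
    refine (pi_le_of_update μ j (meas_dist V ε) (meas_dist V' ε)
      (b := ENNReal.ofReal (φ * (2 * (n * ε)))) fun a => ?_).trans ?_
    · rcases Set.eq_empty_or_nonempty
        {x | Function.update a j x ∈ {a : Fin n → ℝ | ∃ v ∈ V, ‖a - v‖ ≤ ε}} with
        h1 | ⟨x₀, v₀, hv₀, h1⟩
      · rw [h1]
        simp
      rw [Set.eq_univ_of_forall (s := {x | Function.update a j x ∈
        {a : Fin n → ℝ | ∃ v ∈ V', ‖a - v‖ ≤ ε}}) fun x => ⟨v₀ + (x - x₀) • Pi.single j 1,
          Submodule.add_mem_sup hv₀ (Submodule.smul_mem _ _ (Submodule.subset_span rfl)), ?_⟩,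
        measure_univ, mul_one]
      · refine le_trans (measure_mono ?_) (sec_slab (hμ j) hφ a (abs_pos.1 (hh0.trans_le hj)))
        rintro x ⟨v, hv, h2⟩
        have h3 : Function.update a j x ⬝ᵥ h = (Function.update a j x - v) ⬝ᵥ h := by
          rw [sub_dotProduct, ← hfa v, LinearMap.mem_ker.1 (hf hv), sub_zero]
        rw [Set.mem_ofPred_eq, h3]
        calc _ ≤ ∑ l, |(Function.update a j x - v) l * h l| := abs_sum_le_sum_abs _ _
          _ ≤ ∑ _l : Fin n, ε * |h j| := sum_le_sum fun l _ => by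
            rw [abs_mul]
            exact mul_le_mul ((norm_le_pi_norm _ l).trans h2) ((norm_le_pi_norm h l).trans hj)
              (abs_nonneg _) hε
          _ = _ := by simp [mul_assoc]
      · refine le_of_eq_of_le (congrArg norm ?_) h1
        ext i
        by_cases hi : i = j
        · simp [hi]
          ring
        · simp [hi]
    · rw [pow_succ', ENNReal.ofReal_mul (p := φ * (2 * (n * ε))) (by positivity)]
      exact mul_le_mul_right (ih V' hr) _

theorem rowOK {μ : Fin n → Measure ℝ} {β : Measure ℝ} [IsProbabilityMeasure β] {φ κ R U : ℝ}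
    (hμ : ∀ j, Nice (μ j) φ κ) (hφ : 0 ≤ φ) (hκ : 0 ≤ κ) (hR : 0 ≤ R)
    (h1 : ∀ ε, 0 ≤ ε → β {b | |b| ≤ ε} ≤ ENNReal.ofReal (R * ε))
    (h2 : ∫⁻ b, ENNReal.ofReal |b| ∂β ≤ ENNReal.ofReal R) (hU1 : 2 * (n + 1) * φ ≤ U)
    (hU2 : n * κ + R ≤ U) : RowOK ((Measure.pi μ).prod β) U := by
  have := fun j => (hμ j).prob
  have hn : (0 : ℝ) ≤ n := Nat.cast_nonneg n
  refine ⟨fun h h₀ ε hh hε => ?_, fun ε hε => ?_, fun k V ε hε hV => ?_, ?_⟩
  · rw [Measure.prod_apply_symm (isClosed_le (by fun_prop) (by fun_prop)).measurableSet]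
    refine (lintegral_mono (g := fun _ => ENNReal.ofReal (U * ε)) fun b => ?_).trans (by simp)
    refine le_trans (measure_mono fun a ha => ?_) ((pi_slab hμ hφ (norm_pos_iff.2 hh)
      (-(b * h₀) - ε * ‖h‖) (g := 2 * ε) (by positivity)).trans (ENNReal.ofReal_le_ofReal ?_))
    · have h3 := abs_le.1 (show |a ⬝ᵥ h + b * h₀| ≤ ε * ‖h‖ from ha)
      exact ⟨by linarith [h3.1], by linarith [h3.2]⟩
    · nlinarith [mul_nonneg (mul_nonneg hn hφ) hε]
  · refine le_trans (le_of_eq ?_) ((h1 ε hε).trans (ENNReal.ofReal_le_ofReal ?_))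
    · exact measurePreserving_snd.measure_preimage (s := {b : ℝ | |b| ≤ ε})
        (isClosed_le (by fun_prop) (by fun_prop)).measurableSet.nullMeasurableSet
    · gcongr
      nlinarith
  · refine le_trans (le_of_eq ?_) ((pi_dist hμ hφ hε k V hV).trans (ENNReal.ofReal_le_ofReal ?_))
    · exact measurePreserving_fst.measure_preimage (meas_dist V ε).nullMeasurableSet
    · refine pow_le_pow_left₀ (by positivity) ?_ _
      nlinarith [mul_nonneg hφ hε, mul_le_mul_of_nonneg_right hU1 hε]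
  calc _ ≤ ∫⁻ ρ, (∑ j, ENNReal.ofReal |ρ.1 j|) + ENNReal.ofReal |ρ.2| ∂(Measure.pi μ).prod β := by
        refine lintegral_mono fun ρ => ?_
        rw [← ENNReal.ofReal_sum_of_nonneg fun _ _ => abs_nonneg _,
          ← ENNReal.ofReal_add (by positivity) (abs_nonneg _)]
        refine ENNReal.ofReal_le_ofReal (norm_prod_le_iff.2 ⟨?_, ?_⟩)
        · refine le_trans ?_ (le_add_of_nonneg_right (abs_nonneg _))
          exact (pi_norm_le_iff_of_nonneg (by positivity)).2 fun j =>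
            single_le_sum (f := fun j => |ρ.1 j|) (fun _ _ => abs_nonneg _) (mem_univ j)
        · exact le_add_of_nonneg_left (by positivity)
    _ ≤ (∑ _j : Fin n, ENNReal.ofReal κ) + ENNReal.ofReal R := by
        rw [lintegral_add_right _ (by fun_prop), lintegral_finsetSum _ (by fun_prop)]
        gcongr with j
        · refine le_trans (le_of_eq ?_) (hμ j).mom
          exact ((measurePreserving_eval μ j).comp measurePreserving_fst).lintegral_comp
            (f := fun x => ENNReal.ofReal |x|) (by fun_prop)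
        · refine le_trans (le_of_eq ?_) h2
          exact measurePreserving_snd.lintegral_comp (f := fun x => ENNReal.ofReal |x|)
            (by fun_prop)
    _ ≤ _ := by
        rw [sum_const, card_univ, Fintype.card_fin, nsmul_eq_mul, ← ENNReal.ofReal_natCast,
          ← ENNReal.ofReal_mul hn, ← ENNReal.ofReal_add (by positivity) hR]
        exact ENNReal.ofReal_le_ofReal hU2

end Pool.Agent.Lib.MP_3b7f8d_lc.FP
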