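import Mathlib
import Pool.Agent.Lib.MP_3b7f8d_lc.Geom

/-! Counting good bases on the shadow of a fixed plane. -/

namespace Pool.Agent.Lib.MP_3b7f8d_lc.FP

open Finset

variable {n : ℕ} {ι : Type}

/-- `B` is optimal for some `p + t q` with `|t| ≤ 1`, with multipliers at least `μ`. -/
def Seg (μ : ℝ) (r : ι → Row n) (p q : Fin n → ℝ) (B : Finset ι) : Prop :=
  ∃ t : ℝ, ∃ y : ι → ℝ, |t| ≤ 1 ∧ (∀ i ∈ B, μ ≤ y i) ∧ p + t • q = ∑ i ∈ B, y i • (r i).1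

/-- `B` is a feasible basis on the segment with multipliers at least `μ`. -/
def On (μ : ℝ) (r : ι → Row n) (p q : Fin n → ℝ) (S B : Finset ι) : Prop :=
  (∃ x, IsBFS r S B x) ∧ Seg μ r p q B

/-- `B` is on the segment and row `k` has a small slack. -/
def Bad (g : ℝ) (r : ι → Row n) (p q : Fin n → ℝ) (S B : Finset ι) (k : ι) : Prop :=
  (∃ x, IsBFS r S B x ∧ (r k).2 - (r k).1 ⬝ᵥ x ≤ g * ‖x‖) ∧ Seg 0 r p q B

variable [DecidableEq ι]

theorem sep_two {r : ι → Row n} {S B B' : Finset ι} {x x' p q : Fin n → ℝ} {y y' : ι → ℝ}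
    {t t' μ η : ℝ} (h : IsBFS r S B x) (h' : IsBFS r S B' x') (hne : B ≠ B') (hμ : 0 < μ)
    (hη : 0 < η) (hy : ∀ i ∈ B, μ ≤ y i) (hw : p + t • q = ∑ i ∈ B, y i • (r i).1)
    (hy' : IsDual r B' (p + t' • q) y') (hs : ∀ i ∈ B \ B', η ≤ (r i).2 - (r i).1 ⬝ᵥ x') :
    μ * η ≤ (t' - t) * (q ⬝ᵥ x' - q ⬝ᵥ x) := by
  obtain ⟨i, hi⟩ : (B \ B').Nonempty := by
    rw [sdiff_nonempty]
    exact fun hsub => hne (eq_of_subset_of_card_le hsub (by rw [h.2.1, h'.2.1]))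
  have hiB := (mem_sdiff.1 hi).1
  have h1 : μ * η ≤ (p + t • q) ⬝ᵥ (x - x') := by
    rw [hw, h.dot_sub]
    refine le_trans ?_ (single_le_sum (f := fun i => y i * ((r i).2 - (r i).1 ⬝ᵥ x'))
      (fun j hj => mul_nonneg (hμ.le.trans (hy j hj))
        (sub_nonneg.2 (h'.2.2.2.2 j (h.1 hj)))) hiB)
    exact mul_le_mul (hy i hiB) (hs i hi) hη.le (hμ.le.trans (hy i hiB))
  have h2 := h'.optimal hy' (u := x) fun j hj => h.2.2.2.2 j (h'.1 hj)
  simp only [add_dotProduct, smul_dotProduct, dotProduct_sub, smul_eq_mul] at h1 h2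
  nlinarith

theorem card_good {r : ι → Row n} {S : Finset ι} {p q : Fin n → ℝ} {μ g v ρ₀ : ℝ} {J : ℕ}
    (hq : ‖q‖ ≤ 1) (hμ : 0 < μ) (hg : 0 < g) (hv : 0 < v) (hvv : v ^ 2 ≤ μ * g) (hρ : 0 < ρ₀)
    (hn : ∀ B x, IsBFS r S B x → ρ₀ ≤ ‖x‖ ∧ ‖x‖ ≤ 2 ^ J * ρ₀) (G : Finset (Finset ι))
    (hG : ∀ B ∈ G, On μ r p q S B ∧ ∀ k ∈ S \ B, ¬ Bad g r p q S B k) :
    (G.card : ℝ) ≤ (J + 1) * (2 * (1 + 2 * n) / v + 1) := by
  classical
  have h0 : ∀ B, ∃ x : Fin n → ℝ, ∃ t : ℝ, ∃ y : ι → ℝ, B ∈ G → IsBFS r S B x ∧ |t| ≤ 1 ∧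
      (∀ i ∈ B, μ ≤ y i) ∧ p + t • q = ∑ i ∈ B, y i • (r i).1 := by
    intro B
    by_cases hB : B ∈ G
    · obtain ⟨⟨x, hx⟩, t, y, h⟩ := (hG B hB).1
      exact ⟨x, t, y, fun _ => ⟨hx, h⟩⟩
    · exact ⟨0, 0, 0, fun h => absurd h hB⟩
  choose x t y hx using h0
  have hd : ∀ B ∈ G, IsDual r B (p + t B • q) (y B) := fun B hB =>
    ⟨fun i hi => hμ.le.trans ((hx B hB).2.2.1 i hi), (hx B hB).2.2.2⟩
  have hsl : ∀ B ∈ G, ∀ k ∈ S \ B, g * ‖x B‖ ≤ (r k).2 - (r k).1 ⬝ᵥ x B := by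
    intro B hB k hk
    by_contra h
    exact (hG B hB).2 k hk ⟨⟨x B, (hx B hB).1, (not_le.1 h).le⟩, t B, y B, (hx B hB).2.1,
      (hd B hB).1, (hd B hB).2⟩
  set Gj : ℕ → Finset (Finset ι) := fun j => G.filter fun B =>
    2 ^ j * ρ₀ ≤ ‖x B‖ ∧ ‖x B‖ ≤ 2 * (2 ^ j * ρ₀) with hGj
  have hcover : G ⊆ (range (J + 1)).biUnion Gj := by
    intro B hB
    obtain ⟨h1, h2⟩ := hn B _ (hx B hB).1
    obtain ⟨j, hj1, hj2⟩ := exists_nat_pow_near ((one_le_div hρ).2 h1) one_lt_two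
    rw [le_div_iff₀ hρ] at hj1
    rw [div_lt_iff₀ hρ, pow_succ] at hj2
    refine mem_biUnion.2 ⟨j, ?_, mem_filter.2 ⟨hB, hj1, by linarith⟩⟩
    rw [mem_range, Nat.lt_succ_iff]
    exact (pow_le_pow_iff_right₀ one_lt_two).1 (le_of_mul_le_mul_right (hj1.trans h2) hρ)
  have bj : ∀ j, ((Gj j).card : ℝ) ≤ 2 * (1 + 2 * n) / v + 1 := by
    intro j
    set ρ : ℝ := 2 ^ j * ρ₀ with hρ'
    have hρ0 : 0 < ρ := by positivity
    have key : ∀ B ∈ Gj j, ∀ B' ∈ Gj j, B ≠ B' → t B ≤ t B' →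
        v ≤ (t B' + q ⬝ᵥ x B' / ρ) - (t B + q ⬝ᵥ x B / ρ) := by
      intro B hB B' hB' hne htt
      obtain ⟨hB, -⟩ := mem_filter.1 hB
      obtain ⟨hB', h3, -⟩ := mem_filter.1 hB'
      have h1 := sep_two (η := g * ρ) (hx B hB).1 (hx B' hB').1 hne hμ (by positivity)
        (hx B hB).2.2.1 (hx B hB).2.2.2 (hd B' hB') fun i hi => by
          rw [mem_sdiff] at hi
          refine le_trans ?_ (hsl B' hB' i (mem_sdiff.2 ⟨(hx B hB).1.1 hi.1, hi.2⟩))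
          gcongr
      have h2 : v ^ 2 ≤ (t B' - t B) * (q ⬝ᵥ x B' / ρ - q ⬝ᵥ x B / ρ) := by
        rw [← sub_div, ← mul_div_assoc, le_div_iff₀ hρ0]
        nlinarith
      set a := t B' - t B
      set b := q ⬝ᵥ x B' / ρ - q ⬝ᵥ x B / ρ
      have ha : 0 ≤ a := sub_nonneg.2 htt
      have hb : 0 ≤ b := by
        by_contra hb
        nlinarith [mul_nonneg ha (neg_nonneg.2 (not_le.1 hb).le), sq_pos_of_pos hv]
      have : v ≤ a + b := by
        by_contra h5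
        nlinarith [sq_nonneg a, sq_nonneg b, mul_nonneg ha hb]
      simp only [a, b] at this
      linarith
    refine card_le_of_sep (Gj j) (fun B => t B + q ⬝ᵥ x B / ρ) hv (by positivity)
      (fun B hB => ?_) fun B hB B' hB' hne => ?_
    · obtain ⟨hB, -, h3⟩ := mem_filter.1 hB
      refine (abs_add_le _ _).trans (add_le_add (hx B hB).2.1 ?_)
      rw [abs_div, abs_of_pos hρ0, div_le_iff₀ hρ0]
      refine (abs_dot_le hq).trans ?_
      nlinarith [Nat.cast_nonneg (α := ℝ) n]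
    · rcases le_total (t B) (t B') with h | h
      · rw [abs_sub_comm]
        exact (key B hB B' hB' hne h).trans (le_abs_self _)
      · exact (key B' hB' B hB hne.symm h).trans (le_abs_self _)
  have h5 : G.card ≤ ∑ j ∈ range (J + 1), (Gj j).card :=
    (card_le_card hcover).trans card_biUnion_le
  calc (G.card : ℝ) ≤ ∑ j ∈ range (J + 1), ((Gj j).card : ℝ) := by exact_mod_cast h5
    _ ≤ ∑ _j ∈ range (J + 1), (2 * (1 + 2 * n) / v + 1) := sum_le_sum fun j _ => bj j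
    _ = _ := by
      rw [sum_const, card_range, nsmul_eq_mul]
      push_cast
      ring

/-- Multipliers with a pattern: `S` is the set of rows with `y i ≥ κ y j`, with margin `η`. -/
def Pat (μ θ κ η : ℝ) (r : ι → Row n) (p q : Fin n → ℝ) (B : Finset ι) (j : ι) (S : Finset ι) :
    Prop :=
  ∃ t : ℝ, ∃ y : ι → ℝ, |t| ≤ 1 ∧ (∀ i ∈ B, μ ≤ y i) ∧ p + t • q = ∑ i ∈ B, y i • (r i).1 ∧
    (∀ i ∈ B, θ * y i ≤ y j) ∧ (∀ i ∈ S, (κ + η) * y j ≤ y i) ∧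
    ∀ i ∈ B.erase j \ S, y i ≤ (κ - η) * y j

theorem card_pat {r : ι → Row n} {p q : Fin n → ℝ} {B : Finset ι} {j : ι} {μ θ κ η : ℝ}
    (hc : B.card = n) (hl : LinearIndependent ℝ fun i : B => (r i).1) (hj : j ∈ B) (hμ : 0 < μ)
    (hη : 0 < η) (F : Finset (Finset ι))
    (hF : ∀ S ∈ F, S ⊆ B.erase j ∧ Pat μ θ κ η r p q B j S) : F.card ≤ n := by
  classical
  obtain ⟨a, ha⟩ := span_top hc hl p
  obtain ⟨b, hb⟩ := span_top hc hl q
  set N := (B.erase j).filter fun i => b i - κ * b j < 0 with hN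
  have h0 : ∀ S ∈ F, ∃ t : ℝ, ∀ i ∈ B.erase j,
      (i ∈ S ↔ 0 ≤ a i - κ * a j + t * (b i - κ * b j)) := by
    intro S hS
    obtain ⟨t, y, -, h1, h2, -, h3, h4⟩ := (hF S hS).2
    have h5 : ∀ i ∈ B, y i = a i + t * b i := mult_unique hl (by
      rw [← h2, ha, hb, smul_sum, ← sum_add_distrib]
      exact sum_congr rfl fun i _ => by rw [add_smul, mul_smul])
    refine ⟨t, fun i hi => ?_⟩
    have h6 : a i - κ * a j + t * (b i - κ * b j) = y i - κ * y j := by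
      rw [h5 i (mem_of_mem_erase hi), h5 j hj]
      ring
    have h7 := mul_pos hη (hμ.trans_le (h1 j hj))
    rw [h6]
    constructor
    · intro h
      linarith [h3 i h]
    · intro h
      by_contra h8
      linarith [h4 i (mem_sdiff.2 ⟨hi, h8⟩)]
  choose! t ht using h0
  have hsub : ∀ S ∈ F, symmDiff S N ⊆ B.erase j := fun S hS =>
    symmDiff_subset_union.trans (union_subset (hF S hS).1 (filter_subset _ _))
  have hmono : ∀ S ∈ F, ∀ S' ∈ F, t S ≤ t S' → symmDiff S N ⊆ symmDiff S' N := by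
    intro S hS S' hS' htt i hi
    have hi' := hsub S hS hi
    rw [mem_symmDiff, ht S hS i hi'] at hi
    rw [mem_symmDiff, ht S' hS' i hi']
    simp only [hN, mem_filter, hi', true_and, not_lt, not_le] at hi ⊢
    rcases hi with ⟨h1, h2⟩ | ⟨h1, h2⟩
    · left
      exact ⟨by nlinarith, h2⟩
    · right
      exact ⟨h1, by nlinarith⟩
  have h1 : F.card ≤ (range n).card := by
    refine card_le_card_of_injOn (fun S => (symmDiff S N).card) (fun S hS => ?_)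
      fun S hS S' hS' h => ?_
    · have h2 := card_le_card (hsub S hS)
      have h3 := card_erase_add_one hj
      rw [coe_range, Set.mem_Iio]
      show (symmDiff S N).card < n
      omega
    · refine symmDiff_left_injective N ?_
      rcases le_total (t S) (t S') with h2 | h2
      · exact eq_of_subset_of_card_le (hmono S hS S' hS' h2) h.ge
      · exact (eq_of_subset_of_card_le (hmono S' hS' S hS h2) h.le).symm
  simpa using h1

omit [DecidableEq ι] in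
theorem exists_window (B : Finset ι) (hB : B.card < n) (ρ : ι → ℝ) {a : ℝ} (ha : 0 < a) :
    ∃ s < n, ∀ i ∈ B, ρ i < s * a ∨ (s + 1) * a ≤ ρ i := by
  obtain ⟨s, hs, hs'⟩ := exists_mem_notMem_of_card_lt_card
    (s := B.image fun i => ⌊ρ i / a⌋) (t := (range n).image fun s : ℕ => (s : ℤ))
    (card_image_le.trans_lt (by rwa [card_image_of_injective _ Nat.cast_injective, card_range]))
  obtain ⟨s, hsn, rfl⟩ := mem_image.1 hs
  refine ⟨s, mem_range.1 hsn, fun i hi => ?_⟩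
  by_contra h
  push Not at h
  refine hs' (mem_image.2 ⟨i, hi, Int.floor_eq_iff.2 ⟨?_, ?_⟩⟩)
  · rw [le_div_iff₀ ha]
    exact_mod_cast h.1
  · rw [div_lt_iff₀ ha]
    exact_mod_cast h.2

omit [DecidableEq ι] in
theorem exists_comb {κ : Type} [Fintype κ] (u : ι → κ → ℝ) (S : Finset ι) {ε : ℝ} (hε : 0 < ε)
    (h : ∀ h : κ → ℝ, ‖h‖ = 1 → ∃ i ∈ S, ε < |u i ⬝ᵥ h|) (v : κ → ℝ) :
    ∃ d : ι → ℝ, (∀ i ∈ S, |d i| ≤ Fintype.card κ * ‖v‖ / ε) ∧ ∑ i ∈ S, d i • u i = v := by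
  have h1 : ∀ h : κ → ℝ, (ε * ‖h‖) ^ 2 ≤ ∑ i ∈ S, (u i ⬝ᵥ h) ^ 2 := by
    intro w
    rcases eq_or_ne w 0 with rfl | hw
    · simp
    have hw0 := norm_pos_iff.2 hw
    obtain ⟨i, hi, h2⟩ := h (‖w‖⁻¹ • w) (by rw [norm_smul, norm_inv, norm_norm, inv_mul_cancel₀ hw0.ne'])
    rw [dotProduct_smul, smul_eq_mul, abs_mul, abs_of_pos (inv_pos.2 hw0), lt_inv_mul_iff₀ hw0]
      at h2
    refine le_trans ?_ (single_le_sum (f := fun i => (u i ⬝ᵥ w) ^ 2) (fun _ _ => sq_nonneg _) hi)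
    rw [← sq_abs (u i ⬝ᵥ w), mul_comm]
    gcongr
  let L : (κ → ℝ) →ₗ[ℝ] (κ → ℝ) :=
    { toFun := fun h => ∑ i ∈ S, (u i ⬝ᵥ h) • u i
      map_add' := fun a b => by simp only [dotProduct_add, add_smul, sum_add_distrib]
      map_smul' := fun a b => by
        simp only [dotProduct_smul, smul_eq_mul, mul_smul, RingHom.id_apply, smul_sum] }
  have h2 : ∀ h, L h ⬝ᵥ h = ∑ i ∈ S, (u i ⬝ᵥ h) ^ 2 := by
    intro h
    show (∑ i ∈ S, (u i ⬝ᵥ h) • u i) ⬝ᵥ h = _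
    rw [sum_dotProduct]
    exact sum_congr rfl fun i _ => by rw [smul_dotProduct, smul_eq_mul, sq]
  have hinj : Function.Injective L := by
    rw [injective_iff_map_eq_zero]
    intro w hw
    have h3 := h1 w
    rw [← h2, hw, zero_dotProduct] at h3
    have h4 : ε * ‖w‖ = 0 := pow_eq_zero_iff two_ne_zero |>.1 (le_antisymm h3 (sq_nonneg _))
    exact norm_eq_zero.1 ((mul_eq_zero.1 h4).resolve_left hε.ne')
  obtain ⟨w, hw⟩ := LinearMap.injective_iff_surjective.1 hinj v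
  refine ⟨fun i => u i ⬝ᵥ w, fun i hi => ?_, hw⟩
  have h3 : v ⬝ᵥ w ≤ Fintype.card κ * ‖v‖ * ‖w‖ := by
    calc v ⬝ᵥ w ≤ ∑ _l : κ, ‖v‖ * ‖w‖ := sum_le_sum fun l _ => by
          refine (le_abs_self _).trans ?_
          rw [abs_mul]
          exact mul_le_mul (norm_le_pi_norm v l) (norm_le_pi_norm w l) (abs_nonneg _)
            (norm_nonneg _)
      _ = _ := by simp [mul_assoc]
  have h4 := h1 w
  have h5 := single_le_sum (f := fun i => (u i ⬝ᵥ w) ^ 2) (fun _ _ => sq_nonneg _) hi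
  rw [← h2, hw] at h4 h5
  set c : ℝ := Fintype.card κ * ‖v‖
  have hc : 0 ≤ c := by positivity
  have h6 : ε ^ 2 * ‖w‖ ≤ c := by
    rcases (norm_nonneg w).eq_or_lt with h7 | h7
    · rw [← h7, mul_zero]
      exact hc
    · refine le_of_mul_le_mul_right ?_ h7
      nlinarith
  refine abs_le_of_sq_le_sq' ?_ (by positivity) |> abs_le.2
  rw [div_pow, le_div_iff₀ (by positivity)]
  have h8 : (u i ⬝ᵥ w) ^ 2 * ε ^ 2 ≤ c * ‖w‖ * ε ^ 2 := by gcongr; exact h5.trans h3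
  nlinarith

end Pool.Agent.Lib.MP_3b7f8d_lc.FP
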