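import Mathlib
import Pool.Agent.Lib.MP_3b7f8d_lc.Events
import Pool.Agent.Lib.MP_3b7f8d_lc.FP.Count

/-! One row operation makes all multipliers large. -/

namespace Pool.Agent.Lib.MP_3b7f8d_lc.FP

open Finset

variable {n : ℕ} {ι : Type} [DecidableEq ι]

/-- Total size of the rows. -/
noncomputable def al [Fintype ι] (r : ι → Row n) : ℝ := 1 + ∑ i, ‖r i‖

/-- `c` is a small row operation that fixes the right-hand side and the columns in `W`. -/
def Cor (η τ δ : ℝ) (r : ι → Row n) (B : Finset ι) (j : ι) (S : Finset ι) (W : Finset (Fin n))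
    (c : ι → ℝ) : Prop :=
  (∀ i ∈ B.erase j, |c i| ≤ η) ∧ (∀ i ∈ B.erase j \ S, τ ≤ c i * (1 + ‖r i‖)) ∧
    ‖∑ i ∈ B.erase j, c i • (r i).1‖ ≤ δ ∧ ∑ i ∈ B.erase j, c i * (r i).2 = 0 ∧
    ∀ l ∈ W, (∑ i ∈ B.erase j, c i • (r i).1) l = 0

omit [DecidableEq ι] in
theorem li_of_mult {r : ι → Row n} {B : Finset ι}
    (h : ∀ y : ι → ℝ, ∑ i ∈ B, y i • (r i).1 = 0 → ∀ i ∈ B, y i = 0) :
    LinearIndependent ℝ fun i : B => (r i).1 := by
  classical
  refine Fintype.linearIndependent_iff.2 fun g hg i => ?_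
  have := h (fun i => if h : i ∈ B then g ⟨i, h⟩ else 0) (by
    rw [← hg, ← sum_coe_sort B]
    exact sum_congr rfl fun i _ => by simp) i i.2
  simpa using this

omit [DecidableEq ι] in
theorem one_le_al [Fintype ι] (r : ι → Row n) : 1 ≤ al r :=
  le_add_of_nonneg_right (sum_nonneg fun _ _ => norm_nonneg _)

omit [DecidableEq ι] in
theorem le_al [Fintype ι] (r : ι → Row n) (B : Finset ι) : 1 + ∑ i ∈ B, ‖r i‖ ≤ al r :=
  add_le_add_right (sum_le_sum_of_subset_of_nonneg (subset_univ _) fun _ _ _ => norm_nonneg _) _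

omit [DecidableEq ι] in
theorem one_le_mult [Fintype ι] {r : ι → Row n} {B : Finset ι} {p q : Fin n → ℝ} {t Y : ℝ}
    {y : ι → ℝ} (hp : p ⬝ᵥ p = 1) (hpq : q ⬝ᵥ p = 0) (hp1 : ‖p‖ ≤ 1) (hY : 0 ≤ Y)
    (h0 : ∀ i ∈ B, 0 ≤ y i ∧ y i ≤ Y) (hw : p + t • q = ∑ i ∈ B, y i • (r i).1) :
    1 ≤ Y * (n * al r) := by
  calc (1 : ℝ) = (p + t • q) ⬝ᵥ p := by rw [add_dotProduct, smul_dotProduct, hp, hpq]; simp
    _ ≤ ∑ i ∈ B, Y * (n * ‖r i‖) := by
      rw [hw, sum_dot]
      refine sum_le_sum fun i hi => ?_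
      have h1 : (r i).1 ⬝ᵥ p ≤ n * ‖r i‖ := by
        rw [dotProduct_comm]
        refine (le_abs_self _).trans ((abs_dot_le hp1).trans ?_)
        gcongr
        exact norm_fst_le _
      calc _ ≤ y i * (n * ‖r i‖) := by gcongr; exact (h0 i hi).1
        _ ≤ _ := by gcongr; exact (h0 i hi).2
    _ ≤ _ := by
      rw [← mul_sum, ← mul_sum]
      gcongr
      linarith [le_al r B]

theorem rowop [Fintype ι] {r : ι → Row n} {S₀ B S : Finset ι} {W : Finset (Fin n)} {j : ι}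
    {p q x : Fin n → ℝ} {θ κ η τ δ : ℝ} {c : ι → ℝ} (hp : p ⬝ᵥ p = 1) (hpq : q ⬝ᵥ p = 0)
    (hp1 : ‖p‖ ≤ 1) (hθ : 0 < θ) (hθ1 : θ ≤ 1) (hτ : 0 < τ) (hτη : τ ≤ η) (hη : η ≤ 1)
    (hκ : 0 ≤ κ) (hj : j ∈ B) (hS : S ⊆ B.erase j) (hx : IsBFS r S₀ B x)
    (hP : Pat 0 θ κ (2 * η) r p q B j S) (hc : Cor η τ δ r B j S W c) {ρ : Row n}
    (hρ : ρ = r j + (-∑ i ∈ B.erase j, c i • (r i).1, 0)) :
    IsBFS (Function.update r j ρ) S₀ B x ∧ Pat (τ * θ / (2 * n) / al (Function.update r j ρ) ^ 2)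
      0 κ η (Function.update r j ρ) p q B j S := by
  set r' := Function.update r j ρ with hr'
  have e : ∀ i, i ≠ j → r' i = r i := fun i hi => Function.update_of_ne hi _ _
  have ej : r' j = r j + (-∑ i ∈ B.erase j, c i • (r i).1, 0) := by
    rw [hr', Function.update_self, hρ]
  have hsum : ∀ y : ι → ℝ, ∑ i ∈ B, (if i = j then y j else y i + c i * y j) • (r' i).1 =
      ∑ i ∈ B, y i • (r i).1 := by
    intro y
    have h1 : ∑ i ∈ B.erase j, (if i = j then y j else y i + c i * y j) • (r' i).1 =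
        ∑ i ∈ B.erase j, (y i • (r i).1 + y j • c i • (r i).1) := sum_congr rfl fun i hi => by
      rw [if_neg (ne_of_mem_erase hi), e i (ne_of_mem_erase hi), add_smul, mul_comm, mul_smul]
    rw [← add_sum_erase _ _ hj, ← add_sum_erase _ _ hj, if_pos rfl, ej, h1, sum_add_distrib,
      ← smul_sum]
    simp only [Prod.fst_add, smul_add, smul_neg]
    abel
  have htight : (r' j).1 ⬝ᵥ x = (r' j).2 := by
    rw [ej, Prod.fst_add, Prod.snd_add, add_dotProduct, hx.2.2.2.1 j hj, neg_dotProduct, sum_dot,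
      sum_congr rfl fun i hi => by rw [hx.2.2.2.1 i (mem_of_mem_erase hi)], hc.2.2.2.1, neg_zero]
  refine ⟨⟨hx.1, hx.2.1, li_of_mult fun y hy => ?_, fun i hi => ?_, fun i hi => ?_⟩, ?_⟩
  · have h1 := hsum fun i => if i = j then y j else y i - c i * y j
    rw [sum_congr rfl (g := fun i => y i • (r' i).1) fun i _ => by
      by_cases h : i = j <;> simp [h], hy] at h1
    have h2 := mult_unique hx.2.2.1 (y' := fun _ => 0) (h1.symm.trans (by simp))
    have h3 : y j = 0 := by simpa using h2 j hj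
    intro i hi
    by_cases h : i = j
    · rw [h, h3]
    · simpa [h, h3] using h2 i hi
  · by_cases h : i = j
    · rw [h, htight]
    · rw [e i h, hx.2.2.2.1 i hi]
  · by_cases h : i = j
    · rw [h, htight]
    · rw [e i h]
      exact hx.2.2.2.2 i hi
  obtain ⟨t, y, ht, h0, hw, h1, h2, h3⟩ := hP
  have hyj := h0 j hj
  have ha := one_le_al r'
  set y' : ι → ℝ := fun i => if i = j then y j else y i + c i * y j with hy'
  have ey : ∀ i ∈ B.erase j, y' i = y i + c i * y j := fun i hi => if_neg (ne_of_mem_erase hi)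
  have eyj : y' j = y j := if_pos rfl
  have hS' : ∀ i ∈ S, (κ + η) * y j ≤ y' i := by
    intro i hi
    rw [ey i (hS hi)]
    nlinarith [h2 i hi, (abs_le.1 (hc.1 i (hS hi))).1]
  have hlow : ∀ i ∈ B, τ * y j / al r' ≤ y' i := by
    intro i hi
    have h5 : τ * y j / al r' ≤ η * y j := (div_le_self (by positivity) ha).trans (by gcongr)
    by_cases h : i = j
    · rw [h, eyj]
      nlinarith
    by_cases hi' : i ∈ S
    · nlinarith [hS' i hi', mul_nonneg hκ hyj]
    have hi2 := mem_erase.2 ⟨h, hi⟩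
    have h6 := hc.2.1 i (mem_sdiff.2 ⟨hi2, hi'⟩)
    have h7 : 1 + ‖r i‖ ≤ al r' := by simpa [e i h] using le_al r' {i}
    have h8 : 0 < c i := pos_of_mul_pos_left (hτ.trans_le h6) (by positivity)
    rw [ey i hi2, div_le_iff₀ (by positivity)]
    have h9 : τ ≤ c i * al r' := h6.trans (by gcongr)
    nlinarith [mul_nonneg (h0 i hi) (zero_le_one.trans ha), mul_le_mul_of_nonneg_right h9 hyj]
  have hw' : p + t • q = ∑ i ∈ B, y' i • (r' i).1 := hw.trans (hsum y).symm
  have hn : (0 : ℝ) < n := by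
    have := card_pos.2 ⟨j, hj⟩
    rw [hx.2.1] at this
    exact_mod_cast this
  have h4 := one_le_mult (Y := 2 * y j / θ) hp hpq hp1 (by positivity) (fun i hi =>
    ⟨le_trans (by positivity) (hlow i hi), ?_⟩) hw'
  · refine ⟨t, y', ht, fun i hi => le_trans ?_ (hlow i hi), hw', fun i _ => ?_, ?_, fun i hi => ?_⟩
    · rw [div_mul_eq_mul_div, one_le_div hθ] at h4
      rw [div_div, div_le_div_iff₀ (by positivity) (by positivity)]
      calc τ * θ * al r' ≤ τ * (2 * y j * (n * al r')) * al r' := by gcongr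
        _ = _ := by ring
    · rw [zero_mul, eyj]
      exact hyj
    · rw [eyj]
      exact hS'
    · have hi2 := (mem_sdiff.1 hi).1
      rw [eyj, ey i hi2]
      nlinarith [h3 i hi, (abs_le.1 (hc.1 i hi2)).2]
  · rw [le_div_iff₀ hθ]
    by_cases h : i = j
    · rw [h, eyj]
      nlinarith
    · have hi2 := mem_erase.2 ⟨h, hi⟩
      have h5 : c i * θ ≤ 1 := by nlinarith [(abs_le.1 (hc.1 i hi2)).2]
      rw [ey i hi2]
      nlinarith [h1 i hi, mul_le_mul_of_nonneg_right h5 hyj]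

end Pool.Agent.Lib.MP_3b7f8d_lc.FP
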