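import Mathlib
import Pool.Agent.Lib.MP_3b7f8d_lc.FP.RowOp

/-! A typical basis admits a row operation. -/

namespace Pool.Agent.Lib.MP_3b7f8d_lc.FP

open Finset

variable {n : ℕ} {ι : Type} [DecidableEq ι]

/-- Row `i` is close to the span of `p`, `q` and the rows of `B` outside `Z`. -/
def Near (ε : ℝ) (r : ι → Row n) (p q : Fin n → ℝ) (B : Finset ι) (i : ι) (Z : Finset ι) : Prop :=
  ∃ c : ι → ℝ, ∃ α β : ℝ,
    ‖(r i).1 - (α • p + β • q + ∑ k ∈ B.erase i \ Z, c k • (r k).1)‖ ≤ ε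

/-- Restriction of a row to the columns `W` and the right-hand side. -/
def res (W : Finset (Fin n)) (ρ : Row n) : Option W → ℝ := fun o => o.elim ρ.2 fun l => ρ.1 l

/-- A moderate row. -/
def Mod (U : ℝ) (ρ : Row n) : Prop := ‖ρ‖ ≤ U ∧ 1 / U ≤ |ρ.2|

/-- The moderate rows `S`, restricted to `W`, have an approximate common kernel. -/
def Ker (ε U : ℝ) (r : ι → Row n) (S : Finset ι) (W : Finset (Fin n)) : Prop :=
  ∃ h : Option W → ℝ, ‖h‖ = 1 ∧ ∀ i ∈ S, Mod U (r i) ∧ |res W (r i) ⬝ᵥ h| ≤ ε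

theorem norm_res_le (W : Finset (Fin n)) (ρ : Row n) : ‖res W ρ‖ ≤ ‖ρ‖ := by
  refine (pi_norm_le_iff_of_nonneg (norm_nonneg _)).2 fun o => ?_
  rcases o with _ | l
  · exact norm_snd_le ρ
  · exact (norm_le_pi_norm ρ.1 l).trans (norm_fst_le ρ)

theorem exists_cor {r : ι → Row n} {B S S' : Finset ι} {W : Finset (Fin n)} {j : ι}
    {η τ δ ε U : ℝ} (hB : B.card = n) (hS' : S' ⊆ S) (hS : S ⊆ B.erase j) (hτ : 0 < τ)
    (hτη : τ ≤ η) (hε : 0 < ε) (hU : 0 ≤ U) (h1 : (n + 1) * (n * τ) / ε ≤ η)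
    (h2 : n * τ + n * ((n + 1) * (n * τ) / ε * U) ≤ δ) (hM : ∀ i ∈ S', Mod U (r i))
    (hK : ¬ Ker ε U r S' W) : ∃ c, Cor η τ δ r B j S W c := by
  have hc : ∀ T ⊆ B.erase j, T.card ≤ n := fun T hT =>
    hB ▸ card_le_card (hT.trans (erase_subset _ _))
  set v : Row n := ∑ i ∈ B.erase j \ S', (τ / (1 + ‖r i‖)) • r i with hv
  have hv1 : ‖v‖ ≤ n * τ := by
    refine (norm_sum_le _ _).trans ((sum_le_card_nsmul _ _ τ fun i _ => ?_).trans ?_)
    · rw [norm_smul, Real.norm_of_nonneg (by positivity), div_mul_eq_mul_div,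
        div_le_iff₀ (by positivity)]
      nlinarith
    · rw [nsmul_eq_mul]
      gcongr
      exact hc _ sdiff_subset
  obtain ⟨d, hd, hd'⟩ := exists_comb (fun i => res W (r i)) S' hε (fun h hh => by
    by_contra h3
    push Not at h3
    exact hK ⟨h, hh, fun i hi => ⟨hM i hi, h3 i hi⟩⟩) (-res W v)
  have hd1 : ∀ i ∈ S', |d i| ≤ (n + 1) * (n * τ) / ε := fun i hi => (hd i hi).trans (by
    have h3 : W.card ≤ n := by simpa using card_le_univ W
    rw [norm_neg, Fintype.card_option, Fintype.card_coe]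
    push_cast
    gcongr
    exact (norm_res_le W v).trans hv1)
  set c : ι → ℝ := fun i => if i ∈ S' then d i else τ / (1 + ‖r i‖) with hcd
  set u : Row n := ∑ i ∈ B.erase j, c i • r i with hu
  have hu1 : u = v + ∑ i ∈ S', d i • r i := by
    rw [hu, ← sum_sdiff (hS'.trans hS)]
    congr 1
    · exact sum_congr rfl fun i hi => by rw [hcd]; simp only [if_neg (mem_sdiff.1 hi).2]
    · exact sum_congr rfl fun i hi => by rw [hcd]; simp only [if_pos hi]
  have e1 : ∑ i ∈ B.erase j, c i • (r i).1 = u.1 := by simp [hu, Prod.fst_sum]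
  have e2 : ∑ i ∈ B.erase j, c i * (r i).2 = u.2 := by simp [hu, Prod.snd_sum]
  refine ⟨c, fun i _ => ?_, fun i hi => ?_, ?_, ?_, fun l hl => ?_⟩
  · rw [hcd]
    simp only
    split_ifs with h
    · exact (hd1 i h).trans h1
    · rw [abs_of_pos (by positivity)]
      exact (div_le_self hτ.le (by linarith [norm_nonneg (r i)])).trans hτη
  · rw [hcd]
    simp only [if_neg fun h => (mem_sdiff.1 hi).2 (hS' h)]
    rw [div_mul_cancel₀ _ (by positivity)]
  · rw [e1, hu1]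
    refine (norm_fst_le _).trans ((norm_add_le _ _).trans (le_trans (add_le_add hv1 ?_) h2))
    refine (norm_sum_le _ _).trans ((sum_le_card_nsmul _ _ ((n + 1) * (n * τ) / ε * U)
      fun i hi => ?_).trans ?_)
    · rw [norm_smul]
      exact mul_le_mul (hd1 i hi) (hM i hi).1 (norm_nonneg _) (by positivity)
    · rw [nsmul_eq_mul]
      gcongr
      exact hc _ (hS'.trans hS)
  · have h3 := congrFun hd' none
    simp only [res, Finset.sum_apply, Pi.smul_apply, Option.elim_none, Pi.neg_apply] at h3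
    rw [e2, hu1, Prod.snd_add, Prod.snd_sum (s := S')]
    simp only [Prod.smul_snd, h3, add_neg_cancel]
  · have h3 := congrFun hd' (some ⟨l, hl⟩)
    simp only [res, Finset.sum_apply, Pi.smul_apply, Option.elim_some, Pi.neg_apply] at h3
    rw [e1, hu1, Prod.fst_add, Prod.fst_sum (s := S')]
    simp only [Pi.add_apply, Finset.sum_apply, Prod.smul_fst, Pi.smul_apply, h3, add_neg_cancel]

theorem typical [Fintype ι] {r : ι → Row n} {B Γ : Finset ι} {p q : Fin n → ℝ} {θ U : ℝ} {b k : ℕ}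
    (hp : p ⬝ᵥ p = 1) (hpq : q ⬝ᵥ p = 0) (hp1 : ‖p‖ ≤ 1) (hθ : 0 < θ) (hθ1 : θ ≤ 1) (hU : 0 ≤ U)
    (hB : B.card = n) (hseg : Seg 0 r p q B) (hΓ : Γ ⊆ B) (hb : n ≤ Γ.card + b)
    (hk : k + 2 * b + 2 ≤ n) (hM : ∀ i ∈ Γ, ‖r i‖ ≤ U)
    (hN : ∀ i ∈ B, ∀ Z ⊆ B.erase i, Z.card = b + 2 → ¬ Near (n * (θ * U)) r p q B i Z) :
    ∃ j ∈ Γ, ∃ s < n, ∃ S ⊆ B.erase j, ∃ S' ⊆ S ∩ Γ, S'.card = k ∧
      Pat 0 θ ((s + 1 / 2) * (θ / n)) (2 * (θ / (4 * n))) r p q B j S := by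
  obtain ⟨t, y, ht, h0, hw⟩ := hseg
  obtain ⟨i₀, hi₀, hmax⟩ := exists_max_image B y (card_pos.1 (by omega))
  have hY : 0 < y i₀ := by
    have h1 := one_le_mult hp hpq hp1 (h0 i₀ hi₀) (fun i hi => ⟨h0 i hi, hmax i hi⟩) hw
    refine (h0 i₀ hi₀).lt_of_ne fun h => ?_
    rw [← h] at h1
    norm_num at h1
  set L := Γ.filter fun i => θ * y i₀ ≤ y i with hL
  set M := (Γ.erase i₀).filter fun i => y i < θ * y i₀ with hM'
  have hM1 : M.card ≤ b + 1 := by
    by_contra h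
    obtain ⟨Z, hZ, hZc⟩ := exists_subset_card_eq (s := M) (n := b + 2) (by omega)
    have hZ' : Z ⊆ B.erase i₀ := hZ.trans ((filter_subset _ _).trans (erase_subset_erase _ hΓ))
    refine hN i₀ hi₀ Z hZ' hZc ⟨fun k => -(y i₀)⁻¹ * y k, (y i₀)⁻¹, (y i₀)⁻¹ * t, ?_⟩
    have h1 : (r i₀).1 - ((y i₀)⁻¹ • p + ((y i₀)⁻¹ * t) • q +
        ∑ k ∈ B.erase i₀ \ Z, (-(y i₀)⁻¹ * y k) • (r k).1) =
        -(y i₀)⁻¹ • ∑ k ∈ Z, y k • (r k).1 := by
      simp only [mul_smul]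
      rw [← smul_sum, ← smul_add, hw, ← add_sum_erase _ _ hi₀, ← sum_sdiff hZ', smul_add,
        inv_smul_smul₀ hY.ne']
      module
    rw [h1, norm_smul, norm_neg, Real.norm_of_nonneg (by positivity), inv_mul_le_iff₀ hY]
    refine (norm_sum_le _ _).trans ((sum_le_card_nsmul _ _ (θ * y i₀ * U) fun i hi => ?_).trans ?_)
    · obtain ⟨h2, h3⟩ := mem_filter.1 (hZ hi)
      rw [norm_smul, Real.norm_of_nonneg (h0 i (mem_of_mem_erase (hZ' hi)))]
      exact mul_le_mul h3.le ((norm_fst_le _).trans (hM i (mem_of_mem_erase h2))) (norm_nonneg _)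
        (by positivity)
    · have h2 : (Z.card : ℝ) ≤ n := by
        exact_mod_cast hB ▸ card_le_card (hZ'.trans (erase_subset _ _))
      rw [nsmul_eq_mul]
      calc _ ≤ n * (θ * y i₀ * U) := by gcongr
        _ = _ := by ring
  have hL1 : Γ.card ≤ L.card + M.card := by
    refine le_trans (card_le_card fun i hi => ?_) (card_union_le _ _)
    by_cases h : θ * y i₀ ≤ y i
    · exact mem_union_left _ (mem_filter.2 ⟨hi, h⟩)
    · refine mem_union_right _ (mem_filter.2 ⟨mem_erase.2 ⟨?_, hi⟩, not_le.1 h⟩)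
      rintro rfl
      exact h (by nlinarith)
  obtain ⟨j, hj⟩ : L.Nonempty := card_pos.1 (by omega)
  obtain ⟨S', hS', hk'⟩ := exists_subset_card_eq (s := L.erase j) (n := k)
    (by have := card_erase_add_one hj; omega)
  obtain ⟨hjΓ, hj1⟩ := mem_filter.1 hj
  have hyj : 0 < y j := lt_of_lt_of_le (by positivity) hj1
  have hn : (0 : ℝ) < n := by exact_mod_cast (by omega : 0 < n)
  obtain ⟨s, hs, hwin⟩ := exists_window (n := n) (B.erase j)
    (by have := card_erase_add_one (hΓ hjΓ); omega) (fun i => y i / y j) (a := θ / n)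
    (by positivity)
  have e1 : (s + 1 / 2) * (θ / n) + 2 * (θ / (4 * n)) = (s + 1) * (θ / n) := by ring
  have e2 : (s + 1 / 2) * (θ / n) - 2 * (θ / (4 * n)) = s * (θ / n) := by ring
  refine ⟨j, hjΓ, s, hs, (B.erase j).filter fun i => (s + 1) * (θ / n) * y j ≤ y i,
    filter_subset _ _, S', fun i hi => ?_, hk', t, y, ht, h0, hw, fun i hi => ?_,
    fun i hi => ?_, fun i hi => ?_⟩
  · obtain ⟨h1, h2⟩ := mem_erase.1 (hS' hi)
    obtain ⟨h2, h3⟩ := mem_filter.1 h2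
    refine mem_inter.2 ⟨mem_filter.2 ⟨mem_erase.2 ⟨h1, hΓ h2⟩, le_trans ?_ h3⟩, h2⟩
    have h4 : (s + 1 : ℝ) ≤ n := by exact_mod_cast hs
    have h5 : (s + 1) * (θ / n) ≤ θ := by
      rw [← mul_div_assoc, div_le_iff₀ hn]
      nlinarith
    exact mul_le_mul h5 (hmax j (hΓ hjΓ)) hyj.le hθ.le
  · exact le_trans (by gcongr; exact hmax i hi) hj1
  · rw [e1]
    exact (mem_filter.1 hi).2
  · obtain ⟨h1, h2⟩ := mem_sdiff.1 hi
    rw [e2]
    rcases hwin i h1 with h | h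
    · exact ((div_lt_iff₀ hyj).1 h).le
    · exact absurd (mem_filter.2 ⟨h1, (le_div_iff₀ hyj).1 h⟩) h2

end Pool.Agent.Lib.MP_3b7f8d_lc.FP
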