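import Mathlib
import Pool.Agent.Lib.MP_3b7f8d_lc.FP.Typ
import Pool.Agent.Lib.MP_3b7f8d_lc.FP.Rows

/-! Probability bounds for the events attached to one basis. -/

namespace Pool.Agent.Lib.MP_3b7f8d_lc.FP

open Finset MeasureTheory
open scoped ENNReal

variable {n m : ℕ}

theorem continuous_al : Continuous (al : (Fin m → Row n) → ℝ) := by
  unfold al
  fun_prop

theorem continuous_mu (c : ℝ) : Continuous fun r : Fin m → Row n => c / al r ^ 2 :=
  continuous_const.div (continuous_al.pow 2) fun r => by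
    have := one_le_al r
    positivity

theorem meas_prim (S B : Finset (Fin m)) :
    MeasurableSet {r : Fin m → Row n | ∃ x, IsBFS r S B x} := by
  simpa using measurableSet_bfs continuous_id S B (C := fun _ _ => True) isClosed_univ

theorem meas_seg {μ : (Fin m → Row n) → ℝ} (hμ : Continuous μ) (p q : Fin n → ℝ)
    (B : Finset (Fin m)) : MeasurableSet {r | Seg (μ r) r p q B} := by
  have h := measurableSet_exists (X := Fin m → Row n) (Y := ℝ × (Fin m → ℝ))
    (C := fun r u => |u.1| ≤ 1 ∧ (∀ i ∈ B, μ r ≤ u.2 i) ∧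
      p + u.1 • q = ∑ i ∈ B, u.2 i • (r i).1) (by
      refine IsClosed.and ?_ (IsClosed.and (isClosed_ball fun i => ?_) ?_)
      · exact isClosed_le (by fun_prop) (by fun_prop)
      · exact isClosed_le (by fun_prop) (by fun_prop)
      · exact isClosed_eq (by fun_prop) (by fun_prop))
  simpa only [Prod.exists, Seg] using h

theorem meas_on {μ : (Fin m → Row n) → ℝ} (hμ : Continuous μ) (p q : Fin n → ℝ)
    (S B : Finset (Fin m)) : MeasurableSet {r | On (μ r) r p q S B} :=
  (meas_prim S B).inter (meas_seg hμ p q B)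

theorem meas_bad (g : ℝ) (p q : Fin n → ℝ) (S B : Finset (Fin m)) (k : Fin m) :
    MeasurableSet {r | Bad g r p q S B k} :=
  (measurableSet_bfs continuous_id S B (C := fun r x => (r k).2 - (r k).1 ⬝ᵥ x ≤ g * ‖x‖)
    (isClosed_le (by fun_prop) (by fun_prop))).inter (meas_seg continuous_const p q B)

theorem meas_pat {μ : (Fin m → Row n) → ℝ} (hμ : Continuous μ) (θ κ η : ℝ) (p q : Fin n → ℝ)
    (B : Finset (Fin m)) (j : Fin m) (S : Finset (Fin m)) :
    MeasurableSet {r | Pat (μ r) θ κ η r p q B j S} := by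
  have h := measurableSet_exists (X := Fin m → Row n) (Y := ℝ × (Fin m → ℝ))
    (C := fun r u => |u.1| ≤ 1 ∧ (∀ i ∈ B, μ r ≤ u.2 i) ∧
      p + u.1 • q = ∑ i ∈ B, u.2 i • (r i).1 ∧ (∀ i ∈ B, θ * u.2 i ≤ u.2 j) ∧
      (∀ i ∈ S, (κ + η) * u.2 j ≤ u.2 i) ∧ ∀ i ∈ B.erase j \ S, u.2 i ≤ (κ - η) * u.2 j) (by
      refine IsClosed.and ?_ (IsClosed.and (isClosed_ball fun i => ?_) (IsClosed.and ?_
        (IsClosed.and (isClosed_ball fun i => ?_) (IsClosed.and (isClosed_ball fun i => ?_)
        (isClosed_ball fun i => ?_)))))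
      · exact isClosed_le (by fun_prop) (by fun_prop)
      · exact isClosed_le (by fun_prop) (by fun_prop)
      · exact isClosed_eq (by fun_prop) (by fun_prop)
      all_goals exact isClosed_le (by fun_prop) (by fun_prop))
  simpa only [Prod.exists, Pat] using h

theorem meas_cor (η τ δ : ℝ) (B : Finset (Fin m)) (j : Fin m) (S : Finset (Fin m))
    (W : Finset (Fin n)) : MeasurableSet {r : Fin m → Row n | ∃ c, Cor η τ δ r B j S W c} := by
  refine measurableSet_exists (IsClosed.and (isClosed_ball fun i => ?_) (IsClosed.and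
    (isClosed_ball fun i => ?_) (IsClosed.and ?_ (IsClosed.and ?_ (isClosed_ball fun i => ?_)))))
  · exact isClosed_le (by fun_prop) (by fun_prop)
  · exact isClosed_le (by fun_prop) (by fun_prop)
  · exact isClosed_le (by fun_prop) (by fun_prop)
  · exact isClosed_eq (by fun_prop) (by fun_prop)
  · exact isClosed_eq (by fun_prop) (by fun_prop)

theorem meas_near (ε : ℝ) (p q : Fin n → ℝ) (B : Finset (Fin m)) (i : Fin m)
    (Z : Finset (Fin m)) : MeasurableSet {r : Fin m → Row n | Near ε r p q B i Z} := by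
  have h := measurableSet_exists (X := Fin m → Row n) (Y := (Fin m → ℝ) × ℝ × ℝ)
    (C := fun r u => ‖(r i).1 - (u.2.1 • p + u.2.2 • q +
      ∑ k ∈ B.erase i \ Z, u.1 k • (r k).1)‖ ≤ ε) (isClosed_le (by fun_prop) (by fun_prop))
  simpa only [Prod.exists, Near] using h

theorem meas_flat (δ : ℝ) (B : Finset (Fin m)) (i : Fin m) :
    MeasurableSet {r : Fin m → Row n | Flat δ r B i} := by
  refine (measurableSet_li continuous_id B).inter (measurableSet_exists ?_)
  refine IsClosed.and ?_ (IsClosed.and (isClosed_ball fun i => ?_) ?_)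
  · exact isClosed_eq (by fun_prop) (by fun_prop)
  · exact isClosed_eq (by fun_prop) (by fun_prop)
  · exact isClosed_le (by fun_prop) (by fun_prop)

theorem pi_forall_le {ι X : Type} [Fintype ι] [MeasurableSpace X] (ν : ι → Measure X)
    [∀ i, IsProbabilityMeasure (ν i)] (J : Finset ι) (A : ι → Set X) {a : ℝ≥0∞}
    (h : ∀ i ∈ J, ν i (A i) ≤ a) : Measure.pi ν {ω | ∀ i ∈ J, ω i ∈ A i} ≤ a ^ J.card := by
  classical
  have h1 : {ω : ι → X | ∀ i ∈ J, ω i ∈ A i} =
      Set.univ.pi fun i => if i ∈ J then A i else Set.univ := by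
    ext ω
    simp only [Set.mem_ofPred_eq, Set.mem_pi, Set.mem_univ, true_imp_iff]
    refine forall_congr' fun i => ?_
    split_ifs with h <;> simp [h]
  rw [h1, Measure.pi_pi, ← prod_const, ← inter_univ J, inter_comm, ← prod_ite_mem]
  refine prod_le_prod' fun i _ => ?_
  simp only [univ_inter]
  split_ifs with hi
  · exact h i hi
  · simp

theorem seg_update {r : Fin m → Row n} {B : Finset (Fin m)} {k : Fin m} {ρ : Row n} (hk : k ∉ B)
    {p q : Fin n → ℝ} : Seg 0 (Function.update r k ρ) p q B ↔ Seg 0 r p q B := by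
  unfold Seg
  refine exists_congr fun t => exists_congr fun y => ?_
  rw [sum_congr rfl fun i hi => by rw [update_rows hk i hi]]

variable {ν : Fin m → Measure (Row n)} [∀ i, IsProbabilityMeasure (ν i)] {U : ℝ}
  (hν : ∀ i, RowOK (ν i) U)
include hν

theorem prob_near {ε : ℝ} (hε : 0 ≤ ε) (p q : Fin n → ℝ) {B Z : Finset (Fin m)} {i : Fin m} {k : ℕ}
    (hB : B.card = n) (hi : i ∈ B) (hZ : Z ⊆ B.erase i) (hk : Z.card = k + 1) :
    Measure.pi ν {r | Near ε r p q B i Z} ≤ ENNReal.ofReal ((U * ε) ^ k) := by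
  classical
  have key := pi_le_of_update ν i (meas_near ε p q B i Z) MeasurableSet.univ
    (b := ENNReal.ofReal ((U * ε) ^ k)) fun r => ?_
  · simpa using key
  simp only [Set.mem_univ, Set.ofPred_true, measure_univ, mul_one, Set.mem_ofPred_eq]
  set T : Finset (Fin n → ℝ) := insert p (insert q ((B.erase i \ Z).image fun l => (r l).1))
  refine le_trans (measure_mono ?_) ((hν i).dist k (Submodule.span ℝ T) ε hε ?_)
  · rintro ρ ⟨c, α, β, h⟩
    rw [Function.update_self] at h
    refine ⟨_, Submodule.add_mem _ (Submodule.add_mem _ (Submodule.smul_mem _ _ ?_)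
      (Submodule.smul_mem _ _ ?_)) (Submodule.sum_mem _ fun l hl => Submodule.smul_mem _ _ ?_), h⟩
    · exact Submodule.subset_span (mem_coe.2 (mem_insert_self _ _))
    · exact Submodule.subset_span (mem_coe.2 (mem_insert_of_mem (mem_insert_self _ _)))
    · rw [Function.update_of_ne (ne_of_mem_erase (mem_sdiff.1 hl).1)]
      exact Submodule.subset_span (mem_coe.2 (mem_insert_of_mem (mem_insert_of_mem
        (mem_image_of_mem _ hl))))
  · have h2 := finrank_span_finset_le_card (R := ℝ) T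
    have h3 : T.card ≤ _ + 1 := card_insert_le _ _
    have h4 := card_insert_le q ((B.erase i \ Z).image fun l => (r l).1)
    have h5 := card_image_le (s := B.erase i \ Z) (f := fun l => (r l).1)
    have h6 := card_erase_add_one hi
    have h7 := card_sdiff_add_card_eq_card hZ
    rw [Set.finrank] at h2
    omega

theorem prob_ker (hU : 1 ≤ U) (hn : (n : ℝ) + 1 ≤ U) {N : ℕ} (hN : 4 * U ^ 3 < N)
    (S : Finset (Fin m)) (W : Finset (Fin n)) :
    Measure.pi ν {r | Ker (U ^ 2 / N) U r S W} ≤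
      (2 * N + 1) ^ (W.card + 1) * ENNReal.ofReal (4 * U ^ 6 / N) ^ S.card := by
  classical
  have hN0 : (0 : ℝ) < N := lt_trans (by positivity) hN
  have hn0 : (0 : ℝ) ≤ n := Nat.cast_nonneg n
  set F := (Fintype.piFinset fun _ : Option W => Finset.Icc (-N : ℤ) N).filter
    fun z => ∃ o, |z o| = (N : ℤ) with hF
  set A : (Option W → ℤ) → Set (Row n) := fun z =>
    {ρ | Mod U ρ ∧ |res W ρ ⬝ᵥ fun o => (z o : ℝ) / N| ≤ 2 * U ^ 2 / N} with hA
  have h1 : {r : Fin m → Row n | Ker (U ^ 2 / N) U r S W} ⊆ ⋃ z ∈ F, {r | ∀ i ∈ S, r i ∈ A z} := by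
    rintro r ⟨h, hh, hr⟩
    have h2 : ∀ o, |h o| ≤ 1 := fun o => (norm_le_pi_norm h o).trans hh.le
    refine Set.mem_iUnion₂.2 ⟨fun o => ⌊N * h o⌋, mem_filter.2 ⟨Fintype.mem_piFinset.2 fun o =>
      mem_Icc.2 ⟨Int.le_floor.2 ?_, Int.floor_le_iff.2 ?_⟩, ?_⟩, fun i hi => ⟨(hr i hi).1, ?_⟩⟩
    · push_cast
      nlinarith [(abs_le.1 (h2 o)).1]
    · push_cast
      nlinarith [(abs_le.1 (h2 o)).2]
    · obtain ⟨o, ho⟩ : ∃ o, 1 ≤ |h o| := by
        by_contra h3
        push Not at h3
        exact ((pi_norm_lt_iff one_pos).2 h3).ne hh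
      refine ⟨o, ?_⟩
      rcases (abs_eq zero_le_one).1 (le_antisymm (h2 o) ho) with h3 | h3
      · simp [h3]
      · have h4 : ⌊(N : ℝ) * h o⌋ = -N := by
          rw [h3, Int.floor_eq_iff]
          push_cast
          constructor <;> linarith
        simp [h4]
    · have h3 : |res W (r i) ⬝ᵥ (h - fun o => (⌊N * h o⌋ : ℝ) / N)| ≤ U ^ 2 / N := by
        calc _ ≤ ∑ o, |res W (r i) o * (h o - (⌊N * h o⌋ : ℝ) / N)| := abs_sum_le_sum_abs _ _
          _ ≤ ∑ _o : Option W, U * (1 / N) := sum_le_sum fun o _ => by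
            rw [abs_mul]
            refine mul_le_mul ((norm_le_pi_norm _ o).trans ((norm_res_le _ _).trans
              (hr i hi).1.1)) ?_ (abs_nonneg _) (by linarith)
            have h4 : h o - (⌊N * h o⌋ : ℝ) / N = Int.fract (N * h o) / N := by
              rw [Int.fract]
              field_simp
            rw [h4, abs_of_nonneg (div_nonneg (Int.fract_nonneg _) hN0.le)]
            gcongr
            exact (Int.fract_lt_one _).le
          _ ≤ U * (U * (1 / N)) := by
            have h4 : (W.card : ℝ) ≤ n := by exact_mod_cast (by simpa using card_le_univ W)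
            rw [sum_const, card_univ, Fintype.card_option, Fintype.card_coe, nsmul_eq_mul]
            push_cast
            gcongr
            linarith
          _ = _ := by ring
      rw [dotProduct_sub] at h3
      have h4 := abs_le.1 (hr i hi).2
      rw [mul_div_assoc]
      exact abs_le.2 ⟨by linarith [(abs_le.1 h3).2, h4.1], by linarith [(abs_le.1 h3).1, h4.2]⟩
  have h2 : ∀ z ∈ F, ∀ i, ν i (A z) ≤ ENNReal.ofReal (4 * U ^ 6 / N) := by
    intro z hz i
    obtain ⟨-, o, ho⟩ := mem_filter.1 hz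
    have ho' : |(z o : ℝ) / N| = 1 := by
      rw [abs_div, abs_of_pos hN0, div_eq_one_iff_eq hN0.ne']
      exact_mod_cast ho
    set h : Fin n → ℝ := fun l => if hl : l ∈ W then (z (some ⟨l, hl⟩) : ℝ) / N else 0 with hh
    have h3 : ∀ ρ : Row n, (res W ρ ⬝ᵥ fun o => (z o : ℝ) / N) =
        ρ.1 ⬝ᵥ h + ρ.2 * (z none / N) := by
      intro ρ
      rw [dotProduct, Fintype.sum_option, add_comm, dotProduct,
        ← sum_subset (subset_univ W) fun l _ hl => by simp [hh, hl], ← sum_coe_sort W]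
      simp [res, hh]
    by_cases h4 : 1 / (2 * U ^ 3) ≤ ‖h‖
    · refine le_trans (measure_mono fun ρ hρ => ?_) (((hν i).slab h (z none / N) (4 * U ^ 5 / N)
        (norm_pos_iff.1 (lt_of_lt_of_le (by positivity) h4)) (by positivity)).trans
        (le_of_eq (by congr 1; ring)))
      refine (h3 ρ ▸ hρ.2).trans ?_
      calc _ = 4 * U ^ 5 / N * (1 / (2 * U ^ 3)) := by field_simp; ring
        _ ≤ _ := by gcongr
    · refine le_of_eq_of_le (measure_mono_null (fun ρ hρ => ?_) measure_empty) zero_le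
      have h5 : 1 / (2 * U ^ 3) ≤ 1 := by
        rw [div_le_one (by positivity)]
        nlinarith [one_le_pow₀ hU (n := 3)]
      rcases o with _ | l
      · have h6 : |h ⬝ᵥ (U⁻¹ • ρ.1)| ≤ U * (1 / (2 * U ^ 3)) := by
          rw [dotProduct_comm]
          refine (abs_dot_le ?_).trans (mul_le_mul (by linarith) (not_le.1 h4).le (norm_nonneg _)
            (by linarith))
          rw [norm_smul, norm_inv, Real.norm_of_nonneg (by linarith),
            inv_mul_le_iff₀ (by linarith), mul_one]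
          exact (norm_fst_le ρ).trans hρ.1.1
        rw [dotProduct_smul, smul_eq_mul, abs_mul, abs_of_pos (by positivity),
          inv_mul_le_iff₀ (by linarith), dotProduct_comm] at h6
        have h7 : |ρ.2 * (z none / N)| ≤ 2 * U ^ 2 / N + U * (U * (1 / (2 * U ^ 3))) := by
          have h8 := abs_sub (ρ.1 ⬝ᵥ h + ρ.2 * (z none / N)) (ρ.1 ⬝ᵥ h)
          rw [add_sub_cancel_left] at h8
          linarith [h3 ρ ▸ hρ.2]
        rw [abs_mul, ho', mul_one] at h7
        have h8 : 2 * U ^ 2 / N < 1 / (2 * U) := by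
          rw [div_lt_div_iff₀ hN0 (by positivity)]
          linarith
        have h9 : U * (U * (1 / (2 * U ^ 3))) = 1 / (2 * U) := by field_simp
        have h10 : 1 / U = 1 / (2 * U) + 1 / (2 * U) := by field_simp; ring
        linarith [hρ.1.2]
      · have h6 := norm_le_pi_norm h l
        simp only [hh, dif_pos l.2, Real.norm_eq_abs, ho'] at h6
        exact h4 (h5.trans h6)
  refine (measure_mono h1).trans ((measure_biUnion_finset_le _ _).trans ((sum_le_card_nsmul _ _ _
    fun z hz => pi_forall_le ν S (fun _ => A z) fun i _ => h2 z hz i).trans ?_))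
  rw [nsmul_eq_mul]
  gcongr
  have h3 := card_filter_le (Fintype.piFinset fun _ : Option W => Finset.Icc (-N : ℤ) N)
    fun z => ∃ o, |z o| = (N : ℤ)
  rw [Fintype.card_piFinset, prod_const, Int.card_Icc, card_univ, Fintype.card_option,
    Fintype.card_coe, show ((N : ℤ) + 1 - -N).toNat = 2 * N + 1 by omega] at h3
  exact_mod_cast h3

theorem prob_bad {p q : Fin n → ℝ} {S B : Finset (Fin m)} {k : Fin m} (hk : k ∉ B) (hS : k ∈ S)
    {g : ℝ} (hg : 0 ≤ g) (hU : 0 ≤ U) : Measure.pi ν {r | Bad g r p q S B k} ≤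
      ENNReal.ofReal (U * g) * Measure.pi ν {r | On 0 r p q (S.erase k) B} := by
  refine pi_le_of_update ν k (meas_bad g p q S B k) (meas_on continuous_const p q _ B) fun r => ?_
  rcases Set.eq_empty_or_nonempty {ρ | Function.update r k ρ ∈ {r | Bad g r p q S B k}} with
    h | ⟨ρ₀, ⟨x, hx, -⟩, hd⟩
  · rw [h]
    simp
  have hx' := isBFS_update_erase hk |>.1 ((isBFS_erase hk hS).1 hx).1
  rw [Set.eq_univ_of_forall (s := {ρ | Function.update r k ρ ∈ {r | On 0 r p q (S.erase k) B}})
    fun ρ => ⟨⟨x, (isBFS_update_erase hk).2 hx'⟩, (seg_update hk).2 ((seg_update hk).1 hd)⟩,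
    measure_univ, mul_one]
  have h1 : {ρ | Function.update r k ρ ∈ {r | Bad g r p q S B k}} ⊆
      {ρ | |ρ.1 ⬝ᵥ (-x) + ρ.2 * 1| ≤ g * ‖-x‖} := by
    rintro ρ ⟨⟨x', h1, h2⟩, -⟩
    have h3 := (isBFS_erase hk hS).1 h1
    obtain rfl := hx'.unique ((isBFS_update_erase hk).1 h3.1)
    simp only [Function.update_self] at h2 h3
    rw [Set.mem_ofPred_eq, dotProduct_neg, norm_neg, abs_of_nonneg (by linarith [h3.2])]
    linarith
  refine (measure_mono h1).trans ?_
  rcases eq_or_ne x 0 with rfl | h0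
  · refine le_trans (le_of_eq ?_) (((hν k).small 0 le_rfl).trans ?_)
    · simp
    · gcongr
  · exact (hν k).slab _ _ _ (neg_ne_zero.2 h0) hg

theorem prob_flat {B : Finset (Fin m)} (hB : B.card = n) (i : Fin m) {δ : ℝ} (hδ : 0 ≤ δ) :
    Measure.pi ν {r | Flat δ r B i} ≤ ENNReal.ofReal (U * δ) := by
  have key := pi_le_of_update ν i (meas_flat δ B i)
    MeasurableSet.univ (b := ENNReal.ofReal (U * δ)) fun r => ?_
  · simpa using key
  simp only [Set.mem_univ, Set.ofPred_true, measure_univ, mul_one, Set.mem_ofPred_eq]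
  rcases Set.eq_empty_or_nonempty {ρ | Flat δ (Function.update r i ρ) B i} with
    h | ⟨ρ₀, hl, h₀, hn, ho, -⟩
  · rw [h]
    simp
  refine le_trans (measure_mono ?_) ((hν i).slab h₀ 0 δ (norm_pos_iff.1 (hn ▸ one_pos)) hδ)
  rintro ρ ⟨-, h, hn', ho', hδ'⟩
  have e : ∀ j ∈ B.erase i, ∀ ρ', Function.update r i ρ' j = r j :=
    fun j hj ρ' => update_rows (notMem_erase _ B) j hj
  have h1 : (ρ₀.1 ⬝ᵥ h) • h₀ = (ρ₀.1 ⬝ᵥ h₀) • h := by
    refine eq_of_dot hB hl fun j hj => ?_
    rw [dotProduct_smul, dotProduct_smul]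
    by_cases hji : j = i
    · rw [hji, Function.update_self, smul_eq_mul, smul_eq_mul, mul_comm]
    · have hj' := mem_erase.2 ⟨hji, hj⟩
      have h2 := ho' j hj'
      rw [e j hj', ← e j hj' ρ₀] at h2
      rw [ho j hj', h2, smul_zero, smul_zero]
  have h2 : ρ₀.1 ⬝ᵥ h₀ ≠ 0 := by
    intro h0
    have : h₀ = 0 := eq_zero_of_dot hB hl fun j hj => by
      by_cases hji : j = i
      · rw [hji, Function.update_self, h0]
      · exact ho j (mem_erase.2 ⟨hji, hj⟩)
    rw [this, norm_zero] at hn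
    exact zero_ne_one hn
  have h3 := congrArg norm h1
  rw [norm_smul, norm_smul, hn, hn', mul_one, mul_one, Real.norm_eq_abs, Real.norm_eq_abs] at h3
  have h4 := congrArg (fun v => |ρ.1 ⬝ᵥ v|) h1
  simp only [dotProduct_smul, smul_eq_mul, abs_mul, h3] at h4
  rw [Function.update_self] at hδ'
  rw [Set.mem_ofPred_eq, mul_zero, add_zero, hn, mul_one]
  rwa [mul_left_cancel₀ (abs_ne_zero.2 h2) h4]

theorem lintegral_al (hU : 1 ≤ U) (hm : (m : ℝ) ≤ U) :
    ∫⁻ r, ENNReal.ofReal (al r) ∂Measure.pi ν ≤ ENNReal.ofReal (2 * U ^ 2) := by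
  have h1 : ∀ r : Fin m → Row n, ENNReal.ofReal (al r) = 1 + ∑ i, ENNReal.ofReal ‖r i‖ := by
    intro r
    rw [al, ENNReal.ofReal_add zero_le_one (by positivity), ENNReal.ofReal_one,
      ENNReal.ofReal_sum_of_nonneg fun i _ => norm_nonneg _]
  simp only [h1]
  rw [lintegral_add_left measurable_const, lintegral_finsetSum _ (by fun_prop)]
  calc _ ≤ 1 + ∑ _i : Fin m, ENNReal.ofReal U := by
        gcongr with i
        · simp
        · exact ((measurePreserving_eval ν i).lintegral_comp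
            (f := fun ρ => ENNReal.ofReal ‖ρ‖) (by fun_prop)).le.trans (hν i).mom
    _ = ENNReal.ofReal (1 + m * U) := by
        rw [ENNReal.ofReal_add zero_le_one (by positivity), ENNReal.ofReal_mul (by positivity),
          ENNReal.ofReal_natCast]
        simp
    _ ≤ _ := ENNReal.ofReal_le_ofReal (by nlinarith)

end Pool.Agent.Lib.MP_3b7f8d_lc.FP
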