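import Mathlib
import Pool.Agent.Lib.MP_3b7f8d_lc.FP.Ev

/-! The expected number of good bases. -/

namespace Pool.Agent.Lib.MP_3b7f8d_lc.FP

open Finset MeasureTheory
open scoped ENNReal

variable {n m : ℕ} {ν : Fin m → Measure (Row n)} [∀ i, IsProbabilityMeasure (ν i)] {U : ℝ}

/-- The exceptional event. -/
def exc (δ K : ℝ) : Set (Fin m → Row n) :=
  (⋃ i, {r | |(r i).2| ≤ δ}) ∪
  (⋃ p : {B : Finset (Fin m) // B.card = n} × Fin m, {r | Flat δ r p.1 p.2}) ∪
  {r | ENNReal.ofReal K ≤ ENNReal.ofReal (al r)}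

theorem meas_exc (δ K : ℝ) : MeasurableSet (exc δ K : Set (Fin m → Row n)) := by
  unfold exc
  refine MeasurableSet.union (MeasurableSet.union (MeasurableSet.iUnion fun q => ?_)
    (MeasurableSet.iUnion fun p => meas_flat _ _ _)) ?_
  · exact (isClosed_le (by fun_prop) (by fun_prop)).measurableSet
  · exact measurableSet_le measurable_const continuous_al.measurable.ennreal_ofReal

theorem prob_exc (hν : ∀ i, RowOK (ν i) U) (hU : 1 ≤ U) (hm : (m : ℝ) ≤ U) :
    ENNReal.ofReal (2 ^ m) * Measure.pi ν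
      (exc (1 / (U ^ 2 * (2 ^ m) ^ 2)) (2 * U ^ 2 * 2 ^ m)) ≤ 3 := by
  set D : ℝ := 2 ^ m with hD
  have hD1 : 1 ≤ D := one_le_pow₀ one_le_two
  refine (mul_le_mul_right ((measure_union_le _ _).trans
    (add_le_add_left (measure_union_le _ _) _)) _).trans ?_
  rw [mul_add, mul_add, show (3 : ℝ≥0∞) = 1 + 1 + 1 by norm_num]
  gcongr
  · refine (mul_le_mul_right ((measure_iUnion_fintype_le _ _).trans (sum_le_sum
      (g := fun _ => ENNReal.ofReal (U * (1 / (U ^ 2 * D ^ 2)))) fun i _ => ?_)) _).trans ?_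
    · refine le_trans (le_of_eq ?_) ((hν i).small _ (by positivity))
      exact (measurePreserving_eval ν i).measure_preimage
        (s := {ρ : Row n | |ρ.2| ≤ 1 / (U ^ 2 * D ^ 2)})
        (isClosed_le (by fun_prop) (by fun_prop)).measurableSet.nullMeasurableSet
    · rw [sum_const, nsmul_eq_mul, ← ENNReal.ofReal_natCast, ← ENNReal.ofReal_mul (by positivity),
        ← ENNReal.ofReal_mul (by positivity), ENNReal.ofReal_le_one, card_univ, Fintype.card_fin]
      calc _ ≤ D ^ 2 * (U * (U * (1 / (U ^ 2 * D ^ 2)))) := by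
            gcongr
            exact le_self_pow₀ hD1 two_ne_zero
        _ = 1 := by field_simp
  · refine (mul_le_mul_right ((measure_iUnion_fintype_le _ _).trans (sum_le_sum
      fun p _ => prob_flat hν p.1.2 p.2 (by positivity))) _).trans ?_
    rw [sum_const, nsmul_eq_mul, ← ENNReal.ofReal_natCast, ← ENNReal.ofReal_mul (by positivity),
      ← ENNReal.ofReal_mul (by positivity), ENNReal.ofReal_le_one]
    have h1 : (Fintype.card {B : Finset (Fin m) // B.card = n} : ℝ) ≤ D := by
      have := Fintype.card_subtype_le fun B : Finset (Fin m) => B.card = n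
      rw [Fintype.card_finset, Fintype.card_fin] at this
      rw [hD]
      exact_mod_cast this
    rw [card_univ, Fintype.card_prod, Fintype.card_fin]
    push_cast
    calc _ ≤ D * (D * U * (U * (1 / (U ^ 2 * D ^ 2)))) := by gcongr
      _ = 1 := by field_simp
  · have h1 := (mul_meas_ge_le_lintegral (μ := Measure.pi ν)
      continuous_al.measurable.ennreal_ofReal (ENNReal.ofReal (2 * U ^ 2 * D))).trans
      (lintegral_al hν hU hm)
    nth_rewrite 1 [ENNReal.ofReal_mul (by positivity)] at h1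
    rw [mul_assoc] at h1
    refine (ENNReal.mul_le_mul_iff_right (a := ENNReal.ofReal (2 * U ^ 2)) ?_
      ENNReal.ofReal_ne_top).1 (by rwa [mul_one])
    exact (ENNReal.ofReal_pos.2 (by positivity)).ne'

/-- The event that `B` is a good basis. -/
def evG (c g : ℝ) (p q : Fin n → ℝ) (S B : Finset (Fin m)) : Set (Fin m → Row n) :=
  {r | On (c / al r ^ 2) r p q S B} \ ⋃ k ∈ S \ B, {r | Bad g r p q S B k}

theorem sum_indicator_eq {α β : Type} [Fintype β] (E : β → Set α) (a : α)
    [DecidablePred fun b => a ∈ E b] : ∑ b, (E b).indicator (1 : α → ℝ≥0∞) a =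
      (univ.filter fun b => a ∈ E b).card := by
  classical
  rw [card_filter]
  push_cast
  exact sum_congr rfl fun B _ => by by_cases h : a ∈ E B <;> simp [h]

theorem sum_good (hν : ∀ i, RowOK (ν i) U) (hU : 1 ≤ U) (hn : (n : ℝ) + 1 ≤ U) (hn0 : 0 < n)
    (hm : (m : ℝ) ≤ U) {p q : Fin n → ℝ} (hq : ‖q‖ ≤ 1) {c g v : ℝ} (hc : 0 < c) (hg : 0 < g)
    (hv : 0 < v) (hv1 : v ≤ 1) (hvv : v ^ 2 ≤ c * g) (S : Finset (Fin m)) :
    ∑ B, Measure.pi ν (evG c g p q S B) ≤ ENNReal.ofReal (123 * U ^ 12 / v) := by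
  classical
  set D : ℝ := 2 ^ m with hD
  have hD0 : 0 < D := by positivity
  set X : Set (Fin m → Row n) := exc (1 / (U ^ 2 * D ^ 2)) (2 * U ^ 2 * D) with hX
  have hXm : MeasurableSet X := meas_exc _ _
  have hG : ∀ B, MeasurableSet (evG c g p q S B) := fun B =>
    (meas_on (continuous_mu c) p q S B).diff
      (Finset.measurableSet_biUnion _ fun k _ => meas_bad _ _ _ _ _ _)
  simp only [← lintegral_indicator_one (hG _)]
  rw [← lintegral_finsetSum _ fun B _ => measurable_one.indicator (hG B)]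
  calc _ ≤ ∫⁻ r, ENNReal.ofReal (60 * U ^ 10 / v) * ENNReal.ofReal (al r) +
        X.indicator (fun _ => ENNReal.ofReal D) r ∂Measure.pi ν := by
        refine lintegral_mono fun r => ?_
        simp only
        rw [sum_indicator_eq, ← ENNReal.ofReal_natCast]
        by_cases hr : r ∈ X
        · rw [Set.indicator_of_mem hr]
          refine le_add_left (ENNReal.ofReal_le_ofReal ?_)
          have := card_le_univ (univ.filter fun B => r ∈ evG c g p q S B)
          rw [Fintype.card_finset, Fintype.card_fin] at this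
          rw [hD]
          exact_mod_cast this
        refine le_add_right ?_
        rw [← ENNReal.ofReal_mul (by positivity)]
        refine ENNReal.ofReal_le_ofReal ?_
        simp only [hX, exc, Set.mem_union, Set.mem_iUnion, not_or, not_exists,
          Set.mem_ofPred_eq, not_le] at hr
        obtain ⟨⟨hb, hf⟩, hK⟩ := hr
        have ha := one_le_al r
        have hK' := ((ENNReal.ofReal_lt_ofReal_iff (by positivity)).1 hK).le
        have hJ : 4 * U ^ 9 * D ^ 6 ≤ 2 ^ (m * 6 + ⌈4 * U ^ 9⌉₊) := by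
          rw [pow_add, pow_mul, ← hD, mul_comm]
          gcongr
          refine (Nat.le_ceil _).trans ?_
          exact_mod_cast Nat.lt_two_pow_self.le
        refine (card_good (S := S) (p := p) (r := r) (μ := c / al r ^ 2) (v := v / al r)
          (ρ₀ := 1 / (U ^ 2 * D ^ 2) / (U * (2 * U ^ 2 * D))) (J := m * 6 + ⌈4 * U ^ 9⌉₊) hq
          (by positivity) hg (by positivity) ?_ (by positivity) (fun B x hx => ⟨?_, ?_⟩) _
          fun B hB => ?_).trans ?_
        · rw [div_pow, div_mul_eq_mul_div]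
          gcongr
        · obtain ⟨i, hi⟩ := card_pos.1 (hx.2.1 ▸ hn0)
          have h1 : ‖(r i).1‖ ≤ 2 * U ^ 2 * D := by
            have h2 := le_al r {i}
            rw [sum_singleton] at h2
            linarith [norm_fst_le (r i)]
          have h2 : |((2 * U ^ 2 * D)⁻¹ • (r i).1) ⬝ᵥ x| ≤ n * ‖x‖ := abs_dot_le (by
            rw [norm_smul, norm_inv, Real.norm_of_nonneg (by positivity),
              inv_mul_le_iff₀ (by positivity), mul_one]
            exact h1)
          rw [smul_dotProduct, smul_eq_mul, abs_mul, abs_of_pos (by positivity),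
            inv_mul_le_iff₀ (by positivity), hx.2.2.2.1 i hi] at h2
          rw [div_le_iff₀ (by positivity)]
          calc _ ≤ 2 * U ^ 2 * D * (n * ‖x‖) := (hb i).le.trans h2
            _ ≤ 2 * U ^ 2 * D * (U * ‖x‖) := by gcongr; linarith
            _ = _ := by ring
        · refine (hx.norm_le (by positivity) fun i _ => hf (⟨B, hx.2.1⟩, i)).trans ?_
          have h1 : ∑ i ∈ B, |(r i).2| ≤ 2 * U ^ 2 * D := by
            have h2 : ∑ i ∈ B, |(r i).2| ≤ ∑ i ∈ B, ‖r i‖ := sum_le_sum fun i _ => norm_snd_le (r i)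
            linarith [le_al r B]
          calc _ ≤ 2 * U ^ 2 * D / (1 / (U ^ 2 * D ^ 2)) := by gcongr
            _ = 4 * U ^ 9 * D ^ 6 * (1 / (U ^ 2 * D ^ 2) / (U * (2 * U ^ 2 * D))) := by
              field_simp
              ring
            _ ≤ _ := by gcongr
        · obtain ⟨h2, h3⟩ := (mem_filter.1 hB).2
          exact ⟨h2, fun k hk h => h3 (Set.mem_iUnion₂.2 ⟨k, hk, h⟩)⟩
        · have h2 : ((m * 6 + ⌈4 * U ^ 9⌉₊ : ℕ) : ℝ) + 1 ≤ 12 * U ^ 9 := by
            have h3 := (Nat.ceil_lt_add_one (a := 4 * U ^ 9) (by positivity)).le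
            have h4 : U ≤ U ^ 9 := le_self_pow₀ hU (by norm_num)
            push_cast
            linarith
          have h3 : 2 * (1 + 2 * n) / (v / al r) + 1 ≤ 5 * U * al r / v := by
            rw [div_div_eq_mul_div, div_add_one hv.ne']
            gcongr
            nlinarith
          calc _ ≤ 12 * U ^ 9 * (5 * U * al r / v) := by gcongr
            _ = _ := by ring
    _ ≤ ENNReal.ofReal (60 * U ^ 10 / v) * ENNReal.ofReal (2 * U ^ 2) + 3 := by
        rw [lintegral_add_right _ (measurable_const.indicator hXm), lintegral_indicator_const hXm,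
          lintegral_const_mul _ continuous_al.measurable.ennreal_ofReal]
        gcongr
        · exact lintegral_al hν hU hm
        · exact prob_exc hν hU hm
    _ ≤ _ := by
        rw [← ENNReal.ofReal_mul (by positivity), ← ENNReal.ofReal_ofNat 3,
          ← ENNReal.ofReal_add (by positivity) (by positivity)]
        refine ENNReal.ofReal_le_ofReal ?_
        have h1 : 1 ≤ U ^ 12 / v := (one_le_div hv).2 (hv1.trans (one_le_pow₀ hU))
        calc _ = 120 * (U ^ 12 / v) + 3 := by ring
          _ ≤ 123 * (U ^ 12 / v) := by linarith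
          _ = _ := by ring

theorem sum_on (hν : ∀ i, RowOK (ν i) U) (hU : 1 ≤ U) (hn : (n : ℝ) + 1 ≤ U) (hn0 : 0 < n)
    (hm : (m : ℝ) ≤ U) {p q : Fin n → ℝ} (hq : ‖q‖ ≤ 1) {c g v : ℝ} (hc : 0 < c) (hg : 0 < g)
    (hv : 0 < v) (hv1 : v ≤ 1) (hvv : v ^ 2 ≤ c * g) (S : Finset (Fin m)) {T : ℝ≥0∞}
    (hT : ∀ k, ∑ B, Measure.pi ν {r | On 0 r p q (S.erase k) B} ≤ T) :
    ∑ B, Measure.pi ν {r | On (c / al r ^ 2) r p q S B} ≤
      ENNReal.ofReal (123 * U ^ 12 / v) + ENNReal.ofReal (U ^ 2 * g) * T := by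
  have h2 : ∀ B, Measure.pi ν {r | On (c / al r ^ 2) r p q S B} ≤ Measure.pi ν (evG c g p q S B) +
      ∑ k ∈ S, ENNReal.ofReal (U * g) * Measure.pi ν {r | On 0 r p q (S.erase k) B} := by
    intro B
    refine (measure_mono (Set.subset_sdiff_union _ (⋃ k ∈ S \ B, {r | Bad g r p q S B k}))).trans
      ((measure_union_le _ _).trans (add_le_add_right ((measure_biUnion_finset_le _ _).trans
        ((sum_le_sum fun k hk => prob_bad hν (mem_sdiff.1 hk).2 (mem_sdiff.1 hk).1 hg.le
          (by linarith)).trans (sum_le_sum_of_subset sdiff_subset))) _))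
  refine (sum_le_sum fun B _ => h2 B).trans ?_
  rw [sum_add_distrib, sum_comm]
  refine add_le_add (sum_good hν hU hn hn0 hm hq hc hg hv hv1 hvv S) ((sum_le_card_nsmul _ _
    (ENNReal.ofReal (U * g) * T) fun k _ => ?_).trans ?_)
  · rw [← mul_sum]
    exact mul_le_mul_right (hT k) _
  · rw [nsmul_eq_mul, ← mul_assoc, ← ENNReal.ofReal_natCast, ← ENNReal.ofReal_mul (by positivity)]
    refine mul_le_mul_left (ENNReal.ofReal_le_ofReal ?_) _
    have h4 : (S.card : ℝ) ≤ m := by exact_mod_cast (by simpa using card_le_univ S)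
    calc _ ≤ U * (U * g) := by gcongr; linarith
      _ = _ := by ring

end Pool.Agent.Lib.MP_3b7f8d_lc.FP
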