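import Mathlib
import Pool.Agent.Lib.MP_3b7f8d_lc.FP.Sum

/-! Labelled rows: the row operation in probability. -/

namespace Pool.Agent.Lib.MP_3b7f8d_lc.FP

open Finset MeasureTheory
open scoped ENNReal

variable {n m : ℕ} {X : Type} [MeasurableSpace X]

theorem prob_update {ι : Type} [DecidableEq ι] {C : ι → Measure X → Prop} {ν : ι → Measure X}
    (h : ∀ i, C i (ν i)) {k : ι} {μ : Measure X} (hk : C k μ) (i : ι) :
    C i (Function.update ν k μ i) := by
  by_cases hi : i = k
  · rwa [hi, Function.update_self]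
  · rw [Function.update_of_ne hi]
    exact h i

theorem pi_le_update {ι : Type} [Fintype ι] [DecidableEq ι] (ν : ι → Measure X)
    [hν : ∀ i, IsProbabilityMeasure (ν i)] (k : ι) (μ : Measure X) [hμ : IsProbabilityMeasure μ]
    {E F : Set (ι → X)} (hE : MeasurableSet E) (hF : MeasurableSet F) {b : ℝ≥0∞}
    (h : ∀ ω : ι → X, ν k {ρ | Function.update ω k ρ ∈ E} ≤ b * μ {ρ | Function.update ω k ρ ∈ F}) :
    Measure.pi ν E ≤ b * Measure.pi (Function.update ν k μ) F := by
  have := prob_update (C := fun _ μ => IsProbabilityMeasure μ) hν hμ (k := k)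
  have h1 : ((Measure.pi ν).prod μ).map (fun p => Function.update p.1 k p.2) =
      Measure.pi (Function.update ν k μ) := by
    refine (Measure.pi_eq fun s hs => ?_).symm
    rw [Measure.map_apply measurable_update' (MeasurableSet.univ_pi hs)]
    have h : (fun p : (ι → X) × X => Function.update p.1 k p.2) ⁻¹' Set.univ.pi s =
        Set.univ.pi (Function.update s k Set.univ) ×ˢ s k := by
      ext ⟨ω, ρ⟩
      simp only [Set.mem_preimage, Set.mem_pi, Set.mem_univ, true_imp_iff, Set.mem_prod]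
      constructor
      · intro h
        refine ⟨fun i => ?_, by simpa using h k⟩
        by_cases hi : i = k
        · simp [hi]
        · simpa [hi] using h i
      · rintro ⟨h1, h2⟩ i
        by_cases hi : i = k
        · simpa [hi] using h2
        · simpa [hi] using h1 i
    rw [h, Measure.prod_prod, Measure.pi_pi, ← prod_erase_mul _ _ (mem_univ k),
      ← prod_erase_mul _ _ (mem_univ k)]
    simp only [Function.update_self, measure_univ, mul_one]
    congr 1
    exact prod_congr rfl fun i hi => by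
      rw [Function.update_of_ne (ne_of_mem_erase hi), Function.update_of_ne (ne_of_mem_erase hi)]
  rw [← h1, Measure.map_apply measurable_update' hF, Measure.prod_apply (measurable_update' hF),
    ← lintegral_const_mul _ (measurable_measure_prodMk_left (measurable_update' hF))]
  nth_rewrite 1 [← map_update ν k]
  rw [Measure.map_apply measurable_update' hE, Measure.prod_apply (measurable_update' hE)]
  exact lintegral_mono h

/-- A good row of law `ν` may be shifted off its label, at the price `U`. -/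
def Shift (row : X → Row n) (lab : X → Finset (Fin n)) (G : Set X) (U : ℝ) (ν ν' : Measure X) :
    Prop :=
  ∀ (W : Finset (Fin n)) (s : Fin n → ℝ), ‖s‖ ≤ 1 / U → (∀ l ∈ W, s l = 0) →
    ∀ A F : Set X, MeasurableSet A → MeasurableSet F → (∀ x ∈ A, x ∈ G ∧ lab x = W ∧
      ∀ x', row x' = row x + (s, 0) → lab x' = W → x' ∈ F) → ν A ≤ ENNReal.ofReal U * ν' F

/-- A family of laws of labelled rows that is closed under shifts. -/
structure Fam (row : X → Row n) (lab : X → Finset (Fin n)) (G : Fin m → Set X)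
    (C : Fin m → Measure X → Prop) (U : ℝ) : Prop where
  mrow : Measurable row
  mlab : ∀ W, MeasurableSet {x | lab x = W}
  mG : ∀ i, MeasurableSet (G i)
  good : ∀ i, ∀ x ∈ G i, Mod U (row x) ∧ (lab x).card ≤ n / 4 + 1
  prob : ∀ i ν, C i ν → IsProbabilityMeasure ν
  ok : ∀ i ν, C i ν → RowOK (ν.map row) U
  bad : ∀ i ν, C i ν → ν (G i)ᶜ ≤ ENNReal.ofReal ((1 / (2 * m)) ^ 8)
  shift : ∀ i ν, C i ν → ∃ ν', C i ν' ∧ Shift row lab (G i) U ν ν'

variable {row : X → Row n} {lab : X → Finset (Fin n)} {G : Fin m → Set X}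
  {C : Fin m → Measure X → Prop} {U : ℝ} {p q : Fin n → ℝ}

/-- The event before the row operation. -/
def evE (row : X → Row n) (lab : X → Finset (Fin n)) (G : Set X) (θ κ η τ δ : ℝ)
    (p q : Fin n → ℝ) (S₀ B : Finset (Fin m)) (j : Fin m) (u : Finset (Fin n) × Finset (Fin m)) :
    Set (Fin m → X) :=
  {ω | (ω j ∈ G ∧ lab (ω j) = u.1) ∧ u.2 ⊆ B.erase j ∧ (∃ x, IsBFS (fun i => row (ω i)) S₀ B x) ∧
    Pat 0 θ κ (2 * η) (fun i => row (ω i)) p q B j u.2 ∧
    ∃ c, Cor η τ δ (fun i => row (ω i)) B j u.2 u.1 c}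

/-- The event after the row operation. -/
def evF (row : X → Row n) (lab : X → Finset (Fin n)) (c κ η : ℝ)
    (p q : Fin n → ℝ) (S₀ B : Finset (Fin m)) (j : Fin m) (u : Finset (Fin n) × Finset (Fin m)) :
    Set (Fin m → X) :=
  {ω | lab (ω j) = u.1 ∧ u.2 ⊆ B.erase j ∧ (∃ x, IsBFS (fun i => row (ω i)) S₀ B x) ∧
    Pat (c / al (fun i => row (ω i)) ^ 2) 0 κ η (fun i => row (ω i)) p q B j u.2}

theorem meas_rows (h : Measurable row) : Measurable fun (ω : Fin m → X) i => row (ω i) :=
  measurable_pi_iff.2 fun i => h.comp (measurable_pi_apply i)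

omit [MeasurableSpace X] in
theorem rows_update (row : X → Row n) (ω : Fin m → X) (j : Fin m) (x : X) :
    (fun i => row (Function.update ω j x i)) = Function.update (fun i => row (ω i)) j (row x) :=
  funext fun i => Function.apply_update (fun _ => row) ω j x i

theorem Fam.measF (h : Fam row lab G C U) (c κ η : ℝ) (S₀ B : Finset (Fin m)) (j : Fin m)
    (u : Finset (Fin n) × Finset (Fin m)) : MeasurableSet (evF row lab c κ η p q S₀ B j u) :=
  (measurable_pi_apply (X := fun _ => X) j (h.mlab u.1)).inter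
    ((MeasurableSet.const (u.2 ⊆ B.erase j)).inter ((meas_rows h.mrow (meas_prim S₀ B)).inter
    (meas_rows h.mrow (meas_pat (continuous_mu c) 0 κ η p q B j u.2))))

theorem Fam.prob_op (h : Fam row lab G C U) {ν : Fin m → Measure X} (hν : ∀ i, C i (ν i))
    {j : Fin m} {μ : Measure X} (hμ : C j μ) (hs : Shift row lab (G j) U (ν j) μ)
    {θ κ η τ : ℝ} (hp : p ⬝ᵥ p = 1) (hpq : q ⬝ᵥ p = 0) (hp1 : ‖p‖ ≤ 1) (hθ : 0 < θ)
    (hθ1 : θ ≤ 1) (hτ : 0 < τ) (hτη : τ ≤ η) (hη : η ≤ 1) (hκ : 0 ≤ κ) {S₀ B : Finset (Fin m)}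
    (hj : j ∈ B) (u : Finset (Fin n) × Finset (Fin m)) :
    Measure.pi ν (evE row lab (G j) θ κ η τ (1 / U) p q S₀ B j u) ≤ ENNReal.ofReal U *
      Measure.pi (Function.update ν j μ) (evF row lab (τ * θ / (2 * n)) κ η p q S₀ B j u) := by
  have := fun i => h.prob i _ (hν i)
  have := h.prob j _ hμ
  have hE : MeasurableSet (evE row lab (G j) θ κ η τ (1 / U) p q S₀ B j u) :=
    (measurable_pi_apply (X := fun _ => X) j ((h.mG j).inter (h.mlab u.1))).inter
      ((MeasurableSet.const (u.2 ⊆ B.erase j)).inter ((meas_rows h.mrow (meas_prim S₀ B)).inter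
      ((meas_rows h.mrow (meas_pat (μ := fun _ => 0) continuous_const θ κ (2 * η) p q B j u.2)).inter
      (meas_rows h.mrow (meas_cor η τ (1 / U) B j u.2 u.1)))))
  have hF := h.measF (p := p) (q := q) (τ * θ / (2 * n)) κ η S₀ B j u
  refine pi_le_update ν j μ hE hF fun ω => ?_
  rcases Set.eq_empty_or_nonempty {ρ | Function.update ω j ρ ∈
    evE row lab (G j) θ κ η τ (1 / U) p q S₀ B j u} with h1 | ⟨x₀, -, -, -, -, c, hc⟩
  · rw [h1]
    simp
  have e : ∀ x, ∀ i ∈ B.erase j, row (Function.update ω j x i) = row (ω i) := fun x i hi => by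
    rw [Function.update_of_ne (ne_of_mem_erase hi)]
  have e1 : ∀ x, ∑ i ∈ B.erase j, c i • (row (Function.update ω j x i)).1 =
      ∑ i ∈ B.erase j, c i • (row (ω i)).1 := fun x => sum_congr rfl fun i hi => by rw [e x i hi]
  have hc' : ∀ x, Cor η τ (1 / U) (fun i => row (Function.update ω j x i)) B j u.2 u.1 c := by
    intro x
    obtain ⟨h1, h2, h3, h4, h5⟩ := hc
    refine ⟨h1, fun i hi => ?_, ?_, ?_, ?_⟩
    · have h6 := h2 i hi
      simp only [e _ i (mem_sdiff.1 hi).1] at h6 ⊢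
      exact h6
    · simpa only [e1] using h3
    · rw [← h4]
      exact sum_congr rfl fun i hi => by simp only [e _ i hi]
    · simpa only [e1] using h5
  refine hs u.1 (-∑ i ∈ B.erase j, c i • (row (ω i)).1) ?_ (fun l hl => ?_) _ _
    (measurable_update ω hE) (measurable_update ω hF) ?_
  · simpa only [e1, norm_neg] using hc.2.2.1
  · have h1 := hc.2.2.2.2 l hl
    simp only [e1] at h1
    rw [Pi.neg_apply, h1, neg_zero]
  rintro x ⟨h1, h2, ⟨y, h3⟩, h4, -⟩
  rw [Function.update_self] at h1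
  refine ⟨h1.1, h1.2, fun x' h5 h6 => ?_⟩
  have h7 := rowop hp hpq hp1 hθ hθ1 hτ hτη hη hκ hj h2 h3 h4 (hc' x) (ρ := row x') (by
    simp only [e1, Function.update_self, h5])
  rw [rows_update, Function.update_idem, ← rows_update] at h7
  exact ⟨by rwa [Function.update_self], h2, ⟨y, h7.1⟩, h7.2⟩

theorem sum_measure_le {α β : Type} [MeasurableSpace α] [Fintype β] (P : Measure α)
    {E : β → Set α} {O : Set α} (hE : ∀ b, MeasurableSet (E b)) (hO : MeasurableSet O) {k : ℕ}
    (h : ∀ a (T : Finset β), (∀ b ∈ T, a ∈ E b) → T.Nonempty → a ∈ O ∧ T.card ≤ k) :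
    ∑ b, P (E b) ≤ k * P O := by
  classical
  simp only [← lintegral_indicator_one (hE _), ← lintegral_indicator_one hO]
  rw [← lintegral_finsetSum _ fun u _ => measurable_one.indicator (hE u),
    ← lintegral_const_mul _ (measurable_one.indicator hO)]
  refine lintegral_mono fun a => ?_
  simp only
  rw [sum_indicator_eq]
  rcases (univ.filter fun b => a ∈ E b).eq_empty_or_nonempty with h1 | h1
  · simp [h1]
  obtain ⟨h2, h3⟩ := h a _ (fun b hb => (mem_filter.1 hb).2) h1
  rwa [Set.indicator_of_mem h2, Pi.one_apply, mul_one, Nat.cast_le]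

theorem Fam.sum_F (h : Fam row lab G C U) (P : Measure (Fin m → X)) {c κ η : ℝ} (hc : 0 < c)
    (hη : 0 < η) {S₀ B : Finset (Fin m)} {j : Fin m} (hj : j ∈ B) :
    ∑ u, P (evF row lab c κ η p q S₀ B j u) ≤ n * P ((fun ω i => row (ω i)) ⁻¹'
      {r | On (c / al r ^ 2) r p q S₀ B}) := by
  refine sum_measure_le P (h.measF c κ η S₀ B j)
    (meas_rows h.mrow (meas_on (continuous_mu c) p q S₀ B)) ?_
  rintro ω T hT ⟨u, hu⟩
  obtain ⟨-, -, ⟨x, hx⟩, t, y, h1, h2, h3, -⟩ := hT u hu
  refine ⟨⟨⟨x, hx⟩, t, y, h1, h2, h3⟩, ?_⟩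
  have h5 : Set.InjOn Prod.snd (T : Set (Finset (Fin n) × Finset (Fin m))) :=
    fun u hu u' hu' h4 => Prod.ext ((hT u hu).1.symm.trans (hT u' hu').1) h4
  rw [← card_image_of_injOn h5]
  have ha := one_le_al fun i => row (ω i)
  refine card_pat (r := fun i => row (ω i)) (p := p) (q := q) (θ := 0) (κ := κ) hx.2.1 hx.2.2.1 hj
    (μ := c / al (fun i => row (ω i)) ^ 2) (by positivity) hη _ fun S hS => ?_
  obtain ⟨u, hu, rfl⟩ := mem_image.1 hS
  exact ⟨(hT u hu).2.1, (hT u hu).2.2.2⟩

end Pool.Agent.Lib.MP_3b7f8d_lc.FP
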