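import Mathlib
import Pool.Agent.Lib.MP_3b7f8d_lc.FP.Step

/-! The expected number of bases on a segment of objectives in a fixed plane. -/

namespace Pool.Agent.Lib.MP_3b7f8d_lc.FP

open Finset MeasureTheory
open scoped ENNReal

variable {n m : ℕ} {X : Type} [MeasurableSpace X] {row : X → Row n} {lab : X → Finset (Fin n)}
  {G : Fin m → Set X} {C : Fin m → Measure X → Prop} {U : ℝ} {p q : Fin n → ℝ}

theorem biUnion_le {α β : Type} [MeasurableSpace α] (P : Measure α) (T : Finset β) {E : β → Set α}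
    {c x : ℝ} (hx : 0 ≤ x) (hc : (T.card : ℝ) ≤ c) (h : ∀ a ∈ T, P (E a) ≤ ENNReal.ofReal x) :
    P (⋃ a ∈ T, E a) ≤ ENNReal.ofReal (c * x) := by
  refine (measure_biUnion_finset_le _ _).trans ((sum_le_card_nsmul _ _ _ h).trans ?_)
  rw [nsmul_eq_mul, ← ENNReal.ofReal_natCast, ← ENNReal.ofReal_mul (by positivity)]
  exact ENNReal.ofReal_le_ofReal (by gcongr)

theorem card_pc {β : Type} {B : Finset β} (hB : B.card ≤ n) (k : ℕ) :
    ((B.powersetCard k).card : ℝ) ≤ 2 ^ n := by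
  rw [card_powersetCard]
  exact_mod_cast (Nat.choose_le_two_pow _ _).trans (Nat.pow_le_pow_right two_pos hB)

/-- The atypical event of a basis. -/
def atyp (row : X → Row n) (G : Fin m → Set X) (U : ℝ) (p q : Fin n → ℝ) (B : Finset (Fin m)) :
    Set (Fin m → X) :=
  (⋃ J ∈ B.powersetCard (n / 8 + 1), {ω | ∀ i ∈ J, ω i ∈ (G i)ᶜ}) ∪ (fun ω i => row (ω i)) ⁻¹'
    ((⋃ i ∈ B, ⋃ Z ∈ (B.erase i).powersetCard (n / 8 + 2),
      {r | Near (n * (1 / U ^ 11 * U)) r p q B i Z}) ∪
    ⋃ S ∈ B.powersetCard ((n / 4 + 2) * 2), ⋃ W ∈ univ.filter fun W : Finset (Fin n) =>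
      W.card ≤ n / 4 + 1, {r | Ker (U ^ 2 / (⌈U ^ 18⌉₊ : ℕ)) U r S W})

theorem Fam.rows_le (h : Fam row lab G C U) {ν : Fin m → Measure X} (hν : ∀ i, C i (ν i))
    (E : Set (Fin m → Row n)) : Measure.pi ν ((fun ω i => row (ω i)) ⁻¹' E) ≤
      Measure.pi (fun i => (ν i).map row) E := by
  have := fun i => h.prob i _ (hν i)
  rw [← Measure.pi_map_pi fun i => h.mrow.aemeasurable]
  exact Measure.le_map_apply (meas_rows h.mrow).aemeasurable E

theorem pow_aux {a c : ℝ} (hc : 1 ≤ c) (hm : 1 ≤ m) {e k : ℕ} (ha : 0 ≤ a)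
    (h : a ≤ (1 / (c * m)) ^ e) (hk : n ≤ e * k) : c ^ n * a ^ k ≤ (1 / m) ^ n := by
  have h0 : (1 : ℝ) ≤ m := by exact_mod_cast hm
  calc _ ≤ c ^ n * ((1 / (c * m)) ^ e) ^ k := by gcongr
    _ ≤ c ^ n * (1 / (c * m)) ^ n := by
      rw [← pow_mul]
      refine mul_le_mul_of_nonneg_left (pow_le_pow_of_le_one (by positivity) ?_ hk) (by positivity)
      rw [div_le_one (by positivity)]
      nlinarith
    _ = _ := by
      rw [← mul_pow]
      congr 1
      field_simp

theorem Fam.prob_atyp (h : Fam row lab G C U) {ν : Fin m → Measure X} (hν : ∀ i, C i (ν i))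
    (hn : (n : ℝ) + 1 ≤ U) (hm : 8 * (m : ℝ) ≤ U) (hn0 : 0 < n) {B : Finset (Fin m)}
    (hB : B.card = n) : Measure.pi ν (atyp row G U p q B) ≤ 3 * ENNReal.ofReal ((1 / m) ^ n) := by
  have := fun i => h.prob i _ (hν i)
  have := fun i => Measure.isProbabilityMeasure_map (μ := ν i) h.mrow.aemeasurable
  have hok := fun i => h.ok i _ (hν i)
  have hm1 : 1 ≤ m := by
    have := card_le_univ B
    rw [Fintype.card_fin] at this
    omega
  have hm2 : (1 : ℝ) ≤ m := by exact_mod_cast hm1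
  have hU : 8 ≤ U := by linarith
  have hm3 : 1 / U ≤ 1 / (4 * m) := by gcongr; linarith
  refine (measure_union_le _ _).trans ((add_le_add_right ((h.rows_le hν _).trans
    (measure_union_le _ _)) _).trans ?_)
  rw [show ∀ a : ℝ≥0∞, 3 * a = a + (a + a) from fun a => by ring]
  refine add_le_add ?_ (add_le_add ?_ ?_)
  · refine (biUnion_le _ _ (x := ((1 / (2 * m)) ^ 8) ^ (n / 8 + 1)) (by positivity)
      (card_pc hB.le _) fun J hJ => ?_).trans (ENNReal.ofReal_le_ofReal
      (pow_aux one_le_two hm1 (by positivity) le_rfl (by omega)))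
    rw [ENNReal.ofReal_pow (by positivity), ← (mem_powersetCard.1 hJ).2]
    exact pi_forall_le ν J _ fun i _ => h.bad i _ (hν i)
  · refine (biUnion_le _ _ (c := 2 ^ n) (by positivity) ?_ fun i hi =>
      biUnion_le _ _ (by positivity) (card_pc (n := n) (card_erase_le.trans hB.le) _)
        fun Z hZ => prob_near hok (k := n / 8 + 1) (ε := n * (1 / U ^ 11 * U)) (by positivity) p q hB hi
          (mem_powersetCard.1 hZ).1 (mem_powersetCard.1 hZ).2).trans (ENNReal.ofReal_le_ofReal ?_)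
    · rw [hB]
      exact_mod_cast Nat.lt_two_pow_self.le
    · rw [← mul_assoc, ← mul_pow, show (2 : ℝ) * 2 = 4 by norm_num]
      refine pow_aux (e := 8) (by norm_num) hm1 (by positivity) ?_ (by omega)
      calc _ ≤ U * (U * (1 / U ^ 11 * U)) := by gcongr; linarith
        _ = (1 / U) ^ 8 := by field_simp
        _ ≤ _ := by gcongr
  · set N := ⌈U ^ 18⌉₊ with hN
    have hN1 : U ^ 18 ≤ N := Nat.le_ceil _
    have hN2 : (1 : ℝ) ≤ N := (one_le_pow₀ (by linarith)).trans hN1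
    refine (biUnion_le _ _ (by positivity) (card_pc hB.le _) fun S hS =>
      biUnion_le _ _ (c := 2 ^ n) (x := (48 * U ^ 12 / N) ^ (n / 4 + 2)) (by positivity) ?_
        fun W hW => (prob_ker hok (by linarith) hn ?_ S W).trans ?_).trans
        (ENNReal.ofReal_le_ofReal ?_)
    · have h1 := card_le_univ (univ.filter fun W : Finset (Fin n) => W.card ≤ n / 4 + 1)
      rw [Fintype.card_finset, Fintype.card_fin] at h1
      exact_mod_cast h1
    · refine lt_of_lt_of_le ?_ hN1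
      calc 4 * U ^ 3 < U * U ^ 3 := by gcongr; linarith
        _ = U ^ 4 := by ring
        _ ≤ _ := pow_le_pow_right₀ (by linarith) (by norm_num)
    · rw [(mem_powersetCard.1 hS).2, mul_comm (n / 4 + 2), pow_mul]
      calc _ ≤ ENNReal.ofReal (3 * N) ^ (n / 4 + 2) *
            (ENNReal.ofReal (4 * U ^ 6 / N) ^ 2) ^ (n / 4 + 2) := by
            refine mul_le_mul_left ((pow_le_pow_left' ?_ _).trans (pow_le_pow_right₀ ?_ ?_)) _
            · rw [show (2 * N + 1 : ℝ≥0∞) = ENNReal.ofReal (2 * N + 1 : ℕ) by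
                rw [ENNReal.ofReal_natCast]; push_cast; rfl]
              refine ENNReal.ofReal_le_ofReal ?_
              push_cast
              linarith
            · exact ENNReal.one_le_ofReal.2 (by linarith)
            · have := (mem_filter.1 hW).2
              omega
        _ = _ := by
            rw [← mul_pow, ← ENNReal.ofReal_pow (by positivity), ← ENNReal.ofReal_mul
              (by positivity), ← ENNReal.ofReal_pow (by positivity)]
            congr 2
            field_simp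
            ring
    · rw [← mul_assoc, ← mul_pow, show (2 : ℝ) * 2 = 4 by norm_num]
      refine pow_aux (e := 4) (by norm_num) hm1 (by positivity) ?_ (by omega)
      calc _ ≤ U ^ 2 * U ^ 12 / U ^ 18 := by gcongr; nlinarith
        _ = (1 / U) ^ 4 := by field_simp
        _ ≤ _ := by gcongr

theorem Fam.cover (h : Fam row lab G C U) (hn : (n : ℝ) + 1 ≤ U) (hn0 : 24 ≤ n) (hp : p ⬝ᵥ p = 1)
    (hpq : q ⬝ᵥ p = 0) (hp1 : ‖p‖ ≤ 1) {S₀ B : Finset (Fin m)} {ω : Fin m → X}
    (hω : On 0 (fun i => row (ω i)) p q S₀ B) (ha : ω ∉ atyp row G U p q B) :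
    ∃ j ∈ B, ∃ s < n, ∃ u, ω ∈ evE row lab (G j) (1 / U ^ 11) ((s + 1 / 2) * (1 / U ^ 11 / n))
      (1 / U ^ 11 / (4 * n)) (1 / U ^ 32) (1 / U) p q S₀ B j u := by
  classical
  obtain ⟨⟨x, hx⟩, hs⟩ := hω
  simp only [atyp, Set.mem_union, Set.mem_iUnion, Set.mem_preimage, not_or, not_exists,
    Set.mem_ofPred_eq, mem_powersetCard, mem_filter, mem_univ, true_and] at ha
  obtain ⟨h0, h1, h2⟩ := ha
  have hn1 : (24 : ℝ) ≤ n := by exact_mod_cast hn0
  have hU : 25 ≤ U := by linarith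
  have hU1 : ∀ k, 1 ≤ U ^ k := fun k => one_le_pow₀ (by linarith)
  have hb : n ≤ (B.filter fun i => ω i ∈ G i).card + n / 8 := by
    by_contra h3
    have h4 := card_filter_add_card_filter_not (s := B) fun i => ω i ∈ G i
    obtain ⟨J, hJ, hJc⟩ := exists_subset_card_eq (s := B.filter fun i => ¬ ω i ∈ G i)
      (n := n / 8 + 1) (by have := hx.2.1; omega)
    exact h0 J ⟨hJ.trans (filter_subset _ _), hJc⟩ fun i hi => (mem_filter.1 (hJ hi)).2
  obtain ⟨j, hj, s, hsn, S, hS, S', hS', hk, hP⟩ := typical (k := (n / 4 + 2) * 2)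
    (θ := 1 / U ^ 11) (U := U) hp hpq hp1 (by positivity) ((div_le_one (by positivity)).2 (hU1 _))
    (by linarith) hx.2.1 hs (filter_subset _ _) hb (by omega)
    (fun i hi => (h.good i _ (mem_filter.1 hi).2).1.1) fun i hi Z hZ hZc => h1 i hi Z ⟨hZ, hZc⟩
  obtain ⟨hjB, hjG⟩ := mem_filter.1 hj
  have hη : 1 / U ^ 13 ≤ 1 / U ^ 11 / (4 * n) := by
    rw [div_div]
    gcongr
    calc _ ≤ U ^ 11 * (U * U) := by gcongr <;> linarith
      _ = _ := by ring
  set N := ⌈U ^ 18⌉₊ with hN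
  have hN1 : (0 : ℝ) < N := lt_of_lt_of_le (by positivity) (Nat.le_ceil (U ^ 18))
  have hN2 : (N : ℝ) ≤ U ^ 19 := by
    have h3 := (Nat.ceil_lt_add_one (a := U ^ 18) (by positivity)).le
    rw [pow_succ]
    nlinarith [hU1 18]
  have h3 : (n + 1) * (n * (1 / U ^ 32)) / (U ^ 2 / N) ≤ 1 / U ^ 13 := by
    calc _ ≤ U * (U * (1 / U ^ 32)) / (U ^ 2 / U ^ 19) := by gcongr; linarith
      _ = _ := by field_simp
  refine ⟨j, hjB, s, hsn, (lab (ω j), S), ⟨hjG, rfl⟩, hS, ⟨x, hx⟩, hP,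
    exists_cor (ε := U ^ 2 / N) (U := U) hx.2.1 (hS'.trans inter_subset_left) hS (by positivity)
      (le_trans ?_ hη) (by positivity) (by linarith) (h3.trans hη) ?_
      (fun i hi => (h.good i _ (mem_filter.1 (mem_inter.1 (hS' hi)).2).2).1)
      (h2 S' ⟨hS'.trans (inter_subset_right.trans (filter_subset _ _)), hk⟩ _ (h.good j _ hjG).2)⟩
  · gcongr
    · linarith
    · norm_num
  · calc _ ≤ U * (1 / U ^ 12) + U * (1 / U ^ 13 * U) := by
          gcongr
          · linarith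
          · linarith
          · norm_num
          · linarith
      _ = 2 / U ^ 11 := by field_simp; ring
      _ ≤ U ^ 10 / U ^ 11 := by
          gcongr
          exact le_trans (by linarith) (le_self_pow₀ (by linarith) (by norm_num))
      _ = _ := by field_simp

theorem Fam.one (h : Fam row lab G C U) (hn : (n : ℝ) + 1 ≤ U) (hm : 8 * (m : ℝ) ≤ U)
    (hn0 : 24 ≤ n) (hp : p ⬝ᵥ p = 1) (hpq : q ⬝ᵥ p = 0) (hp1 : ‖p‖ ≤ 1) {ν μ : Fin m → Measure X}
    (hν : ∀ i, C i (ν i)) (hμ : ∀ i, C i (μ i)) (hs : ∀ j, Shift row lab (G j) U (ν j) (μ j))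
    (S₀ : Finset (Fin m)) {B : Finset (Fin m)} (hB : B.card = n) :
    Measure.pi ν {ω | On 0 (fun i => row (ω i)) p q S₀ B} ≤ 3 * ENNReal.ofReal ((1 / m) ^ n) +
      ∑ j, ENNReal.ofReal (U ^ 3) * Measure.pi (Function.update ν j (μ j))
        ((fun ω i => row (ω i)) ⁻¹'
          {r | On (1 / U ^ 32 * (1 / U ^ 11) / (2 * n) / al r ^ 2) r p q S₀ B}) := by
  have hn1 : (24 : ℝ) ≤ n := by exact_mod_cast hn0
  have hU : 25 ≤ U := by linarith
  have hU1 : ∀ k, 1 ≤ U ^ k := fun k => one_le_pow₀ (by linarith)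
  refine (measure_mono (t := atyp row G U p q B ∪ ⋃ j ∈ B, ⋃ s ∈ range n, ⋃ u,
    evE row lab (G j) (1 / U ^ 11) ((s + 1 / 2) * (1 / U ^ 11 / n))
      (1 / U ^ 11 / (4 * n)) (1 / U ^ 32) (1 / U) p q S₀ B j u) fun ω hω => ?_).trans
    ((measure_union_le _ _).trans (add_le_add (h.prob_atyp hν hn hm (by omega) hB)
      ((measure_biUnion_finset_le _ _).trans ((sum_le_sum fun j hj => ?_).trans
      (sum_le_sum_of_subset (subset_univ B))))))
  · refine or_iff_not_imp_left.2 fun ha => ?_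
    obtain ⟨j, hj, s, hs, u, hu⟩ := h.cover hn hn0 hp hpq hp1 hω ha
    exact Set.mem_iUnion₂.2 ⟨j, hj, Set.mem_iUnion₂.2 ⟨s, mem_range.2 hs,
      Set.mem_iUnion.2 ⟨u, hu⟩⟩⟩
  have hη : 1 / U ^ 32 ≤ 1 / U ^ 11 / (4 * n) := by
    rw [div_div]
    gcongr
    calc _ ≤ U ^ 11 * (U * U) * U ^ 19 := by
          refine le_trans ?_ (le_mul_of_one_le_right (by positivity) (hU1 19))
          gcongr <;> linarith
      _ = _ := by ring
  have hη1 : 1 / U ^ 11 / (4 * n) ≤ 1 := by
    rw [div_div, div_le_one (by positivity)]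
    nlinarith [hU1 11]
  set P := Measure.pi (Function.update ν j (μ j)) with hP
  set O := (fun (ω : Fin m → X) i => row (ω i)) ⁻¹'
    {r | On (1 / U ^ 32 * (1 / U ^ 11) / (2 * n) / al r ^ 2) r p q S₀ B} with hO
  refine (measure_biUnion_finset_le _ _).trans ((sum_le_card_nsmul _ _
    (ENNReal.ofReal U * (n * P O)) fun s _ => ?_).trans ?_)
  · refine (measure_iUnion_fintype_le _ _).trans ((sum_le_sum fun u _ => h.prob_op hν (hμ j) (hs j)
      hp hpq hp1 (by positivity) ((div_le_one (by positivity)).2 (hU1 _)) (by positivity)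
      hη hη1 (by positivity) hj u).trans ?_)
    rw [← mul_sum]
    exact mul_le_mul_right (h.sum_F _ (by positivity) (by positivity) hj) _
  · rw [card_range, nsmul_eq_mul, ← mul_assoc, ← mul_assoc, ← ENNReal.ofReal_natCast,
      ← ENNReal.ofReal_mul (by positivity), ← ENNReal.ofReal_mul (by positivity)]
    refine mul_le_mul_left (ENNReal.ofReal_le_ofReal ?_) _
    calc _ ≤ U * U * U := by gcongr <;> linarith
      _ = _ := by ring

theorem Fam.bound (h : Fam row lab G C U) (hn : (n : ℝ) + 1 ≤ U) (hm : 8 * (m : ℝ) ≤ U)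
    (hn0 : 24 ≤ n) (hp : p ⬝ᵥ p = 1) (hpq : q ⬝ᵥ p = 0) (hp1 : ‖p‖ ≤ 1) (hq1 : ‖q‖ ≤ 1)
    {ν₀ : Fin m → Measure X} (hν₀ : ∀ i, C i (ν₀ i)) :
    ∑ B, Measure.pi ν₀ {ω | On 0 (fun i => row (ω i)) p q univ B} ≤ ENNReal.ofReal (U ^ 44) := by
  classical
  set T := ⨆ (ν : Fin m → Measure X) (_ : ∀ i, C i (ν i)) (S : Finset (Fin m)),
    ∑ B, Measure.pi ν {ω | On 0 (fun i => row (ω i)) p q S B} with hT
  have hle : ∀ ν, (∀ i, C i (ν i)) → ∀ S,
      ∑ B, Measure.pi ν {ω | On 0 (fun i => row (ω i)) p q S B} ≤ T := fun ν hν S =>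
    le_iSup₂_of_le ν hν (le_iSup (fun S => ∑ B, Measure.pi ν
      {ω | On 0 (fun i => row (ω i)) p q S B}) S)
  have hfin : T ≠ ∞ := by
    refine ne_top_of_le_ne_top (b := ∑ _B : Finset (Fin m), 1) (by simp)
      (iSup₂_le fun ν hν => iSup_le fun S => sum_le_sum fun B _ => ?_)
    have := fun i => h.prob i _ (hν i)
    exact prob_le_one
  have hn1 : (24 : ℝ) ≤ n := by exact_mod_cast hn0
  have hU : 25 ≤ U := by linarith
  have hU1 : ∀ k, 1 ≤ U ^ k := fun k => one_le_pow₀ (by linarith)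
  have hm0 : (0 : ℝ) ≤ m := Nat.cast_nonneg m
  set c : ℝ := 1 / U ^ 32 * (1 / U ^ 11) / (2 * n) with hc
  set Q := ENNReal.ofReal (123 * U ^ 12 / (1 / U ^ 26)) +
    ENNReal.ofReal (U ^ 2 * (1 / (2 * U ^ 6))) * T with hQ
  have h1 : ∀ ν, (∀ i, C i (ν i)) → ∀ S, ∑ B, Measure.pi ν ((fun ω i => row (ω i)) ⁻¹'
      {r | On (c / al r ^ 2) r p q S B}) ≤ Q := by
    intro ν hν S
    have := fun i => h.prob i _ (hν i)
    have := fun i => Measure.isProbabilityMeasure_map (μ := ν i) h.mrow.aemeasurable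
    refine (sum_le_sum fun B _ => h.rows_le hν _).trans (sum_on (fun i => h.ok i _ (hν i))
      (by linarith) hn (by omega) (by linarith) hq1 (by positivity) (by positivity) (by positivity)
      ((div_le_one (by positivity)).2 (hU1 _)) ?_ S fun k => le_trans (le_of_eq ?_)
      (hle ν hν (S.erase k)))
    · calc _ = 1 / U ^ 32 * (1 / U ^ 11) / (U * U) * (1 / (U * U ^ 6)) := by field_simp
        _ ≤ _ := by rw [hc]; gcongr <;> linarith
    · refine sum_congr rfl fun B _ => ?_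
      rw [← Measure.pi_map_pi fun i => h.mrow.aemeasurable,
        Measure.map_apply (meas_rows h.mrow) (meas_on continuous_const p q _ B)]
      rfl
  have h2 : T ≤ 3 + ENNReal.ofReal (U ^ 4) * Q := by
    refine iSup₂_le fun ν hν => iSup_le fun S₀ => ?_
    choose μ hμ hs using fun j => h.shift j _ (hν j)
    have h3 : ∀ B, Measure.pi ν {ω | On 0 (fun i => row (ω i)) p q S₀ B} ≤
        (if B.card = n then 3 * ENNReal.ofReal ((1 / m) ^ n) else 0) +
        ∑ j, ENNReal.ofReal (U ^ 3) * Measure.pi (Function.update ν j (μ j))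
          ((fun ω i => row (ω i)) ⁻¹' {r | On (c / al r ^ 2) r p q S₀ B}) := by
      intro B
      split_ifs with hB
      · exact h.one hn hm hn0 hp hpq hp1 hν hμ hs S₀ hB
      · exact le_of_eq_of_le (measure_mono_null (fun ω ⟨⟨x, hx⟩, _⟩ => hB hx.2.1) measure_empty)
          zero_le
    refine (sum_le_sum fun B _ => h3 B).trans ?_
    rw [sum_add_distrib, sum_comm]
    refine add_le_add ?_ ((sum_le_card_nsmul _ _ (ENNReal.ofReal (U ^ 3) * Q) fun j _ => ?_).trans
      ?_)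
    · rw [← sum_filter, sum_const, nsmul_eq_mul, mul_left_comm, ← ENNReal.ofReal_natCast,
        ← ENNReal.ofReal_mul (by positivity)]
      refine mul_le_of_le_one_right zero_le (ENNReal.ofReal_le_one.2 ?_)
      have h4 : (univ.filter fun B : Finset (Fin m) => B.card = n).card ≤ m ^ n := by
        rw [univ_filter_card_eq, card_powersetCard, card_univ, Fintype.card_fin]
        exact Nat.choose_le_pow _ _
      calc _ ≤ (m : ℝ) ^ n * (1 / m) ^ n := by gcongr; exact_mod_cast h4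
        _ ≤ 1 := by
          rw [← mul_pow, mul_one_div]
          exact pow_le_one₀ (by positivity) (div_self_le_one _)
    · rw [← mul_sum]
      exact mul_le_mul_right (h1 _ (prob_update hν (hμ j)) S₀) _
    · rw [card_univ, Fintype.card_fin, nsmul_eq_mul, ← mul_assoc, ← ENNReal.ofReal_natCast,
        ← ENNReal.ofReal_mul hm0]
      refine mul_le_mul_left (ENNReal.ofReal_le_ofReal ?_) _
      calc _ ≤ U * U ^ 3 := by gcongr; linarith
        _ = _ := by ring
  refine (hle ν₀ hν₀ univ).trans ?_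
  rw [hQ, mul_add, ← mul_assoc, ← ENNReal.ofReal_mul (by positivity),
    ← ENNReal.ofReal_mul (by positivity), ← add_assoc, ← ENNReal.ofReal_ofNat 3,
    ← ENNReal.ofReal_add (by positivity) (by positivity), ← ENNReal.ofReal_toReal hfin,
    ← ENNReal.ofReal_mul (by positivity), ← ENNReal.ofReal_add (by positivity) (by positivity),
    ENNReal.ofReal_le_ofReal_iff (by positivity)] at h2
  rw [← ENNReal.ofReal_toReal hfin]
  refine ENNReal.ofReal_le_ofReal ?_
  have e1 : U ^ 4 * (123 * U ^ 12 / (1 / U ^ 26)) = 123 * U ^ 42 := by field_simp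
  have e2 : U ^ 4 * (U ^ 2 * (1 / (2 * U ^ 6))) = 1 / 2 := by field_simp
  rw [e1, e2] at h2
  calc _ ≤ 252 * U ^ 42 := by linarith [hU1 42]
    _ ≤ U ^ 2 * U ^ 42 := by gcongr; nlinarith
    _ = _ := by ring

end Pool.Agent.Lib.MP_3b7f8d_lc.FP
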