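import Mathlib
import Pool.Agent.Lib.MP_3b7f8d_lc.FP.Main

/-! Rows with labelled entries. -/

namespace Pool.Agent.Lib.MP_3b7f8d_lc.FP

open Finset MeasureTheory
open scoped ENNReal

section
variable {ι Y : Type} [Fintype ι] [MeasurableSpace Y]

theorem lintegral_pi_prod (μ : ι → Measure Y) [∀ i, SigmaFinite (μ i)] [Nonempty Y]
    {f : ι → Y → ℝ≥0∞} (hf : ∀ i, Measurable (f i)) :
    ∫⁻ ω, ∏ i, f i (ω i) ∂Measure.pi μ = ∏ i, ∫⁻ y, f i y ∂μ i := by
  classical
  have h : ∀ (s : Finset ι) (c : ℝ≥0∞) (x : ι → Y),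
      lmarginal μ s (fun ω => c * ∏ i ∈ s, f i (ω i)) x = c * ∏ i ∈ s, ∫⁻ y, f i y ∂μ i := by
    intro s
    induction s using Finset.induction_on with
    | empty => simp
    | insert i s hi ih =>
      intro c x
      rw [lmarginal_insert' _ (by fun_prop) hi, prod_insert hi, ← mul_assoc, ← ih _ x]
      congr 1
      ext ω
      rw [mul_right_comm, ← lintegral_const_mul _ (hf i)]
      refine lintegral_congr fun y => ?_
      rw [prod_insert hi, Function.update_self, prod_congr rfl fun j hj => by
        rw [Function.update_of_ne (ne_of_mem_of_not_mem hj hi)]]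
      ring
  simpa using h univ 1 (Classical.arbitrary _)

theorem pi_withDensity (μ : ι → Measure Y) [∀ i, SigmaFinite (μ i)] [Nonempty Y]
    {f : ι → Y → ℝ≥0∞} (hf : ∀ i, Measurable (f i))
    [∀ i, SigmaFinite ((μ i).withDensity (f i))] :
    Measure.pi (fun i => (μ i).withDensity (f i)) =
      (Measure.pi μ).withDensity fun ω => ∏ i, f i (ω i) := by
  refine Measure.pi_eq fun s hs => ?_
  rw [withDensity_apply _ (MeasurableSet.univ_pi hs),
    ← lintegral_indicator (MeasurableSet.univ_pi hs)]
  simp only [withDensity_apply _ (hs _), ← lintegral_indicator (hs _)]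
  rw [← lintegral_pi_prod μ fun i => (hf i).indicator (hs i)]
  refine lintegral_congr fun ω => ?_
  by_cases h : ω ∈ Set.univ.pi s
  · rw [Set.indicator_of_mem h]
    exact prod_congr rfl fun i _ => (Set.indicator_of_mem (h i trivial) _).symm
  · rw [Set.indicator_of_notMem h]
    obtain ⟨i, hi⟩ : ∃ i, ω i ∉ s i := by simpa using h
    exact (prod_eq_zero (mem_univ i) (Set.indicator_of_notMem hi _)).symm

theorem pi_le_smul {μ ν : ι → Measure Y} [∀ i, SigmaFinite (μ i)] [∀ i, SigmaFinite (ν i)]
    [Nonempty Y] {c : ℝ≥0∞} (h : ∀ i, μ i ≤ c • ν i) :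
    Measure.pi μ ≤ c ^ Fintype.card ι • Measure.pi ν := by
  classical
  have h1 : ∀ (F : (ι → Y) → ℝ≥0∞), Measurable F → ∀ (s : Finset ι) (x : ι → Y),
      lmarginal μ s F x ≤ c ^ s.card * lmarginal ν s F x := by
    intro F hF s
    induction s using Finset.induction_on with
    | empty => simp
    | insert i s hi ih =>
      intro x
      rw [lmarginal_insert _ hF hi, lmarginal_insert _ hF hi, card_insert_of_notMem hi, pow_succ,
        mul_assoc, ← smul_eq_mul c, ← lintegral_smul_measure, ← lintegral_const_mul _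
        (f := fun y => lmarginal ν s F (Function.update x i y))
        ((hF.lmarginal ν).comp (measurable_update x))]
      exact lintegral_mono' (h i) fun y => ih _
  refine Measure.le_iff.2 fun s hs => ?_
  simpa [lintegral_indicator_one hs] using
    h1 _ (measurable_one.indicator hs) univ (Classical.arbitrary _)

end

variable {n m : ℕ}

/-- Rows with labelled entries. -/
abbrev LX (n : ℕ) := (Fin n → ℝ × Bool) × ℝ

/-- The row of a labelled row. -/
def lrow (x : LX n) : Row n := (fun l => (x.1 l).1, x.2)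

/-- The set of labelled columns. -/
def llab (x : LX n) : Finset (Fin n) := univ.filter fun l => (x.1 l).2 = true

/-- Base measure for a labelled entry. -/
noncomputable abbrev lam : Measure (ℝ × Bool) := (volume : Measure ℝ).prod Measure.count

/-- Density of a labelled entry. -/
noncomputable def den (t w : ℝ → ℝ) (σ u : ℝ) (y : ℝ × Bool) : ℝ≥0∞ :=
  ENNReal.ofReal ((if y.2 then w ((y.1 - u) / σ) else t ((y.1 - u) / σ)) / σ)

/-- Law of a labelled row. -/
noncomputable def rl (t w : ℝ → ℝ) (σ : ℝ) (u : Fin n → ℝ) (β : Measure ℝ) : Measure (LX n) :=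
  (Measure.pi fun l => lam.withDensity (den t w σ (u l))).prod β

theorem meas_lrow : Measurable (lrow : LX n → Row n) := by
  unfold lrow
  fun_prop

theorem meas_llab : Measurable fun x : LX n => fun l => (x.1 l).2 := by fun_prop

theorem meas_lab_pred (P : Finset (Fin n) → Prop) : MeasurableSet {x : LX n | P (llab x)} :=
  meas_llab (MeasurableSet.of_discrete
    (s := {b : Fin n → Bool | P (univ.filter fun l => b l = true)}))

variable {t w t' w' : ℝ → ℝ} {σ : ℝ}

theorem meas_den (ht : Measurable t) (hw : Measurable w) (σ u : ℝ) : Measurable (den t w σ u) := by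
  unfold den
  refine Measurable.ennreal_ofReal (Measurable.div_const (Measurable.ite ?_ ?_ ?_) _)
  · exact measurable_snd (MeasurableSet.of_discrete (s := {b | b = true}))
  · fun_prop
  · fun_prop

instance (t w : ℝ → ℝ) (σ u : ℝ) : SigmaFinite (lam.withDensity (den t w σ u)) := by
  unfold den
  infer_instance

theorem den_apply (ht : Measurable t) (hw : Measurable w) (σ u : ℝ) {s : Set (ℝ × Bool)}
    (hs : MeasurableSet s) : lam.withDensity (den t w σ u) s =
      pert w σ u {x | (x, true) ∈ s} + pert t σ u {x | (x, false) ∈ s} := by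
  have h : ∀ b, MeasurableSet {x | (x, b) ∈ s} := fun b => measurable_prodMk_right hs
  rw [withDensity_apply _ hs, ← lintegral_indicator hs, lintegral_prod_symm _
    ((meas_den ht hw σ u).indicator hs).aemeasurable, lintegral_count, tsum_fintype,
    Fintype.sum_bool, pert, pert, withDensity_apply _ (h _), withDensity_apply _ (h _),
    ← lintegral_indicator (h _), ← lintegral_indicator (h _)]
  rfl

theorem den_map (ht : Measurable t) (hw : Measurable w) (h0 : ∀ x, 0 ≤ t x) (h1 : ∀ x, 0 ≤ w x)
    (hσ : 0 < σ) (u : ℝ) :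
    (lam.withDensity (den t w σ u)).map Prod.fst = pert (fun x => w x + t x) σ u := by
  ext s hs
  rw [Measure.map_apply measurable_fst hs, den_apply ht hw σ u (measurable_fst hs)]
  show pert w σ u s + pert t σ u s = _
  rw [← Measure.add_apply, pert, pert, pert, ← withDensity_add_left (by fun_prop)]
  congr 2
  ext x
  have := h0 ((x - u) / σ)
  have := h1 ((x - u) / σ)
  rw [Pi.add_apply, ← ENNReal.ofReal_add (by positivity) (by positivity), add_div]

theorem rl_map (ht : Measurable t) (hw : Measurable w) (h0 : ∀ x, 0 ≤ t x) (h1 : ∀ x, 0 ≤ w x)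
    (hσ : 0 < σ) (u : Fin n → ℝ) (β : Measure ℝ) [SFinite β] : (rl t w σ u β).map lrow =
      (Measure.pi fun l => pert (fun x => w x + t x) σ (u l)).prod β := by
  have h := fun l => den_map ht hw h0 h1 hσ (u l)
  have : ∀ l, SigmaFinite ((lam.withDensity (den t w σ (u l))).map Prod.fst) := fun l => by
    rw [h, pert]
    infer_instance
  simp only [← h]
  rw [← Measure.pi_map_pi fun _ => measurable_fst.aemeasurable]
  nth_rewrite 2 [← Measure.map_id (μ := β)]
  rw [Measure.map_prod_map _ _ (by fun_prop) measurable_id]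
  rfl

theorem rl_card (ht : Measurable t) (hw : Measurable w) (u : Fin n → ℝ) (β : Measure ℝ)
    [IsProbabilityMeasure β] [∀ l, IsProbabilityMeasure (lam.withDensity (den t w σ (u l)))]
    {ω : ℝ} (hω0 : 0 ≤ ω) (hω : ∀ l, pert w σ (u l) Set.univ ≤ ENNReal.ofReal ω) (k : ℕ) :
    rl t w σ u β {x | k < (llab x).card} ≤ ENNReal.ofReal (2 ^ n * ω ^ (k + 1)) := by
  refine le_trans (measure_mono (t := ⋃ W ∈ univ.powersetCard (k + 1),
    {y : Fin n → ℝ × Bool | ∀ l ∈ W, y l ∈ {z : ℝ × Bool | z.2 = true}} ×ˢ Set.univ)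
    fun x hx => ?_) (biUnion_le _ _ (by positivity) (card_pc (by simp) _) fun W hW => ?_)
  · obtain ⟨W, hW, hk⟩ := exists_subset_card_eq (s := llab x) (n := k + 1) hx
    exact Set.mem_iUnion₂.2 ⟨W, mem_powersetCard.2 ⟨subset_univ _, hk⟩,
      fun l hl => (mem_filter.1 (hW hl)).2, trivial⟩
  · rw [rl, Measure.prod_prod, measure_univ, mul_one, ENNReal.ofReal_pow hω0,
      ← (mem_powersetCard.1 hW).2]
    refine pi_forall_le _ W _ fun l _ => ?_
    rw [den_apply ht hw σ _ (s := {z | z.2 = true})
      (measurable_snd (MeasurableSet.of_discrete (s := {b | b = true})))]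
    simpa using hω l

theorem rl_shift (ht : Measurable t) (hw : Measurable w) (ht' : Measurable t')
    (hw' : Measurable w') (u : Fin n → ℝ) (β : Measure ℝ) [SFinite β] {G : Set (LX n)} {U : ℝ}
    (h : ∀ x ∈ G, ∀ s : Fin n → ℝ, ‖s‖ ≤ 1 / U → (∀ l, (x.1 l).2 = true → s l = 0) →
      ∏ l, den t w σ (u l) (x.1 l) ≤
        ENNReal.ofReal U * ∏ l, den t' w' σ (u l) ((x.1 l).1 + s l, (x.1 l).2)) :
    Shift lrow llab G U (rl t w σ u β) (rl t' w' σ u β) := by
  intro W s hs hW A F hA hF hAF
  have h1 := fun l => meas_den ht hw σ (u l)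
  have h2 := fun l => meas_den ht' hw' σ (u l)
  have hT : MeasurePreserving (Prod.map (fun (y : Fin n → ℝ × Bool) l =>
      Prod.map (· + s l) id (y l)) id) ((Measure.pi fun _ => lam).prod β)
      ((Measure.pi fun _ => lam).prod β) :=
    (measurePreserving_pi _ _ fun l => (measurePreserving_add_right volume (s l)).prod
      (MeasurePreserving.id _)).prod (MeasurePreserving.id _)
  rw [rl, rl, pi_withDensity _ h1, pi_withDensity _ h2, prod_withDensity_left (by fun_prop),
    prod_withDensity_left (by fun_prop), withDensity_apply _ hA, withDensity_apply _ hF,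
    ← hT.setLIntegral_comp_preimage hF (by fun_prop), ← lintegral_const_mul' _ _
      ENNReal.ofReal_ne_top]
  refine (setLIntegral_mono' hA fun x hx => ?_).trans (lintegral_mono_set fun x hx => ?_)
  · obtain ⟨h3, h4, -⟩ := hAF x hx
    exact h x h3 s hs fun l hl => hW l (h4 ▸ mem_filter.2 ⟨mem_univ _, hl⟩)
  · obtain ⟨-, h4, h5⟩ := hAF x hx
    exact h5 _ (Prod.ext rfl (add_zero _).symm) h4

end Pool.Agent.Lib.MP_3b7f8d_lc.FP
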