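import Mathlib
import Pool.Agent.Lib.MP_3b7f8d_lc.FP.Lab
import Pool.Agent.Lib.MP_3b7f8d_lc.FP.Den

/-! The two regimes. -/

namespace Pool.Agent.Lib.MP_3b7f8d_lc.FP

open Finset MeasureTheory
open scoped ENNReal

variable {n m : ℕ}

/-- The law of a right-hand side: small-ball and first-moment bounds. -/
structure Rhs (β : Measure ℝ) (R : ℝ) : Prop where
  prob : IsProbabilityMeasure β
  small : ∀ ε, 0 ≤ ε → β {b | |b| ≤ ε} ≤ ENNReal.ofReal (R * ε)
  mom : ∫⁻ b, ENNReal.ofReal |b| ∂β ≤ ENNReal.ofReal R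

/-- Law of the system: perturbed entries of `A`, independent right-hand sides of laws `β i`. -/
noncomputable def sysLaw (f : ℝ → ℝ) (σ : ℝ) (A : Fin m → Fin n → ℝ) (β : Fin m → Measure ℝ) :
    Measure (Fin m → Row n) :=
  Measure.pi fun i => (Measure.pi fun j => pert f σ (A i j)).prod (β i)

theorem RowOK.mono {ν : Measure (Row n)} {U U' : ℝ} (h : RowOK ν U) (h0 : 0 ≤ U) (hU : U ≤ U') :
    RowOK ν U' :=
  ⟨fun a b ε h1 h2 => (h.slab a b ε h1 h2).trans (by gcongr),
    fun ε h1 => (h.small ε h1).trans (by gcongr),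
    fun k V ε h1 h2 => (h.dist k V ε h1 h2).trans (by gcongr), h.mom.trans (by gcongr)⟩

theorem RowOK.notMod {ν : Measure (Row n)} {U₀ U : ℝ} (h : RowOK ν U₀)
    (hU : 0 < U) : ν {ρ | ¬ Mod U ρ} ≤ ENNReal.ofReal (U₀ / U) + ENNReal.ofReal (U₀ / U) := by
  refine (measure_mono (t := {ρ | ENNReal.ofReal U ≤ ENNReal.ofReal ‖ρ‖} ∪ {ρ | |ρ.2| ≤ 1 / U})
    fun ρ hρ => ?_).trans ((measure_union_le _ _).trans (add_le_add ?_ ?_))
  · rcases not_and_or.1 hρ with h1 | h1
    · exact Or.inl (ENNReal.ofReal_le_ofReal (not_le.1 h1).le)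
    · exact Or.inr (not_le.1 h1).le
  · refine (meas_ge_le_lintegral_div (by fun_prop) (ENNReal.ofReal_pos.2 hU).ne'
      ENNReal.ofReal_ne_top).trans ?_
    rw [ENNReal.ofReal_div_of_pos hU]
    gcongr
    exact h.mom
  · simpa [div_eq_mul_inv] using h.small (1 / U) (by positivity)

theorem meas_mod (U : ℝ) : MeasurableSet {ρ : Row n | Mod U ρ} :=
  (IsClosed.and (isClosed_le (by fun_prop) (by fun_prop))
    (isClosed_le (by fun_prop) (by fun_prop))).measurableSet

variable {σ R κ U v : ℝ} {A : Fin m → Fin n → ℝ} {β : Fin m → Measure ℝ} {p q : Fin n → ℝ}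

theorem bound_of (hσ : 0 < σ) (hσ1 : σ ≤ 1) (hR : 0 ≤ R) (hA : ∀ i l, |A i l| ≤ R)
    (hβ : ∀ i, Rhs (β i) R) (hv : m + n + R + 1 / σ ≤ v) (hU : 1024 * (6 + κ) * v ^ 10 ≤ U)
    (hn : 24 ≤ n) (hm : n ≤ m) (hp : p ⬝ᵥ p = 1) (hpq : q ⬝ᵥ p = 0) (hp1 : ‖p‖ ≤ 1)
    (hq1 : ‖q‖ ≤ 1) (D : Set ((ℝ → ℝ) × (ℝ → ℝ))) (H : Fin m → Set (LX n)) {ω : ℝ} (hω0 : 0 ≤ ω)
    (hω : 2 ^ n * ω ^ (n / 4 + 2) ≤ (1 / (2 * m)) ^ 8 / 4) (hH : ∀ i, MeasurableSet (H i))
    (hD : ∀ d ∈ D, Measurable d.1 ∧ Measurable d.2 ∧ (∀ x, 0 ≤ d.1 x) ∧ (∀ x, 0 ≤ d.2 x) ∧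
      Den (fun x => d.2 x + d.1 x) κ ∧ ∫⁻ x, ENNReal.ofReal (d.2 x) ≤ ENNReal.ofReal ω ∧
      (∀ i, rl d.1 d.2 σ (A i) (β i) (H i)ᶜ ≤ ENNReal.ofReal ((1 / (2 * m)) ^ 8 / 4)) ∧
      ∃ d' ∈ D, ∀ i, ∀ x ∈ H i, ∀ s : Fin n → ℝ, ‖s‖ ≤ 1 / U → (∀ l, (x.1 l).2 = true → s l = 0) →
        ∏ l, den d.1 d.2 σ (A i l) (x.1 l) ≤
          ENNReal.ofReal U * ∏ l, den d'.1 d'.2 σ (A i l) ((x.1 l).1 + s l, (x.1 l).2))
    {d₀ : (ℝ → ℝ) × (ℝ → ℝ)} (hd₀ : d₀ ∈ D) :
    ∑ B, sysLaw (fun x => d₀.2 x + d₀.1 x) σ A β {r | On 0 r p q univ B} ≤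
      ENNReal.ofReal (U ^ 44) := by
  have := fun i => (hβ i).prob
  have hκ := (hD d₀ hd₀).2.2.2.2.1.kappa
  have hσ2 : 1 ≤ 1 / σ := one_le_one_div hσ hσ1
  have hn1 : (24 : ℝ) ≤ n := by exact_mod_cast hn
  have hm1 : (n : ℝ) ≤ m := by exact_mod_cast hm
  have hv1 : 1 ≤ v := by linarith
  have hv2 : v ≤ v ^ 10 := le_self_pow₀ hv1 (by norm_num)
  have hU1 : 1024 * v ≤ U := by nlinarith
  have hmap := fun d (hd : d ∈ D) i => rl_map (hD d hd).1 (hD d hd).2.1 (hD d hd).2.2.1
    (hD d hd).2.2.2.1 hσ (A i) (β i)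
  have hnice := fun d (hd : d ∈ D) i l => (hD d hd).2.2.2.2.1.nice hσ hσ1 (hA i l)
  have hok : ∀ d ∈ D, ∀ i, RowOK ((rl d.1 d.2 σ (A i) (β i)).map lrow) ((6 + κ) * v ^ 2) := by
    intro d hd i
    rw [hmap d hd i]
    refine rowOK (hnice d hd i) (by positivity) (by positivity) hR (hβ i).small (hβ i).mom ?_ ?_
    · calc _ ≤ 2 * (2 * v) * v := by gcongr <;> linarith
        _ ≤ _ := by nlinarith
    · calc _ ≤ v * (v + κ * v) + v * v := by gcongr <;> nlinarith
        _ ≤ _ := by nlinarith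
  have hprob : ∀ d ∈ D, ∀ i l, IsProbabilityMeasure (lam.withDensity (den d.1 d.2 σ (A i l))) := by
    intro d hd i l
    have h1 := (hnice d hd i l).prob
    rw [← den_map (hD d hd).1 (hD d hd).2.1 (hD d hd).2.2.1 (hD d hd).2.2.2.1 hσ] at h1
    exact Measure.isProbabilityMeasure_of_map Prod.fst
  have hF : Fam lrow llab (fun i => (lrow ⁻¹' {ρ | Mod U ρ} ∩
      {x | (llab x).card ≤ n / 4 + 1}) ∩ H i)
      (fun i ν => ∃ d ∈ D, ν = rl d.1 d.2 σ (A i) (β i)) U := by
    refine ⟨meas_lrow, fun W => meas_lab_pred (· = W), fun i => ((meas_lrow (meas_mod U)).inter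
      (meas_lab_pred fun W => W.card ≤ n / 4 + 1)).inter (hH i), fun i x hx => hx.1, ?_, ?_, ?_, ?_⟩
    · rintro i _ ⟨d, hd, rfl⟩
      have := hprob d hd i
      unfold rl
      infer_instance
    · rintro i _ ⟨d, hd, rfl⟩
      refine (hok d hd i).mono (by positivity) (le_trans ?_ hU)
      have h1 : v ^ 2 ≤ v ^ 10 := pow_le_pow_right₀ hv1 (by norm_num)
      nlinarith
    · rintro i _ ⟨d, hd, rfl⟩
      have := hprob d hd i
      obtain ⟨h1, h2, -, -, -, h3, h4, -⟩ := hD d hd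
      have h5 : (6 + κ) * v ^ 2 / U ≤ (1 / (2 * m)) ^ 8 / 4 := by
        calc _ ≤ (6 + κ) * v ^ 2 / (1024 * (6 + κ) * v ^ 10) := by gcongr
          _ = (1 / (2 * v)) ^ 8 / 4 := by field_simp; norm_num
          _ ≤ _ := by gcongr <;> linarith
      have h6 := ((Measure.le_map_apply meas_lrow.aemeasurable _).trans ((hok d hd i).notMod
        (U := U) (by linarith))).trans
        (add_le_add (ENNReal.ofReal_le_ofReal h5) (ENNReal.ofReal_le_ofReal h5))
      have h7 := (rl_card h1 h2 (A i) (β i) hω0 (fun l => by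
        rw [← lintegral_one, lintegral_pert h2 hσ _ measurable_const]
        simpa using h3) (n / 4 + 1)).trans (ENNReal.ofReal_le_ofReal hω)
      rw [Set.compl_inter, Set.compl_inter]
      refine (measure_union_le _ _).trans ((add_le_add ((measure_union_le _ _).trans
        (add_le_add h6 (le_trans (le_of_eq ?_) h7))) (h4 i)).trans (le_of_eq ?_))
      · simp only [Set.compl_ofPred, not_le]
      · rw [← ENNReal.ofReal_add, ← ENNReal.ofReal_add, ← ENNReal.ofReal_add]
        · congr 1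
          ring
        all_goals positivity
    · rintro i _ ⟨d, hd, rfl⟩
      obtain ⟨h1, h2, -, -, -, -, -, d', hd', h3⟩ := hD d hd
      exact ⟨_, ⟨d', hd', rfl⟩, rl_shift h1 h2 (hD d' hd').1 (hD d' hd').2.1 _ _
        fun x hx => h3 i x hx.2⟩
  refine le_trans (le_of_eq (sum_congr rfl fun B _ => ?_)) (hF.bound (by linarith) (by linarith)
    hn hp hpq hp1 hq1 fun i => ⟨d₀, hd₀, rfl⟩)
  have := fun i => hF.prob i _ ⟨d₀, hd₀, rfl⟩
  simp only [sysLaw, ← hmap d₀ hd₀]
  rw [← Measure.pi_map_pi fun i => meas_lrow.aemeasurable,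
    Measure.map_apply (meas_rows meas_lrow) (meas_on continuous_const p q _ B)]
  rfl

theorem small_regime {f : ℝ → ℝ} (hf : Den f κ) (hg : Den gd κ) (hσ : 0 < σ) (hσ1 : σ ≤ 1)
    (hR : 0 ≤ R) (hA : ∀ i l, |A i l| ≤ R) (hβ : ∀ i, Rhs (β i) R) (hv : m + n + R + 1 / σ ≤ v)
    (hU : 1024 * (6 + κ) * v ^ 10 ≤ U) (hn : 24 ≤ n) (hm : n ≤ m) (hp : p ⬝ᵥ p = 1)
    (hpq : q ⬝ᵥ p = 0) (hp1 : ‖p‖ ≤ 1) (hq1 : ‖q‖ ≤ 1)
    (hX : (4 * (2 * m) ^ 8 * (2 + κ) ^ n) ^ 3 ≤ U) :
    ∑ B, sysLaw f σ A β {r | On 0 r p q univ B} ≤ ENNReal.ofReal (U ^ 44) := by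
  have := fun i => (hβ i).prob
  have hκ := hf.kappa
  have hm0 : (0 : ℝ) < m := by exact_mod_cast (by omega : 0 < m)
  set X : ℝ := 4 * (2 * m) ^ 8 * (2 + κ) ^ n with hX'
  have hσU : 1 / U ≤ σ := by
    have hσ2 : 1 ≤ 1 / σ := one_le_one_div hσ hσ1
    have hn0 : (0 : ℝ) ≤ n := Nat.cast_nonneg n
    have hv2 : v ≤ v ^ 10 := le_self_pow₀ (by linarith) (by norm_num)
    refine (one_div_le hσ ?_).1 ?_ <;> nlinarith
  have key := bound_of hσ hσ1 hR hA hβ hv hU hn hm hp hpq hp1 hq1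
    {d | d.2 = (fun _ => 0) ∧ Den d.1 κ}
    (fun i => {x | ∏ l, ENNReal.ofReal (2 + |((x.1 l).1 - A i l) / σ|) < ENNReal.ofReal X})
    (ω := 0) le_rfl (by simp; positivity) (fun i => measurableSet_lt (by fun_prop) measurable_const) ?_
    (d₀ := (f, fun _ => 0)) ⟨rfl, hf⟩
  · simpa using key
  rintro ⟨t, w⟩ ⟨rfl, ht⟩
  refine ⟨ht.meas, measurable_const, ht.nonneg, fun _ => le_rfl, by simpa using ht, by simp,
    fun i => ?_, (gd, fun _ => 0), ⟨rfl, hg⟩, fun i x hx s hs _ => ?_⟩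
  · simp only [Set.compl_ofPred, not_lt]
    refine (meas_ge_le_lintegral_div (by fun_prop) (ENNReal.ofReal_pos.2 (by positivity)).ne'
      ENNReal.ofReal_ne_top).trans ?_
    rw [rl, lintegral_prod _ (by fun_prop)]
    simp only [lintegral_const, measure_univ, mul_one]
    rw [lintegral_pi_prod _ (f := fun l (y : ℝ × Bool) =>
      ENNReal.ofReal (2 + |(y.1 - A i l) / σ|)) (by fun_prop)]
    calc _ ≤ (∏ _l : Fin n, ENNReal.ofReal (2 + κ)) / ENNReal.ofReal X := by
          gcongr with l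
          rw [← lintegral_map (f := fun y => ENNReal.ofReal (2 + |(y - A i l) / σ|))
            (by fun_prop) measurable_fst, den_map ht.meas measurable_const ht.nonneg
            (fun _ => le_rfl) hσ, lintegral_pert (by simpa using ht.meas) hσ _ (by fun_prop)]
          simpa [hσ.ne'] using ht.lint_add (a := 2) zero_le_two
      _ = _ := by
          rw [prod_const, card_univ, Fintype.card_fin, ← ENNReal.ofReal_pow (by positivity),
            ← ENNReal.ofReal_div_of_pos (by positivity), hX']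
          congr 1
          field_simp
  · calc _ ≤ ∏ l, ENNReal.ofReal (2 + |((x.1 l).1 - A i l) / σ|) ^ 3 *
          den gd (fun _ => 0) σ (A i l) ((x.1 l).1 + s l, (x.1 l).2) := by
          refine prod_le_prod' fun l _ => ?_
          simp only [den]
          split_ifs
          · simp
          rw [← ENNReal.ofReal_pow (by positivity), ← ENNReal.ofReal_mul (by positivity),
            ← mul_div_assoc, add_sub_right_comm, add_div]
          gcongr
          refine (ht.le_one _).trans (one_le_gd _ ?_)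
          rw [abs_div, abs_of_pos hσ, div_le_one hσ]
          exact (norm_le_pi_norm s l).trans (hs.trans hσU)
      _ ≤ _ := by
          rw [prod_mul_distrib, prod_pow]
          refine mul_le_mul_left ((pow_le_pow_left' (le_of_lt hx) 3).trans ?_) _
          rw [← ENNReal.ofReal_pow (by positivity)]
          exact ENNReal.ofReal_le_ofReal hX

theorem large_regime {f t : ℝ → ℝ} {κ' : ℝ} {k : ℕ} (hf : Den f κ) (hg : Den gd κ')
    (ht : Measurable t) (ht0 : ∀ x, 0 ≤ t x ∧ t x ≤ f x) (ht1 : ∀ x x', t x ≤ t x' + k * |x - x'|)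
    (ht2 : ∀ x, (k : ℝ) < |x| → t x = 0)
    (ht3 : ∫⁻ x, ENNReal.ofReal (f x - t x) ≤ ENNReal.ofReal ((1 / 2) ^ 8)) (hσ : 0 < σ)
    (hσ1 : σ ≤ 1) (hR : 0 ≤ R) (hA : ∀ i l, |A i l| ≤ R) (hβ : ∀ i, Rhs (β i) R)
    (hv : m + n + R + 1 / σ ≤ v) (hU : 1024 * (6 + (κ + κ')) * v ^ 10 ≤ U)
    (hU' : (2 + k) ^ 4 * v ^ 4 ≤ U) (hn : 24 ≤ n) (hm : n ≤ m) (hp : p ⬝ᵥ p = 1)
    (hpq : q ⬝ᵥ p = 0) (hp1 : ‖p‖ ≤ 1) (hq1 : ‖q‖ ≤ 1) (hL : (2 * m : ℝ) ^ 8 ≤ 2 ^ n) :
    ∑ B, sysLaw f σ A β {r | On 0 r p q univ B} ≤ 3 * ENNReal.ofReal (U ^ 44) := by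
  have := fun i => (hβ i).prob
  have hfm := hf.meas
  have hgm := hg.meas
  have hσ2 : 1 ≤ 1 / σ := one_le_one_div hσ hσ1
  have hn1 : (24 : ℝ) ≤ n := by exact_mod_cast hn
  have hm1 : (n : ℝ) ≤ m := by exact_mod_cast hm
  have hv1 : 1 ≤ v := by linarith
  have hv2 : v ^ 2 ≤ v ^ 10 := pow_le_pow_right₀ hv1 (by norm_num)
  have hU1 : 9 * v ^ 2 ≤ U := by nlinarith [hf.kappa, hg.kappa]
  have hU2 : 9 ≤ U := by nlinarith
  set a : ℝ := 1 / (n * m) with ha
  have ha0 : 0 < a := by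
    rw [ha]
    exact one_div_pos.2 (by nlinarith)
  have hmix := hf.mix hg ha0.le
  have e : (fun x => (f x - t x) / (1 + a) + (t x + a * gd x) / (1 + a)) =
      fun x => (f x + a * gd x) / (1 + a) := funext fun x => by ring
  have key := bound_of hσ hσ1 hR hA hβ hv hU hn hm hp hpq hp1 hq1
    {(fun x => (t x + a * gd x) / (1 + a), fun x => (f x - t x) / (1 + a))} (fun _ => Set.univ)
    (ω := (1 / 2) ^ 8) (by positivity) ?_ (fun _ => MeasurableSet.univ) ?_ rfl
  · simp only [e] at key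
    have h1 := fun i l => (hf.nice hσ hσ1 (hA i l)).prob
    have h2 := fun i l => (hmix.nice hσ hσ1 (hA i l)).prob
    have h3 : sysLaw f σ A β ≤ (ENNReal.ofReal (1 + a) ^ Fintype.card (Fin n)) ^
        Fintype.card (Fin m) • sysLaw (fun x => (f x + a * gd x) / (1 + a)) σ A β := by
      refine pi_le_smul fun i => ?_
      rw [← Measure.prod_smul_left]
      refine Measure.prod_mono (pi_le_smul fun l => ?_) le_rfl
      rw [pert, pert, ← withDensity_smul _ (by fun_prop)]
      refine withDensity_mono (Filter.Eventually.of_forall fun x => ?_)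
      rw [Pi.smul_apply, smul_eq_mul, ← ENNReal.ofReal_mul (by positivity), ← mul_div_assoc,
        mul_div_cancel₀ _ (by positivity)]
      refine ENNReal.ofReal_le_ofReal (div_le_div_of_nonneg_right ?_ hσ.le)
      exact le_add_of_nonneg_right (mul_pos ha0 (gd_pos _)).le
    refine (sum_le_sum fun B _ => h3 _).trans ?_
    simp only [Measure.smul_apply, smul_eq_mul, ← mul_sum, Fintype.card_fin]
    refine mul_le_mul' ?_ key
    rw [← pow_mul, ← ENNReal.ofReal_pow (by positivity), ← ENNReal.ofReal_ofNat 3]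
    refine ENNReal.ofReal_le_ofReal ?_
    calc _ ≤ Real.exp a ^ (n * m) := by gcongr; linarith [Real.add_one_le_exp a]
      _ = Real.exp 1 := by
        rw [← Real.exp_nat_mul, ha]
        push_cast
        rw [mul_one_div_cancel (by nlinarith)]
      _ ≤ 3 := Real.exp_one_lt_three.le
  · calc (2 : ℝ) ^ n * ((1 / 2) ^ 8) ^ (n / 4 + 2) ≤ 2 ^ n * (1 / 2) ^ (n + n + 2) := by
          rw [← pow_mul]
          exact mul_le_mul_of_nonneg_left (pow_le_pow_of_le_one (by norm_num) (by norm_num)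
            (by omega)) (by positivity)
      _ = 1 / 2 ^ n / 4 := by
          rw [pow_add, pow_add, one_div_pow]
          field_simp
          norm_num
      _ ≤ _ := by
          rw [one_div_pow]
          gcongr
          exact pow_pos (by linarith) _
  rintro _ rfl
  refine ⟨by fun_prop, by fun_prop, fun x => ?_, fun x => ?_, e ▸ hmix, le_trans (lintegral_mono
    fun x => ENNReal.ofReal_le_ofReal (div_le_self ?_ (by linarith))) ht3, by simp, _, rfl,
    fun i x _ s hs hs0 => ?_⟩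
  · have := (ht0 x).1
    have := gd_pos x
    positivity
  · have := sub_nonneg.2 (ht0 x).2
    positivity
  · exact sub_nonneg.2 (ht0 x).2
  have hn0 : (0 : ℝ) < n := by linarith
  calc _ ≤ ∏ l, ENNReal.ofReal (1 + 2 / n) * den (fun x => (t x + a * gd x) / (1 + a))
        (fun x => (f x - t x) / (1 + a)) σ (A i l) ((x.1 l).1 + s l, (x.1 l).2) := by
        refine prod_le_prod' fun l _ => ?_
        simp only [den]
        rw [← ENNReal.ofReal_mul (by positivity), ← mul_div_assoc]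
        refine ENNReal.ofReal_le_ofReal (div_le_div_of_nonneg_right ?_ hσ.le)
        split_ifs with hl
        · rw [hs0 l hl, add_zero]
          refine le_mul_of_one_le_left ?_ (le_add_of_nonneg_right (by positivity))
          exact div_nonneg (sub_nonneg.2 (ht0 _).2) (by positivity)
        rw [← mul_div_assoc, add_sub_right_comm, add_div _ (s l) σ]
        refine div_le_div_of_nonneg_right ?_ (by linarith)
        set y := ((x.1 l).1 - A i l) / σ
        set z := s l / σ with hz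
        have h1 : |z| ≤ v / U := by
          rw [hz, abs_div, abs_of_pos hσ, div_eq_mul_one_div, div_eq_mul_one_div v, mul_comm]
          exact mul_le_mul (by linarith) ((norm_le_pi_norm s l).trans hs) (abs_nonneg _)
            (by linarith)
        have h2 : |z| ≤ 1 / (9 * n) := h1.trans (by
          rw [div_le_div_iff₀ (by linarith) (by linarith)]
          nlinarith)
        have h3 : |z| ≤ 1 := h2.trans ((div_le_one (by positivity)).2 (by linarith))
        have h4 : (1 + |z|) ^ 3 ≤ 1 + 1 / n := by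
          have h5 : 9 * |z| ≤ 1 / n := by
            rw [le_div_iff₀ (by positivity)] at h2 ⊢
            linarith
          nlinarith [abs_nonneg z, mul_nonneg (abs_nonneg z) (abs_nonneg z)]
        have h5 := gd_pos (y + z)
        have h6 : gd y ≤ (1 + 1 / n) * gd (y + z) := (gd_shift y z).trans (by gcongr)
        have h7 : t y ≤ t (y + z) + a / n * gd (y + z) := by
          by_cases hy : (k : ℝ) < |y|
          · rw [ht2 y hy]
            have := (ht0 (y + z)).1
            positivity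
          refine (ht1 y (y + z)).trans (add_le_add_right ?_ _)
          have h8 := (one_le_gd y h3).trans
            (mul_le_mul_of_nonneg_right (pow_le_pow_left₀ (by positivity)
              (add_le_add_right (not_lt.1 hy) 2) 3) h5.le)
          rw [sub_add_cancel_left, abs_neg]
          calc _ ≤ (2 + k) * (v / ((2 + k) ^ 4 * v ^ 4)) * ((2 + k) ^ 3 * gd (y + z)) := by
                refine le_trans ?_ (le_mul_of_one_le_right (by positivity) h8)
                refine mul_le_mul (by linarith) (h1.trans (by gcongr)) (abs_nonneg _)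
                  (by positivity)
            _ = 1 / (v * v) / v * gd (y + z) := by field_simp
            _ ≤ _ := by rw [ha]; gcongr <;> nlinarith
        have h8 : 0 ≤ 2 / n * t (y + z) := mul_nonneg (by positivity) (ht0 _).1
        have h9 := mul_le_mul_of_nonneg_left h6 ha0.le
        have h10 : (1 + 2 / n) * (t (y + z) + a * gd (y + z)) = t (y + z) + 2 / n * t (y + z) +
            a / n * gd (y + z) + a * ((1 + 1 / n) * gd (y + z)) := by ring
        linarith
    _ ≤ _ := by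
        rw [prod_mul_distrib, prod_const, card_univ, Fintype.card_fin,
          ← ENNReal.ofReal_pow (by positivity)]
        refine mul_le_mul_left (ENNReal.ofReal_le_ofReal (le_trans ?_ hU2)) _
        calc _ ≤ Real.exp (2 / n) ^ n := by gcongr; linarith [Real.add_one_le_exp (2 / n)]
          _ = Real.exp 1 * Real.exp 1 := by
            rw [← Real.exp_nat_mul, mul_div_cancel₀ _ hn0.ne', ← Real.exp_add]
            norm_num
          _ ≤ 3 * 3 := by gcongr <;> exact Real.exp_one_lt_three.le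
          _ = 9 := by norm_num

end Pool.Agent.Lib.MP_3b7f8d_lc.FP
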