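import Mathlib
import Pool.Agent.Lib.MP_3b7f8d_lc.FP.Reg

/-! The shadow on a fixed plane. -/

namespace Pool.Agent.Lib.MP_3b7f8d_lc.FP

open Finset MeasureTheory
open scoped ENNReal

variable {n m : ℕ}

/-- `B` is a feasible basis that is optimal for some nonzero objective in the span of `z`, `c`. -/
def InShadow (r : Fin m → Row n) (z c : Fin n → ℝ) (B : Finset (Fin m)) : Prop :=
  (∃ x, IsBFS r univ B x) ∧ ∃ (s t : ℝ) (y : Fin m → ℝ),
    s • z + t • c ≠ 0 ∧ IsDual r B (s • z + t • c) y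

theorem meas_shadow (z c : Fin n → ℝ) (B : Finset (Fin m)) :
    MeasurableSet {r : Fin m → Row n | InShadow r z c B} := by
  refine (meas_prim univ B).inter ?_
  have h := measurableSet_exists (X := Fin m → Row n) (Y := ℝ × ℝ × (Fin m → ℝ))
    (C := fun r u => ‖u.1 • z + u.2.1 • c‖ = 1 ∧ (∀ i ∈ B, 0 ≤ u.2.2 i) ∧
      u.1 • z + u.2.1 • c = ∑ i ∈ B, u.2.2 i • (r i).1) (by
      refine IsClosed.and ?_ (IsClosed.and (isClosed_ball fun i => ?_) ?_)
      · exact isClosed_eq (by fun_prop) (by fun_prop)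
      · exact isClosed_le (by fun_prop) (by fun_prop)
      · exact isClosed_eq (by fun_prop) (by fun_prop))
  refine MeasurableSet.congr h (Set.ext fun r => Iff.symm ?_)
  refine ⟨fun ⟨s, t, y, h1, h2, h3⟩ => ?_, fun ⟨⟨s, t, y⟩, h1, h2⟩ =>
    ⟨s, t, y, norm_pos_iff.1 (by rw [h1]; exact one_pos), h2⟩⟩
  have h4 := norm_pos_iff.2 h1
  set a := ‖s • z + t • c‖⁻¹ with ha
  refine ⟨⟨a * s, a * t, fun i => a * y i⟩, ?_, fun i hi => mul_nonneg (by positivity) (h2 i hi), ?_⟩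
  · simp only [mul_smul, ← smul_add]
    rw [norm_smul, ha, norm_inv, norm_norm, inv_mul_cancel₀ h4.ne']
  · simp only [mul_smul, ← smul_add, ← smul_sum, h3]

theorem norm_le_of_dot {p : Fin n → ℝ} (h : p ⬝ᵥ p = 1) : ‖p‖ ≤ 1 := by
  refine (pi_norm_le_iff_of_nonneg zero_le_one).2 fun l => ?_
  have h1 := single_le_sum (f := fun l => p l * p l) (fun _ _ => mul_self_nonneg _) (mem_univ l)
  exact abs_le_one_iff_mul_self_le_one.2 (h1.trans h.le)

theorem exists_unit (z : Fin n → ℝ) :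
    ∃ p : Fin n → ℝ, ∃ a b : ℝ, z = a • p ∧ p = b • z ∧ (p ⬝ᵥ p = 1 ∨ p = 0) := by
  rcases eq_or_ne z 0 with rfl | hz
  · exact ⟨0, 0, 0, by simp, by simp, Or.inr rfl⟩
  have h0 : 0 < z ⬝ᵥ z := lt_of_le_of_ne (sum_nonneg fun _ _ => mul_self_nonneg _)
    fun h => hz (dotProduct_self_eq_zero.1 h.symm)
  have h1 := Real.sqrt_pos.2 h0
  refine ⟨(√(z ⬝ᵥ z))⁻¹ • z, √(z ⬝ᵥ z), _, (smul_inv_smul₀ h1.ne' _).symm, rfl, Or.inl ?_⟩
  rw [smul_dotProduct, dotProduct_smul, smul_eq_mul, smul_eq_mul, ← mul_assoc, ← mul_inv,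
    Real.mul_self_sqrt h0.le, inv_mul_cancel₀ h0.ne']

theorem seg_of {r : Fin m → Row n} {B : Finset (Fin m)} {p q : Fin n → ℝ} {a b : ℝ}
    {y : Fin m → ℝ} (ha : a ≠ 0) (hab : |b| ≤ |a|) (h : IsDual r B (a • p + b • q) y) :
    Seg 0 r p q B ∨ Seg 0 r (-p) q B := by
  have h0 := abs_pos.2 ha
  have h1 : ∀ p' : Fin n → ℝ, a • p = |a| • p' → Seg 0 r p' q B := fun p' hp' =>
    ⟨|a|⁻¹ * b, fun i => |a|⁻¹ * y i, by
      rwa [abs_mul, abs_inv, abs_abs, inv_mul_le_iff₀ h0, mul_one],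
      fun i hi => mul_nonneg (by positivity) (h.1 i hi), by
      simp only [mul_smul, ← smul_sum, ← h.2, smul_add, hp', inv_smul_smul₀ h0.ne']⟩
  rcases lt_or_gt_of_ne ha with h2 | h2
  · exact Or.inr (h1 _ (by simp [abs_of_neg h2]))
  · exact Or.inl (h1 _ (by rw [abs_of_pos h2]))

theorem sum_shadow_le (P : Measure (Fin m → Row n)) {T : ℝ≥0∞}
    (h : ∀ p q : Fin n → ℝ, p ⬝ᵥ p = 1 → q ⬝ᵥ p = 0 → ‖q‖ ≤ 1 →
      ∑ B, P {r | On 0 r p q univ B} ≤ T) (z c : Fin n → ℝ) :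
    ∑ B, P {r | InShadow r z c B} ≤ 4 * T := by
  obtain ⟨p, a, -, rfl, -, hp⟩ := exists_unit z
  obtain ⟨q, b, b', hb, hb', hq⟩ := exists_unit (c - (c ⬝ᵥ p) • p)
  have hqp : q ⬝ᵥ p = 0 := by
    rcases hp with hp | rfl
    · rw [hb', smul_dotProduct, sub_dotProduct, smul_dotProduct, hp]
      simp
    · simp
  have hn : ∀ u : Fin n → ℝ, u ⬝ᵥ u = 1 ∨ u = 0 → ‖u‖ ≤ 1 := fun u hu =>
    hu.elim norm_le_of_dot fun h => by simp [h]
  have h1 : ∀ u v : Fin n → ℝ, v ⬝ᵥ u = 0 → ‖v‖ ≤ 1 → ∑ B, P {r | u ⬝ᵥ u = 1 ∧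
      (On 0 r u v univ B ∨ On 0 r (-u) v univ B)} ≤ T + T := by
    intro u v h2 h3
    by_cases hu : u ⬝ᵥ u = 1
    · refine le_trans ?_ (add_le_add (h u v hu h2 h3) (h (-u) v (by simpa using hu)
        (by simpa using h2) h3))
      rw [← sum_add_distrib]
      exact sum_le_sum fun B _ => (measure_mono fun r hr => hr.2).trans (measure_union_le _ _)
    · simp [hu]
  refine le_trans ?_ ((add_le_add (h1 p q hqp (hn q hq)) (h1 q p (dotProduct_comm p q ▸ hqp)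
    (hn p hp))).trans (le_of_eq (by ring)))
  rw [← sum_add_distrib]
  refine sum_le_sum fun B _ => le_trans (measure_mono ?_) (measure_union_le _ _)
  rintro r ⟨hx, s, t, y, h2, h3⟩
  have e : s • a • p + t • c = (s * a + t * (c ⬝ᵥ p)) • p + (t * b) • q := by
    rw [mul_smul t b, ← hb]
    module
  rw [e] at h2 h3
  generalize s * a + t * (c ⬝ᵥ p) = α at h2 h3
  generalize t * b = β at h2 h3
  have k1 : ∀ {u v : Fin n → ℝ} {α β : ℝ}, u ⬝ᵥ u = 1 → α ≠ 0 → |β| ≤ |α| →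
      IsDual r B (α • u + β • v) y → u ⬝ᵥ u = 1 ∧ (On 0 r u v univ B ∨ On 0 r (-u) v univ B) :=
    fun hu hα hab hd => ⟨hu, (seg_of hα hab hd).imp (⟨hx, ·⟩) (⟨hx, ·⟩)⟩
  rcases hp with hp | rfl
  · rcases hq with hq | rfl
    · rcases le_total |β| |α| with h4 | h4
      · refine Or.inl (k1 hp (fun h5 => h2 ?_) h4 h3)
        rw [h5, abs_zero, abs_nonpos_iff] at h4
        simp [h4, h5]
      · refine Or.inr (k1 hq (fun h5 => h2 ?_) h4 (add_comm (α • p) _ ▸ h3))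
        rw [h5, abs_zero, abs_nonpos_iff] at h4
        simp [h4, h5]
    · exact Or.inl (k1 (α := α) (β := 0) hp (fun h5 => h2 (by simp [h5])) (by simp) (by simpa using h3))
  · rcases hq with hq | rfl
    · exact Or.inr (k1 (α := β) (β := 0) hq (fun h5 => h2 (by simp [h5])) (by simp) (by simpa using h3))
    · simp at h2

theorem plane_bound {f : ℝ → ℝ} {κ : ℝ} (hf : Den f κ) (hc : ∀ᵐ x, ContinuousAt f x) :
    ∃ C : ℝ, ∃ k : ℕ, 1 ≤ C ∧ ∀ σ : ℝ, 0 < σ → σ ≤ 1 → ∀ (m n : ℕ) (R v : ℝ)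
      (A : Fin m → Fin n → ℝ) (β : Fin m → Measure ℝ) (z c : Fin n → ℝ), 0 ≤ R →
      (∀ i l, |A i l| ≤ R) → (∀ i, Rhs (β i) R) → m + n + R + 1 / σ ≤ v →
      ∑ B, sysLaw f σ A β {r | InShadow r z c B} ≤ ENNReal.ofReal (C * v ^ k) := by
  obtain ⟨k, t, ht, ht0, ht1, ht2, ht3⟩ := hf.minorant hc (ω := (1 / 2) ^ 8) (by positivity)
  have hκ := hf.kappa
  have hκ' := den_gd.kappa
  set κ' := ∫ x, |x| * gd x
  obtain ⟨e, he⟩ := pow_unbounded_of_one_lt (2 + (κ + κ')) one_lt_two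
  obtain ⟨C₀, hC₀⟩ : ∃ C₀ : ℝ, C₀ = 1024 * (6 + (κ + κ')) + (2 + k) ^ 4 := ⟨_, rfl⟩
  have hk4 : (0 : ℝ) ≤ (2 + k) ^ 4 := by positivity
  have hC1 : 1 ≤ C₀ := by linarith
  obtain ⟨C₁, hC₁⟩ : ∃ C₁ : ℝ, C₁ = C₀ * (4 * 2 ^ (8 + 8 * e)) ^ 3 := ⟨_, rfl⟩
  have hC2 : C₀ ≤ C₁ := hC₁ ▸ le_mul_of_one_le_right (by positivity) (one_le_pow₀ (by
    linarith [one_le_pow₀ (one_le_two (α := ℝ)) (n := 8 + 8 * e)]))
  refine ⟨12 * C₁ ^ 44, (8 + 8 * e) * 3 * 44, ?_, fun σ hσ hσ1 m n R v A β z c hR hA hβ hv => ?_⟩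
  · linarith [one_le_pow₀ (hC1.trans hC2) (n := 44)]
  have hσ2 : 1 ≤ 1 / σ := one_le_one_div hσ hσ1
  have hn0 : (0 : ℝ) ≤ n := Nat.cast_nonneg n
  have hm0 : (0 : ℝ) ≤ m := Nat.cast_nonneg m
  have hv1 : 1 ≤ v := by linarith
  obtain ⟨U, hU⟩ : ∃ U, U = C₁ * v ^ ((8 + 8 * e) * 3) := ⟨_, rfl⟩
  have hU0 : ∀ j ≤ 24, ∀ a, a ≤ C₀ → a * v ^ j ≤ U := fun j hj a ha => hU ▸
    mul_le_mul (ha.trans hC2) (pow_le_pow_right₀ hv1 (by omega)) (by positivity) (by linarith)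
  refine (sum_shadow_le _ (T := 3 * ENNReal.ofReal (U ^ 44)) (fun p q hp hpq hq1 => ?_) z c).trans
    (le_of_eq ?_)
  swap
  · rw [← mul_assoc, mul_assoc 12, ENNReal.ofReal_mul (p := 12) (by norm_num), hU, mul_pow,
      ← pow_mul, ENNReal.ofReal_ofNat, show (4 * 3 : ℝ≥0∞) = 12 by norm_num]
  have hp1 := norm_le_of_dot hp
  have hU1 := hU0 10 (by norm_num) (1024 * (6 + (κ + κ'))) (by linarith)
  by_cases hn : 24 ≤ n ∧ n ≤ m
  · rcases le_total ((2 * m : ℝ) ^ 8) (2 ^ n) with hL | hL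
    · exact large_regime hf den_gd ht ht0 ht1 ht2 ht3 hσ hσ1 hR hA hβ hv hU1
        (hU0 4 (by norm_num) _ (by linarith)) hn.1 hn.2 hp hpq hp1 hq1 hL
    · refine (small_regime (κ := κ + κ') { hf with mom_le := by linarith [hf.mom_le] }
        { den_gd with mom_le := by linarith } hσ hσ1 hR hA hβ hv hU1 hn.1 hn.2 hp hpq hp1 hq1
        ?_).trans (le_mul_of_one_le_left zero_le (by norm_num))
      calc _ ≤ (4 * (2 * v) ^ 8 * ((2 * v) ^ 8) ^ e) ^ 3 := by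
            gcongr
            · linarith
            calc _ ≤ ((2 : ℝ) ^ e) ^ n := by gcongr
              _ = (2 ^ n) ^ e := by rw [← pow_mul, ← pow_mul, mul_comm]
              _ ≤ _ := by gcongr; exact hL.trans (by gcongr; linarith)
        _ = 1 * (4 * 2 ^ (8 + 8 * e)) ^ 3 * v ^ ((8 + 8 * e) * 3) := by
            rw [one_mul, pow_mul v, ← mul_pow, mul_assoc, mul_assoc, ← mul_pow, ← pow_mul,
              ← pow_add]
        _ ≤ _ := by rw [hU, hC₁]; gcongr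
  · have := fun i => (hβ i).prob
    have := fun i l => (hf.nice hσ hσ1 (hA i l)).prob
    calc _ ≤ ∑ B : Finset (Fin m), if B.card = n then 1 else 0 := sum_le_sum fun B _ => by
          split_ifs with hB
          · unfold sysLaw
            exact prob_le_one
          · exact le_of_eq (measure_mono_null (fun r ⟨⟨x, hx⟩, _⟩ => hB hx.2.1) measure_empty)
      _ = ENNReal.ofReal (m.choose n) := by
          rw [← sum_filter, sum_const, nsmul_one, univ_filter_card_eq, card_powersetCard,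
            card_univ, Fintype.card_fin, ENNReal.ofReal_natCast]
      _ ≤ ENNReal.ofReal (U ^ 44) := by
          have h1 : v ^ 24 ≤ U := by simpa using hU0 24 le_rfl 1 hC1
          have h2 := one_le_pow₀ hv1 (n := 24)
          refine ENNReal.ofReal_le_ofReal (le_trans ?_ (h1.trans (le_self_pow₀ (by linarith)
            (by norm_num))))
          rcases not_and_or.1 hn with h3 | h3
          · calc _ ≤ (m : ℝ) ^ n := by exact_mod_cast Nat.choose_le_pow m n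
              _ ≤ v ^ n := by gcongr; linarith
              _ ≤ _ := pow_le_pow_right₀ hv1 (by omega)
          · rw [Nat.choose_eq_zero_of_lt (by omega)]
            simp only [Nat.cast_zero]
            positivity
      _ ≤ _ := le_mul_of_one_le_left zero_le (by norm_num)

end Pool.Agent.Lib.MP_3b7f8d_lc.FP
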